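import Mathlib

set_option autoImplicit false

/-! # Project DIAMOND: definitions and task statements (all Props, nothing assumed)
Rotated coordinates: a site is `(u, v)`, the four steps are `(±1, ±1)`. -/

namespace Pool.Agent.H308R3.DM

open Finset Filter Topology
open scoped Classical BigOperators ENNReal

noncomputable section

abbrev Pt := ℤ × ℤ
abbrev Stp := Bool × Bool

def sg (b : Bool) : ℤ := if b then 1 else -1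
def dv (s : Stp) : Pt := (sg s.1, sg s.2)

/-- position after `k` steps of the path `ω` started at `x` -/
def pos {n : ℕ} (x : Pt) (ω : Fin n → Stp) (k : ℕ) : Pt :=
  x + ∑ i : Fin n, if (i : ℕ) < k then dv (ω i) else 0

/-- set of visited sites -/
def rng {n : ℕ} (x : Pt) (ω : Fin n → Stp) : Finset Pt := (range (n + 1)).image (pos x ω)

def bd (G : Finset Pt) : Finset Pt := G.filter fun x => ∃ s : Stp, x + dv s ∉ G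
def inn (G : Finset Pt) : Finset Pt := G.filter fun x => ∀ s : Stp, x + dv s ∈ G
def pU (G : Finset Pt) : Finset ℤ := G.image Prod.fst
def pV (G : Finset Pt) : Finset ℤ := G.image Prod.snd

/-- one-dimensional path -/
def upos {n : ℕ} (σ : Fin n → Bool) (k : ℕ) : ℤ := ∑ i : Fin n, if (i : ℕ) < k then sg (σ i) else 0

/-- lattice square of radius `m` around `c` -/
def sq (c : Pt) (m : ℕ) : Finset Pt :=
  ((Icc (c.1 - m) (c.1 + m)) ×ˢ (Icc (c.2 - m) (c.2 + m))).filter fun x => (x.1 - x.2) % 2 = 0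

/-- expectation of `F (X_n) (S ∪ {X_1,…,X_n})` for simple random walk started at `x` -/
def ex : ℕ → Pt → Finset Pt → (Pt → Finset Pt → ℝ) → ℝ
  | 0, x, S, F => F x S
  | n + 1, x, S, F => (∑ s : Stp, ex n (x + dv s) (insert (x + dv s) S) F) / 4

/-- from `x`, in exactly `n` steps, with probability at least `w`: all of `D` is visited at the times
`1,…,n`, only sites of `H` are visited at these times, and the walk ends at `y`. -/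
def Reach (H D : Finset Pt) (x y : Pt) (w : ℝ) (n : ℕ) : Prop :=
  ∀ S : Finset Pt, w ≤ ex n x S (fun y' S' => if y' = y ∧ D ⊆ S' ∧ S' ⊆ S ∪ H then 1 else 0)

/-! ## Geometry -/

/-- ISO. Isoperimetric inequality. -/
def TaskIso : Prop := ∀ G : Finset Pt, (pU G).card + (pV (inn G)).card ≤ (bd G).card

/-- BDC. The boundary of the diamond. -/
def TaskBdCard : Prop := ∀ r : ℕ, 1 ≤ r → (bd (sq 0 r)).card = 4 * r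

/-- INT. Projections of a range are intervals containing 0. -/
def TaskInt : Prop := ∀ (n : ℕ) (ω : Fin n → Stp),
  (∃ a b : ℤ, a ≤ 0 ∧ 0 ≤ b ∧ pU (rng 0 ω) = Icc a b) ∧
  (∃ a b : ℤ, a ≤ 0 ∧ 0 ≤ b ∧ pV (rng 0 ω) = Icc a b) ∧
  (∀ x ∈ rng 0 ω, (x.1 - x.2) % 2 = 0)

/-! ## Upper bounds -/

/-- THIN. -/
def TaskThin : Prop := ∀ (n b k : ℕ) (thin : Pt → Prop),
  (((univ : Finset (Fin n → Stp)).filter (fun ω =>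
      (∀ x ∈ rng 0 ω, thin x → x ∈ bd (rng 0 ω)) ∧ (bd (rng 0 ω)).card ≤ b ∧
      k ≤ ((univ : Finset (Fin n)).filter (fun i => thin (pos 0 ω i))).card)).card : ℝ)
    ≤ 4 ^ n * 4 ^ b * (3 / 4) ^ k

/-- ONED. -/
def TaskOneD : Prop := ∀ θ : ℝ, 0 < θ → ∃ C : ℝ, 3 ≤ C ∧ ∀ (n K : ℕ) (P : Finset ℤ),
  (∀ x ∈ P, |x| ≤ (K : ℤ)) →
  (∑ σ : Fin n → Bool, if (∀ k ≤ n, |upos σ k| ≤ (K : ℤ)) then
      Real.exp (-θ * (((univ : Finset (Fin n)).filter (fun i => upos σ i ∉ P)).card : ℝ)) else 0)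
    ≤ 2 ^ n * C ^ (K + 1) * (Real.cos (Real.pi / (P.card + C))) ^ n

/-- UB. -/
def TaskUB : Prop := ∀ θ : ℝ, 0 < θ → ∃ C : ℝ, 3 ≤ C ∧ ∀ (n b k K : ℕ) (P Q : Finset ℤ),
  (∀ x ∈ P, |x| ≤ (K : ℤ)) → (∀ x ∈ Q, |x| ≤ (K : ℤ)) →
  (((univ : Finset (Fin n → Stp)).filter (fun ω =>
      (∀ x ∈ rng 0 ω, |x.1| ≤ (K : ℤ) ∧ |x.2| ≤ (K : ℤ)) ∧ (bd (rng 0 ω)).card ≤ b ∧
      pU (inn (rng 0 ω)) ⊆ P ∧ pV (inn (rng 0 ω)) ⊆ Q)).card : ℝ)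
    ≤ 4 ^ n * (4 ^ b * (3 / 4) ^ k + Real.exp (2 * θ * k) * C ^ (2 * (K + 1)) *
      (Real.cos (Real.pi / (P.card + C)) * Real.cos (Real.pi / (Q.card + C))) ^ n)

/-- GAP. One-dimensional spectral gap. -/
def TaskGap : Prop := ∀ (m : ℕ), 1 ≤ m → ∀ g : ℕ → ℝ, g 0 = 0 → g (m + 1) = 0 →
  ∑ i ∈ Icc 1 m, g i * ((g (i - 1) + 2 * g i + g (i + 1)) / 4) ≤
    Real.cos (Real.pi / (2 * (m + 1))) ^ 2 * ∑ i ∈ Icc 1 m, (g i) ^ 2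
    - (1 / (4 * (m : ℝ) ^ 2)) * (∑ i ∈ Icc 1 m, (g i) ^ 2
      - (∑ i ∈ Icc 1 m, g i * Real.sin (Real.pi * i / (m + 1))) ^ 2
        / (∑ i ∈ Icc 1 m, Real.sin (Real.pi * i / (m + 1)) ^ 2))

/-- open lattice box -/
def boxo (u1 v1 : ℤ) (a b : ℕ) : Set Pt :=
  {x | u1 < x.1 ∧ x.1 < u1 + a ∧ v1 < x.2 ∧ x.2 < v1 + b ∧ (x.1 - x.2) % 2 = 0}

/-- closed box -/
def boxc (α γ : ℤ) (w : ℕ) : Set Pt := {x | α ≤ x.1 ∧ x.1 ≤ α + w ∧ γ ≤ x.2 ∧ x.2 ≤ γ + w}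

/-- FORM. Quadratic form bound on a box with a hole. -/
def TaskForm : Prop := ∀ κ : ℝ, 0 < κ → ∃ c : ℝ, 0 < c ∧ ∃ M0 : ℕ, 1 ≤ M0 ∧
  ∀ (M a b w : ℕ) (u1 v1 α γ : ℤ), M0 ≤ M → M ≤ a → a ≤ 2 * M → M ≤ b → b ≤ 2 * M →
  κ * M ≤ w → u1 < α → α + w < u1 + a → v1 < γ → γ + w < v1 + b →
  0 ≤ (Real.cos (Real.pi / (a + 2)) ^ 2 + Real.cos (Real.pi / (b + 2)) ^ 2) / 2 - c / (M : ℝ) ^ 2 ∧
  ∀ (H : Finset Pt), (∀ x ∈ H, x ∈ boxo u1 v1 a b ∧ x ∉ boxc α γ w) →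
  ∀ f : Pt → ℝ, (∀ x, x ∉ H → f x = 0) →
    ∑ x ∈ H, ∑ s : Stp, f x * f (x + dv s) ≤
      4 * ((Real.cos (Real.pi / (a + 2)) ^ 2 + Real.cos (Real.pi / (b + 2)) ^ 2) / 2 - c / (M : ℝ) ^ 2)
        * ∑ x ∈ H, (f x) ^ 2

/-- POW. From the form bound to a bound on the number of paths. -/
def TaskPow : Prop := ∀ (H : Finset Pt) (ρ : ℝ), 0 ≤ ρ →
  (∀ f : Pt → ℝ, (∀ x, x ∉ H → f x = 0) →
    ∑ x ∈ H, ∑ s : Stp, f x * f (x + dv s) ≤ 4 * ρ * ∑ x ∈ H, (f x) ^ 2) →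
  ∀ (n : ℕ) (x : Pt),
    (((univ : Finset (Fin n → Stp)).filter (fun ω => rng x ω ⊆ H)).card : ℝ)
      ≤ 4 ^ n * Real.sqrt H.card * ρ ^ n

/-! ## Lower bounds -/

/-- one-dimensional walk killed outside `1..A` -/
def q (A : ℕ) : ℕ → ℤ → ℤ → ℝ
  | 0, x, y => if x = y ∧ 1 ≤ x ∧ x ≤ A then 1 else 0
  | n + 1, x, y => if 1 ≤ x ∧ x ≤ A then (q A n (x - 1) y + q A n (x + 1) y) / 2 else 0

/-- MIX. Kernel estimate after the mixing time. -/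
def TaskMix : Prop := ∃ C0 : ℝ, 0 < C0 ∧ ∀ A : ℕ, 3 ≤ A → ∀ (s : ℕ) (x y : ℤ),
  C0 * (A : ℝ) ^ 2 * (1 + Real.log A) ≤ s → 1 ≤ x → x ≤ A → 1 ≤ y → y ≤ A → (x + y + s) % 2 = 0 →
  Real.cos (Real.pi / (A + 1)) ^ s * (2 / (A + 1)) * Real.sin (Real.pi * x / (A + 1))
      * Real.sin (Real.pi * y / (A + 1)) ≤ q A s x y ∧
  q A s x y ≤ Real.cos (Real.pi / (A + 1)) ^ s * (8 / (A + 1)) * Real.sin (Real.pi * x / (A + 1))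
      * Real.sin (Real.pi * y / (A + 1))

/-- RET. Return probabilities. -/
def TaskRet : Prop := ∀ (A i : ℕ) (x : ℤ), 0 ≤ q A i x x ∧ q A i x x ≤ 1 / Real.sqrt (i + 1)

/-- the box `[1,A]²` (lattice points) -/
def Bx (A : ℕ) : Finset Pt :=
  ((Icc (1 : ℤ) A) ×ˢ (Icc (1 : ℤ) A)).filter fun x => (x.1 - x.2) % 2 = 0

/-- PROD. Product structure. -/
def TaskProd : Prop := ∀ (A n : ℕ) (x y : Pt), x ∈ Bx A →
  ex n x ∅ (fun y' S' => if y' = y ∧ S' ⊆ Bx A then 1 else 0) = q A n x.1 y.1 * q A n x.2 y.2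

/-- HIT. Block of length `T` in `[1, 8m+1]²`; inner part = `sq (4m+1,4m+1) (3m)`. -/
def TaskHit : Prop := ∃ (C η : ℝ), 0 < C ∧ 0 < η ∧ η ≤ 1 ∧ ∀ m : ℕ, 1 ≤ m → ∃ T : ℕ,
  (T : ℝ) ≤ C * (m : ℝ) ^ 2 * (1 + Real.log m) ∧
  ∀ x y z : Pt, x ∈ sq (4 * m + 1, 4 * m + 1) (3 * m) → y ∈ sq (4 * m + 1, 4 * m + 1) (3 * m) →
    z ∈ sq (4 * m + 1, 4 * m + 1) (3 * m) → (x.1 - y.1) % 2 = 0 →
    Real.exp (-C * (1 + Real.log m)) ≤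
      ex T x ∅ (fun y' S' => if y' = y ∧ S' ⊆ Bx (8 * m + 1) then 1 else 0) ∧
    ex T x ∅ (fun y' S' => if y' = y ∧ S' ⊆ Bx (8 * m + 1) ∧ z ∉ S' then 1 else 0) ≤
      (1 - η / (1 + Real.log m)) *
        ex T x ∅ (fun y' S' => if y' = y ∧ S' ⊆ Bx (8 * m + 1) then 1 else 0)

/-- BOX. Covering a box. -/
def TaskBox : Prop := ∃ C : ℝ, 0 < C ∧ ∀ m : ℕ, 1 ≤ m → ∀ c x y : Pt, (c.1 - c.2) % 2 = 0 →
  x ∈ sq c (3 * m) → y ∈ sq c (3 * m) →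
  ∃ n : ℕ, (n : ℝ) ≤ C * (m : ℝ) ^ 3 ∧
    Reach (sq c (4 * m)) (sq c (3 * m)) x y (Real.exp (-C * (1 + Real.log m) ^ 3)) n

/-- sites of the diamond at depth between `d1` and `d2` -/
def ringS (r d1 d2 : ℕ) : Finset Pt :=
  (sq 0 r).filter fun x => (d1 : ℤ) ≤ r - max |x.1| |x.2| ∧ (r : ℤ) - max |x.1| |x.2| ≤ d2

/-- RNG0. Forced walk along the boundary. -/
def TaskRing0 : Prop := ∀ r : ℕ, 1 ≤ r → Reach (sq 0 r) (ringS r 0 0) 0 0 ((1 / 4) ^ (10 * r)) (10 * r)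

/-- RNG. Tour of the ring at depth `4m`. -/
def TaskRing : Prop := ∃ C : ℝ, 0 < C ∧ ∀ (r m : ℕ), 1 ≤ m → 4 * m ≤ r → ∃ n : ℕ,
  (n : ℝ) ≤ C * r * (m : ℝ) ^ 2 ∧
  Reach (sq 0 r) (ringS r m (7 * m)) (-(r - 4 * m), r - 4 * m) (-(r - 4 * m), r - 4 * m)
    (Real.exp (-C * (r / m) * (1 + Real.log m) ^ 3)) n

/-- COV. Covering the diamond. -/
def TaskCover : Prop := ∃ C : ℝ, 0 < C ∧ ∀ r : ℕ, 1 ≤ r → ∃ n : ℕ, (n : ℝ) ≤ C * (r : ℝ) ^ 3 ∧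
  Reach (sq 0 r) (sq 0 r) 0 0 (Real.exp (-C * r)) n

/-- GS. Staying in the diamond. -/
def TaskStay : Prop := ∀ (r n : ℕ) (S : Finset Pt),
  (Real.cos (Real.pi / (2 * (r + 1))) ^ 2) ^ n ≤
    ex n 0 S (fun _ S' => if S' ⊆ S ∪ sq 0 r then 1 else 0)

/-- EXS. `ex` is the average over paths. -/
def TaskExSum : Prop := ∀ (n : ℕ) (x : Pt) (F : Pt → Finset Pt → ℝ),
  ex n x {x} F = (∑ ω : Fin n → Stp, F (pos x ω n) (rng x ω)) / 4 ^ n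

/-- LBF. -/
def TaskLBF : Prop := ∃ C : ℝ, 0 < C ∧ ∀ r : ℕ, 1 ≤ r → ∀ n : ℕ, C * (r : ℝ) ^ 3 ≤ n →
  Real.exp (-C * r) * (Real.cos (Real.pi / (2 * (r + 1))) ^ 2) ^ n ≤
    (((univ : Finset (Fin n → Stp)).filter (fun ω => rng 0 ω = sq 0 r)).card : ℝ) / 4 ^ n

/-! ## The Gibbs measure -/

/-- expectation of `f (R_t)`, the number of jumps being Poisson of mean `t` -/
def Es (t : ℝ) (f : Finset Pt → ℝ) : ℝ :=
  ∑' n : ℕ, Real.exp (-t) * t ^ n / n.factorial * ((∑ ω : Fin n → Stp, f (rng 0 ω)) / 4 ^ n)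

def wt (β : ℝ) (G : Finset Pt) : ℝ := Real.exp (-β * (bd G).card)

def mu (β t : ℝ) (A : Set (Finset Pt)) : ℝ :=
  Es t (fun G => if G ∈ A then wt β G else 0) / Es t (wt β)

/-- the scale `p* = (π² t / β)^(1/3)` -/
def ps (β t : ℝ) : ℝ := (Real.pi ^ 2 * t / β) ^ ((1 : ℝ) / 3)

/-- ZLOW. -/
def TaskZ : Prop := ∃ C β1 : ℝ, 0 < C ∧ 0 < β1 ∧ ∀ β : ℝ, β1 ≤ β → ∀ᶠ t in atTop,
  Real.exp (-(3 * β + C) * ps β t) ≤ Es t (wt β)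

/-- the good event -/
def good1 (η β t : ℝ) : Set (Finset Pt) :=
  {G | |((pU (inn G)).card : ℝ) - ps β t| ≤ η * ps β t ∧ |((pV (inn G)).card : ℝ) - ps β t| ≤ η * ps β t ∧
    ((bd G).card : ℝ) ≤ (pU (inn G)).card + (pV (inn G)).card + η * ps β t}

/-- BAD1. -/
def TaskBad1 : Prop := ∀ η : ℝ, 0 < η → ∃ β0 : ℝ, 0 < β0 ∧ ∀ β : ℝ, β0 ≤ β →
  Tendsto (fun t => mu β t {G | G ∉ good1 η β t}) atTop (𝓝 0)

/-- `G` misses a box of side `w` inside its bounding box -/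
def missing (w : ℕ) : Set (Finset Pt) :=
  {G | ∃ a b c d α γ : ℤ, pU G = Icc a b ∧ pV G = Icc c d ∧ a ≤ α ∧ α + w ≤ b ∧ c ≤ γ ∧ γ + w ≤ d ∧
    ∀ x ∈ G, x ∉ boxc α γ w}

/-- BAD2. -/
def TaskBad2 : Prop := ∀ κ : ℝ, 0 < κ → ∃ η : ℝ, 0 < η ∧ ∀ η' : ℝ, 0 < η' → η' ≤ η → ∃ β0 : ℝ, 0 < β0 ∧
  ∀ β : ℝ, β0 ≤ β → Tendsto (fun t => mu β t
    {G | G ∈ good1 η' β t ∧ ∃ w : ℕ, κ * ps β t ≤ w ∧ G ∈ missing w}) atTop (𝓝 0)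

/-! ## Shape -/

/-- embedding of rotated coordinates: `(u,v) = (x+y, x-y)` -/
def emb (x : Pt) : ℂ := ⟨((x.1 : ℝ) + x.2) / 2, ((x.1 : ℝ) - x.2) / 2⟩

/-- `R / diam R` -/
def shape (G : Finset Pt) : Set ℂ :=
  (fun z : ℂ => z / (Metric.diam (emb '' (G : Set Pt)) : ℂ)) '' (emb '' (G : Set Pt))

/-- Hausdorff distance up to translation -/
def hd (A B : Set ℂ) : ℝ≥0∞ := ⨅ z : ℂ, Metric.hausdorffEDist A ((fun x => z + x) '' B)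

def Dmd : Set ℂ := {z | |z.re| + |z.im| ≤ 1 / 2}

/-- GEO. -/
def TaskGeo : Prop := ∀ ε : ℝ, 0 < ε → ∃ η κ N0 : ℝ, 0 < η ∧ 0 < κ ∧
  ∀ (p : ℝ) (G : Finset Pt) (a b c d : ℤ) (w : ℕ), N0 ≤ p → G.Nonempty →
    pU G = Icc a b → pV G = Icc c d →
    |((b : ℝ) - a) - p| ≤ η * p → |((d : ℝ) - c) - p| ≤ η * p → (w : ℝ) ≤ κ * p →
    (∀ α γ : ℤ, a ≤ α → α + w ≤ b → c ≤ γ → γ + w ≤ d → ∃ x ∈ G, x ∈ boxc α γ w) →
    hd (shape G) Dmd ≤ ENNReal.ofReal ε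

end

end Pool.Agent.H308R3.DM
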