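import Pool.Agent.H308R3.DM.Stmts

set_option autoImplicit false

namespace Pool.Agent.H308R3.DM

open Finset
open scoped Classical BigOperators

noncomputable section

theorem ex_mono {F F' : Pt → Finset Pt → ℝ} (h : ∀ y S', F y S' ≤ F' y S') :
    ∀ (n : ℕ) (x : Pt) (S : Finset Pt), ex n x S F ≤ ex n x S F'
  | 0, x, S => h x S
  | n + 1, x, S => by
      have := Finset.sum_le_sum (fun (s : Stp) (_ : s ∈ univ) =>
        ex_mono h n (x + dv s) (insert (x + dv s) S))
      simp only [ex]
      linarith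

/-- the visited set only grows: it is enough to compare `F` and `F'` on sets containing `S` -/
theorem ex_mono' {F F' : Pt → Finset Pt → ℝ} :
    ∀ (n : ℕ) (x : Pt) (S : Finset Pt), (∀ y S', S ⊆ S' → F y S' ≤ F' y S') →
      ex n x S F ≤ ex n x S F'
  | 0, x, S, h => h x S (Finset.Subset.refl _)
  | n + 1, x, S, h => by
      have := Finset.sum_le_sum (fun (s : Stp) (_ : s ∈ univ) =>
        ex_mono' (F := F) (F' := F') n (x + dv s) (insert (x + dv s) S)
          (fun y S' hS => h y S' ((Finset.subset_insert _ _).trans hS)))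
      simp only [ex]
      linarith

theorem ex_congr' {F F' : Pt → Finset Pt → ℝ} (n : ℕ) (x : Pt) (S : Finset Pt)
    (h : ∀ y S', S ⊆ S' → F y S' = F' y S') : ex n x S F = ex n x S F' :=
  le_antisymm (ex_mono' n x S fun y S' hS => (h y S' hS).le)
    (ex_mono' n x S fun y S' hS => (h y S' hS).ge)

theorem ex_const (c : ℝ) : ∀ (n : ℕ) (x : Pt) (S : Finset Pt), ex n x S (fun _ _ => c) = c
  | 0, x, S => rfl
  | n + 1, x, S => by
      simp only [ex, ex_const c n]
      simp [Fintype.card_prod]

theorem ex_nonneg {F : Pt → Finset Pt → ℝ} (h : ∀ y S', 0 ≤ F y S') (n : ℕ) (x : Pt)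
    (S : Finset Pt) : 0 ≤ ex n x S F := by
  rw [← ex_const 0 n x S]
  exact ex_mono h n x S

theorem ex_le_one {F : Pt → Finset Pt → ℝ} (h : ∀ y S', F y S' ≤ 1) (n : ℕ) (x : Pt)
    (S : Finset Pt) : ex n x S F ≤ 1 := by
  rw [← ex_const 1 n x S]
  exact ex_mono h n x S

theorem ex_add (F F' : Pt → Finset Pt → ℝ) :
    ∀ (n : ℕ) (x : Pt) (S : Finset Pt),
      ex n x S (fun y S' => F y S' + F' y S') = ex n x S F + ex n x S F'
  | 0, x, S => rfl
  | n + 1, x, S => by
      simp only [ex, ex_add F F' n, Finset.sum_add_distrib]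
      ring

theorem ex_smul (c : ℝ) (F : Pt → Finset Pt → ℝ) :
    ∀ (n : ℕ) (x : Pt) (S : Finset Pt), ex n x S (fun y S' => c * F y S') = c * ex n x S F
  | 0, x, S => rfl
  | n + 1, x, S => by
      simp only [ex, ex_smul c F n, ← Finset.mul_sum]
      ring

theorem ex_sum {ι : Type*} (I : Finset ι) (F : ι → Pt → Finset Pt → ℝ) (n : ℕ) (x : Pt)
    (S : Finset Pt) :
    ex n x S (fun y S' => ∑ i ∈ I, F i y S') = ∑ i ∈ I, ex n x S (F i) := by
  induction I using Finset.induction_on with
  | empty => simp [ex_const]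
  | insert a s ha ih =>
      simp only [Finset.sum_insert ha]
      rw [ex_add (F a) (fun y S' => ∑ i ∈ s, F i y S'), ih]

/-- Markov property -/
theorem ex_comp (F : Pt → Finset Pt → ℝ) (n : ℕ) :
    ∀ (m : ℕ) (x : Pt) (S : Finset Pt),
      ex (m + n) x S F = ex m x S (fun y S' => ex n y S' F)
  | 0, x, S => by simp [ex]
  | m + 1, x, S => by
      have h : m + 1 + n = (m + n) + 1 := by omega
      rw [h]
      simp only [ex, ex_comp F n m]

/-- the initial set plays no role -/
theorem ex_shift :
    ∀ (n : ℕ) (F : Pt → Finset Pt → ℝ) (x : Pt) (S S0 : Finset Pt),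
      ex n x (S ∪ S0) F = ex n x S0 (fun y S' => F y (S ∪ S'))
  | 0, F, x, S, S0 => rfl
  | n + 1, F, x, S, S0 => by
      simp only [ex]
      congr 1
      refine Finset.sum_congr rfl fun s _ => ?_
      rw [← ex_shift n F (x + dv s) S (insert (x + dv s) S0), Finset.union_insert]

theorem ex_shift0 (n : ℕ) (F : Pt → Finset Pt → ℝ) (x : Pt) (S : Finset Pt) :
    ex n x S F = ex n x ∅ (fun y S' => F y (S ∪ S')) := by
  have := ex_shift n F x S ∅
  rwa [Finset.union_empty] at this

/-- it is enough to prove `Reach` for the empty initial set -/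
theorem Reach.of_empty {H D : Finset Pt} {x y : Pt} {w : ℝ} {n : ℕ}
    (h : w ≤ ex n x ∅ (fun y' S' => if y' = y ∧ D ⊆ S' ∧ S' ⊆ H then 1 else 0)) :
    Reach H D x y w n := by
  intro S
  rw [ex_shift0]
  refine h.trans (ex_mono ?_ n x ∅)
  intro y' S'
  split_ifs with h1 h2 h2
  · exact le_refl _
  · exact absurd ⟨h1.1, h1.2.1.trans Finset.subset_union_right,
      Finset.union_subset_union_right h1.2.2⟩ h2
  · exact zero_le_one
  · exact le_refl _

theorem Reach.mono {H H' D D' : Finset Pt} {x y : Pt} {w w' : ℝ} {n : ℕ} (h : Reach H D x y w n)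
    (hH : H ⊆ H') (hD : D' ⊆ D) (hw : w' ≤ w) : Reach H' D' x y w' n := by
  intro S
  refine hw.trans ((h S).trans (ex_mono ?_ n x S))
  intro y' S'
  split_ifs with h1 h2 h2
  · exact le_refl _
  · exact absurd ⟨h1.1, hD.trans h1.2.1, h1.2.2.trans (Finset.union_subset_union_right hH)⟩ h2
  · exact zero_le_one
  · exact le_refl _

theorem Reach.refl (H : Finset Pt) (x : Pt) : Reach H ∅ x x 1 0 := by
  intro S
  simp [ex]

theorem Reach.comp {H D D' : Finset Pt} {x y z : Pt} {w w' : ℝ} {n n' : ℕ} (hw' : 0 ≤ w')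
    (h : Reach H D x y w n) (h' : Reach H D' y z w' n') :
    Reach H (D ∪ D') x z (w * w') (n + n') := by
  intro S
  rw [ex_comp]
  have h1 : w * w' ≤ ex n x S (fun y' S' => w' * (if y' = y ∧ D ⊆ S' ∧ S' ⊆ S ∪ H then 1 else 0)) := by
    rw [ex_smul]
    have := mul_le_mul_of_nonneg_right (h S) hw'
    linarith
  refine h1.trans (ex_mono' n x S ?_)
  intro y' S' hS
  split_ifs with h2
  · obtain ⟨rfl, h3, h4⟩ := h2
    rw [mul_one]
    refine (h' S').trans (ex_mono' n' y' S' ?_)
    intro y2 S2 hS2
    split_ifs with h5 h6 h6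
    · exact le_refl _
    · exfalso
      refine h6 ⟨h5.1, Finset.union_subset (h3.trans hS2) h5.2.1, h5.2.2.trans ?_⟩
      exact Finset.union_subset h4 Finset.subset_union_right
    · exact zero_le_one
    · exact le_refl _
  · rw [mul_zero]
    exact ex_nonneg (fun _ _ => by split_ifs <;> norm_num) _ _ _

/-- one forced step -/
theorem Reach.step {H D : Finset Pt} {x y : Pt} {w : ℝ} {n : ℕ} (s : Stp) (hx : x + dv s ∈ H)
    (h : Reach H D (x + dv s) y w n) : Reach H (insert (x + dv s) D) x y (w / 4) (n + 1) := by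
  intro S
  simp only [ex]
  have h0 : ∀ s' : Stp, 0 ≤ ex n (x + dv s') (insert (x + dv s') S)
      (fun y' S' => if y' = y ∧ insert (x + dv s) D ⊆ S' ∧ S' ⊆ S ∪ H then (1 : ℝ) else 0) :=
    fun s' => ex_nonneg (fun _ _ => by split_ifs <;> norm_num) _ _ _
  have h1 : w ≤ ex n (x + dv s) (insert (x + dv s) S)
      (fun y' S' => if y' = y ∧ insert (x + dv s) D ⊆ S' ∧ S' ⊆ S ∪ H then (1 : ℝ) else 0) := by
    refine (h (insert (x + dv s) S)).trans (ex_mono' _ _ _ ?_)
    intro y' S' hS
    split_ifs with h2 h3 h3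
    · exact le_refl _
    · exfalso
      refine h3 ⟨h2.1, Finset.insert_subset (hS (Finset.mem_insert_self _ _)) h2.2.1, ?_⟩
      refine h2.2.2.trans (Finset.union_subset (Finset.insert_subset ?_ Finset.subset_union_left)
        Finset.subset_union_right)
      exact Finset.mem_union_right _ hx
    · exact zero_le_one
    · exact le_refl _
  have h2 := Finset.single_le_sum (f := fun s' : Stp => ex n (x + dv s') (insert (x + dv s') S)
      (fun y' S' => if y' = y ∧ insert (x + dv s) D ⊆ S' ∧ S' ⊆ S ∪ H then (1 : ℝ) else 0))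
      (fun s' _ => h0 s') (Finset.mem_univ s)
  have h3 := h1.trans h2
  linarith

/-- end point of a list of steps -/
def endp (x : Pt) : List Stp → Pt
  | [] => x
  | s :: L => endp (x + dv s) L

/-- visited sites (without the starting point) -/
def vis (x : Pt) : List Stp → Finset Pt
  | [] => ∅
  | s :: L => insert (x + dv s) (vis (x + dv s) L)

/-- forced path -/
theorem Reach.path {H : Finset Pt} : ∀ (L : List Stp) (x : Pt), vis x L ⊆ H →
    Reach H (vis x L) x (endp x L) ((1 / 4) ^ L.length) L.length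
  | [], x, _ => by simpa [vis, endp] using Reach.refl H x
  | s :: L, x, h => by
      have h1 : x + dv s ∈ H := h (by simp [vis])
      have h2 : vis (x + dv s) L ⊆ H := fun z hz => h (by simp [vis, hz])
      have h3 := Reach.step s h1 (Reach.path L (x + dv s) h2)
      have e : ((1 : ℝ) / 4) ^ (s :: L).length = (1 / 4) ^ L.length / 4 := by
        rw [List.length_cons, pow_succ]
        ring
      rw [e]
      exact h3

theorem endp_append (x : Pt) (L L' : List Stp) : endp x (L ++ L') = endp (endp x L) L' := by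
  induction L generalizing x with
  | nil => rfl
  | cons s L ih => simp [endp, ih]

theorem vis_append (x : Pt) (L L' : List Stp) : vis x (L ++ L') = vis x L ∪ vis (endp x L) L' := by
  induction L generalizing x with
  | nil => simp [vis, endp]
  | cons s L ih => simp [endp, vis, ih, Finset.insert_union]

/-- an injective map of the lattice permuting the steps preserves `ex` -/
theorem ex_map (φ : Pt → Pt) (e : Stp ≃ Stp) (hφ : ∀ x s, φ (x + dv s) = φ x + dv (e s)) :
    ∀ (n : ℕ) (x : Pt) (S : Finset Pt) (F : Pt → Finset Pt → ℝ),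
      ex n (φ x) (S.image φ) F = ex n x S (fun y S' => F (φ y) (S'.image φ))
  | 0, x, S, F => rfl
  | n + 1, x, S, F => by
      simp only [ex]
      congr 1
      rw [← Equiv.sum_comp e]
      refine Finset.sum_congr rfl fun s _ => ?_
      rw [← ex_map φ e hφ n (x + dv s) (insert (x + dv s) S) F, Finset.image_insert, hφ]

/-- transport of `Reach` by a symmetry of the lattice (translation, rotation) -/
theorem Reach.map {H D : Finset Pt} {x y : Pt} {w : ℝ} {n : ℕ} (φ : Pt → Pt) (e : Stp ≃ Stp)
    (hφ : ∀ x s, φ (x + dv s) = φ x + dv (e s))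
    (h : Reach H D x y w n) : Reach (H.image φ) (D.image φ) (φ x) (φ y) w n := by
  apply Reach.of_empty
  have h1 := ex_map φ e hφ n x ∅
    (fun y' S' => if y' = φ y ∧ D.image φ ⊆ S' ∧ S' ⊆ H.image φ then (1 : ℝ) else 0)
  rw [Finset.image_empty] at h1
  rw [h1]
  refine (h ∅).trans (ex_mono ?_ n x ∅)
  intro y' S'
  split_ifs with h2 h3 h3
  · exact le_refl _
  · exfalso
    rw [Finset.empty_union] at h2
    exact h3 ⟨by rw [h2.1], Finset.image_subset_image h2.2.1, Finset.image_subset_image h2.2.2⟩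
  · exact zero_le_one
  · exact le_refl _

theorem Reach.translate {H D : Finset Pt} {x y : Pt} {w : ℝ} {n : ℕ} (a : Pt)
    (h : Reach H D x y w n) :
    Reach (H.image (fun z => z + a)) (D.image (fun z => z + a)) (x + a) (y + a) w n :=
  Reach.map (fun z => z + a) (Equiv.refl _) (fun x s => by simp only [Equiv.refl_apply]; abel) h

/-- rotation `(u,v) ↦ (v,-u)` (top side to right side) -/
def rot90 (x : Pt) : Pt := (x.2, -x.1)

def rotE : Stp ≃ Stp where
  toFun s := (s.2, !s.1)
  invFun s := (!s.2, s.1)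
  left_inv s := by simp
  right_inv s := by simp

theorem rot90_step (x : Pt) (s : Stp) : rot90 (x + dv s) = rot90 x + dv (rotE s) := by
  rcases s with ⟨a, b⟩
  cases a <;> cases b <;> simp [rot90, dv, rotE, sg] <;> ring

theorem Reach.rot {H D : Finset Pt} {x y : Pt} {w : ℝ} {n : ℕ} (h : Reach H D x y w n) :
    Reach (H.image rot90) (D.image rot90) (rot90 x) (rot90 y) w n :=
  Reach.map rot90 rotE rot90_step h

end

end Pool.Agent.H308R3.DM
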