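import Pool.Agent.H308R3.DM.Stmts

set_option autoImplicit false

namespace Pool.Agent.H308R3.DM

open Finset Filter Topology
open scoped Classical BigOperators ENNReal

noncomputable section

/-! ## symmetric form of the isoperimetric inequality -/

theorem dv_swap (s : Stp) : dv s.swap = (dv s).swap := rfl

theorem mem_image_swap (G : Finset Pt) (x : Pt) : x ∈ G.image Prod.swap ↔ x.swap ∈ G := by
  constructor
  · intro h
    obtain ⟨y, hy, rfl⟩ := Finset.mem_image.mp h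
    simpa using hy
  · intro h
    exact Finset.mem_image.mpr ⟨x.swap, h, by simp⟩

theorem bd_swap (G : Finset Pt) : bd (G.image Prod.swap) = (bd G).image Prod.swap := by
  ext x
  rw [mem_image_swap]
  simp only [bd, Finset.mem_filter, mem_image_swap]
  constructor
  · rintro ⟨h1, s, hs⟩
    refine ⟨h1, s.swap, ?_⟩
    rwa [dv_swap, ← Prod.swap_add] 
  · rintro ⟨h1, s, hs⟩
    refine ⟨h1, s.swap, ?_⟩
    rw [dv_swap, Prod.swap_add]
    simpa using hs

theorem inn_swap (G : Finset Pt) : inn (G.image Prod.swap) = (inn G).image Prod.swap := by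
  ext x
  rw [mem_image_swap]
  simp only [inn, Finset.mem_filter, mem_image_swap]
  constructor
  · rintro ⟨h1, h2⟩
    refine ⟨h1, fun s => ?_⟩
    have := h2 s.swap
    rw [dv_swap, Prod.swap_add] at this
    simpa using this
  · rintro ⟨h1, h2⟩
    refine ⟨h1, fun s => ?_⟩
    have := h2 s.swap
    rwa [dv_swap, ← Prod.swap_add] at this

theorem pU_swap (G : Finset Pt) : pU (G.image Prod.swap) = pV G := by
  ext a
  simp only [pU, pV, Finset.mem_image]
  constructor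
  · rintro ⟨x, ⟨y, hy, rfl⟩, rfl⟩
    exact ⟨y, hy, rfl⟩
  · rintro ⟨y, hy, rfl⟩
    exact ⟨y.swap, ⟨y, hy, rfl⟩, rfl⟩

theorem pV_swap (G : Finset Pt) : pV (G.image Prod.swap) = pU G := by
  ext a
  simp only [pU, pV, Finset.mem_image]
  constructor
  · rintro ⟨x, ⟨y, hy, rfl⟩, rfl⟩
    exact ⟨y, hy, rfl⟩
  · rintro ⟨y, hy, rfl⟩
    exact ⟨y.swap, ⟨y, hy, rfl⟩, rfl⟩

theorem iso_symm (h : TaskIso) (G : Finset Pt) : (pV G).card + (pU (inn G)).card ≤ (bd G).card := by
  have h1 := h (G.image Prod.swap)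
  rw [pU_swap, inn_swap, pV_swap, bd_swap, Finset.card_image_of_injective _ Prod.swap_injective] at h1
  exact h1

/-! ## the functional `Es` -/

theorem card_paths (n : ℕ) : (Fintype.card (Fin n → Stp) : ℝ) = 4 ^ n := by
  simp [Fintype.card_prod]

theorem summable_pois (t : ℝ) :
    Summable (fun n : ℕ => Real.exp (-t) * t ^ n / n.factorial) := by
  have h := (Real.summable_pow_div_factorial t).mul_left (Real.exp (-t))
  refine h.congr fun n => ?_
  ring

theorem avg_nonneg {f : Finset Pt → ℝ} (hf : ∀ G, 0 ≤ f G) (n : ℕ) :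
    0 ≤ (∑ ω : Fin n → Stp, f (rng 0 ω)) / 4 ^ n :=
  div_nonneg (Finset.sum_nonneg fun _ _ => hf _) (by positivity)

theorem avg_le_one {f : Finset Pt → ℝ} (hf : ∀ G, f G ≤ 1) (n : ℕ) :
    (∑ ω : Fin n → Stp, f (rng 0 ω)) / 4 ^ n ≤ 1 := by
  rw [div_le_one (by positivity), ← card_paths n]
  calc (∑ ω : Fin n → Stp, f (rng 0 ω)) ≤ ∑ ω : Fin n → Stp, (1 : ℝ) :=
        Finset.sum_le_sum fun _ _ => hf _
    _ = _ := by simp

theorem summable_Es {t : ℝ} (ht : 0 ≤ t) {f : Finset Pt → ℝ} (hf0 : ∀ G, 0 ≤ f G)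
    (hf1 : ∀ G, f G ≤ 1) :
    Summable (fun n : ℕ => Real.exp (-t) * t ^ n / n.factorial *
      ((∑ ω : Fin n → Stp, f (rng 0 ω)) / 4 ^ n)) := by
  refine Summable.of_nonneg_of_le (fun n => mul_nonneg (by positivity) (avg_nonneg hf0 n)) (fun n => ?_)
    (summable_pois t)
  exact mul_le_of_le_one_right (by positivity) (avg_le_one hf1 n)

theorem Es_nonneg {t : ℝ} (ht : 0 ≤ t) {f : Finset Pt → ℝ} (hf0 : ∀ G, 0 ≤ f G) : 0 ≤ Es t f :=
  tsum_nonneg fun n => mul_nonneg (by positivity) (avg_nonneg hf0 n)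

/-- comparison on ranges of paths -/
theorem Es_le_add {t : ℝ} (ht : 0 ≤ t) {f g h : Finset Pt → ℝ}
    (hf0 : ∀ G, 0 ≤ f G) (hf1 : ∀ G, f G ≤ 1) (hg0 : ∀ G, 0 ≤ g G) (hg1 : ∀ G, g G ≤ 1)
    (hh0 : ∀ G, 0 ≤ h G) (hh1 : ∀ G, h G ≤ 1)
    (hle : ∀ (n : ℕ) (ω : Fin n → Stp), f (rng 0 ω) ≤ g (rng 0 ω) + h (rng 0 ω)) :
    Es t f ≤ Es t g + Es t h := by
  unfold Es
  rw [← Summable.tsum_add (summable_Es ht hg0 hg1) (summable_Es ht hh0 hh1)]
  refine Summable.tsum_le_tsum (fun n => ?_) (summable_Es ht hf0 hf1)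
    ((summable_Es ht hg0 hg1).add (summable_Es ht hh0 hh1))
  rw [← mul_add, ← add_div, ← Finset.sum_add_distrib]
  refine mul_le_mul_of_nonneg_left ?_ (by positivity)
  exact div_le_div_of_nonneg_right (Finset.sum_le_sum fun ω _ => hle n ω) (by positivity)

theorem wt_pos (β : ℝ) (G : Finset Pt) : 0 < wt β G := Real.exp_pos _

theorem wt_le_one {β : ℝ} (hβ : 0 ≤ β) (G : Finset Pt) : wt β G ≤ 1 := by
  unfold wt
  rw [Real.exp_le_one_iff]
  have : (0 : ℝ) ≤ (bd G).card := by positivity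
  nlinarith

theorem ind_nonneg (β : ℝ) (A : Set (Finset Pt)) (G : Finset Pt) :
    0 ≤ (if G ∈ A then wt β G else 0) := by
  split_ifs
  · exact (wt_pos β G).le
  · exact le_refl _

theorem ind_le_one {β : ℝ} (hβ : 0 ≤ β) (A : Set (Finset Pt)) (G : Finset Pt) :
    (if G ∈ A then wt β G else 0) ≤ 1 := by
  split_ifs
  · exact wt_le_one hβ G
  · exact zero_le_one

theorem Z_pos {β t : ℝ} (hβ : 0 ≤ β) (ht : 0 ≤ t) : 0 < Es t (wt β) := by
  have h1 := summable_Es ht (fun G => (wt_pos β G).le) (wt_le_one hβ)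
  have h2 : 0 < Real.exp (-t) * t ^ 0 / (0 : ℕ).factorial *
      ((∑ ω : Fin 0 → Stp, wt β (rng 0 ω)) / 4 ^ 0) := by
    have : 0 < ∑ ω : Fin 0 → Stp, wt β (rng 0 ω) :=
      Finset.sum_pos (fun _ _ => wt_pos β _) Finset.univ_nonempty
    simp only [pow_zero, Nat.factorial_zero, Nat.cast_one, div_one, mul_one]
    positivity
  exact h1.tsum_pos (fun n => mul_nonneg (by positivity) (avg_nonneg (fun G => (wt_pos β G).le) n)) 0 h2

theorem mu_nonneg {β t : ℝ} (hβ : 0 ≤ β) (ht : 0 ≤ t) (A : Set (Finset Pt)) : 0 ≤ mu β t A :=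
  div_nonneg (Es_nonneg ht (ind_nonneg β A)) (Z_pos hβ ht).le

theorem mu_le_add {β t : ℝ} (hβ : 0 ≤ β) (ht : 0 ≤ t) {A B C : Set (Finset Pt)}
    (h : ∀ (n : ℕ) (ω : Fin n → Stp), rng 0 ω ∈ A → rng 0 ω ∈ B ∨ rng 0 ω ∈ C) :
    mu β t A ≤ mu β t B + mu β t C := by
  unfold mu
  rw [← add_div]
  refine div_le_div_of_nonneg_right ?_ (Z_pos hβ ht).le
  refine Es_le_add ht (ind_nonneg β A) (ind_le_one hβ A) (ind_nonneg β B) (ind_le_one hβ B)
    (ind_nonneg β C) (ind_le_one hβ C) fun n ω => ?_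
  have h1 := h n ω
  have h2 := (wt_pos β (rng 0 ω)).le
  by_cases hA : rng 0 ω ∈ A
  · rw [if_pos hA]
    rcases h1 hA with hB | hC
    · rw [if_pos hB]
      have := ind_nonneg β C (rng 0 ω)
      linarith
    · rw [if_pos hC]
      have := ind_nonneg β B (rng 0 ω)
      linarith
  · rw [if_neg hA]
    exact add_nonneg (ind_nonneg β B _) (ind_nonneg β C _)

theorem mu_univ {β t : ℝ} (hβ : 0 ≤ β) (ht : 0 ≤ t) : mu β t Set.univ = 1 := by
  unfold mu
  simp only [Set.mem_univ, if_true]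
  exact div_self (Z_pos hβ ht).ne'

/-- the scale tends to infinity -/
theorem ps_tendsto {β : ℝ} (hβ : 0 < β) : Tendsto (fun t => ps β t) atTop atTop := by
  unfold ps
  have h1 : Tendsto (fun t : ℝ => Real.pi ^ 2 * t / β) atTop atTop := by
    have h2 : (fun t : ℝ => Real.pi ^ 2 * t / β) = fun t => (Real.pi ^ 2 / β) * t := by
      ext t
      ring
    rw [h2]
    exact tendsto_id.const_mul_atTop (by positivity)
  exact (tendsto_rpow_atTop (by norm_num : (0 : ℝ) < 1 / 3)).comp h1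

/-- main theorem in rotated coordinates -/
theorem main_rot (hIso : TaskIso) (hInt : TaskInt) (hBad1 : TaskBad1) (hBad2 : TaskBad2)
    (hGeo : TaskGeo) :
    ∀ ε : ℝ, 0 < ε → ∃ β0 : ℝ, 0 < β0 ∧ ∀ β : ℝ, β0 ≤ β →
      Tendsto (fun t => mu β t {G | ENNReal.ofReal ε < hd (shape G) Dmd}) atTop (𝓝 0) := by
  intro ε hε
  obtain ⟨η, κ, N0, hη, hκ, hG⟩ := hGeo ε hε
  obtain ⟨η2, hη2, h2⟩ := hBad2 (κ / 2) (by positivity)
  set η' : ℝ := min (min (η / 3) η2) (1 / 2) with hη'
  have hη'0 : 0 < η' := by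
    rw [hη']
    exact lt_min (lt_min (by positivity) hη2) (by norm_num)
  have hη'1 : η' ≤ η / 3 := (min_le_left _ _).trans (min_le_left _ _)
  have hη'2 : η' ≤ η2 := (min_le_left _ _).trans (min_le_right _ _)
  have hη'3 : η' ≤ 1 / 2 := min_le_right _ _
  obtain ⟨β1, hβ1, h3⟩ := h2 η' hη'0 hη'2
  obtain ⟨β2, hβ2, h4⟩ := hBad1 η' hη'0
  refine ⟨max β1 β2, lt_max_of_lt_left hβ1, fun β hβ => ?_⟩
  have hβ0 : 0 < β := hβ1.trans_le ((le_max_left _ _).trans hβ)
  have h5 := h3 β ((le_max_left _ _).trans hβ)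
  have h6 := h4 β ((le_max_right _ _).trans hβ)
  have h7 := h6.add h5
  rw [add_zero] at h7
  refine squeeze_zero' ?_ ?_ h7
  · filter_upwards [eventually_ge_atTop 0] with t ht
    exact mu_nonneg hβ0.le ht _
  · filter_upwards [eventually_ge_atTop 0, (ps_tendsto hβ0).eventually_ge_atTop
      (max (max N0 (3 / η)) (max (2 / κ) 4))] with t ht hp
    have hpN : N0 ≤ ps β t := (le_max_left _ _).trans ((le_max_left _ _).trans hp)
    have hpη : 3 / η ≤ ps β t := (le_max_right _ _).trans ((le_max_left _ _).trans hp)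
    have hpκ : 2 / κ ≤ ps β t := (le_max_left _ _).trans ((le_max_right _ _).trans hp)
    have hp4 : 4 ≤ ps β t := (le_max_right _ _).trans ((le_max_right _ _).trans hp)
    have hp0 : 0 < ps β t := by linarith
    refine mu_le_add hβ0.le ht fun n ω hω => ?_
    by_contra hcon
    push Not at hcon
    obtain ⟨hc1, hc2⟩ := hcon
    have hgood : rng 0 ω ∈ good1 η' β t := by
      by_contra h
      exact hc1 h
    have hmiss : ∀ w : ℕ, κ / 2 * ps β t ≤ w → rng 0 ω ∉ missing w := by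
      intro w hw hm
      exact hc2 ⟨hgood, w, hw, hm⟩
    obtain ⟨⟨a, b, ha, hb, hU⟩, ⟨c, d, hc, hd', hV⟩, -⟩ := hInt n ω
    set G := rng 0 ω with hGdef
    obtain ⟨g1, g2, g3⟩ := hgood
    have hi1 : ((pU G).card : ℝ) + (pV (inn G)).card ≤ (bd G).card := by exact_mod_cast hIso G
    have hi2 : ((pV G).card : ℝ) + (pU (inn G)).card ≤ (bd G).card := by exact_mod_cast iso_symm hIso G
    have hsub : inn G ⊆ G := Finset.filter_subset _ _
    have hs1 : ((pU (inn G)).card : ℝ) ≤ (pU G).card := by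
      exact_mod_cast Finset.card_le_card (Finset.image_subset_image hsub)
    have hs2 : ((pV (inn G)).card : ℝ) ≤ (pV G).card := by
      exact_mod_cast Finset.card_le_card (Finset.image_subset_image hsub)
    have hcU : ((pU G).card : ℝ) = (b : ℝ) - a + 1 := by
      rw [hU, Int.card_Icc]
      have : ((b + 1 - a).toNat : ℤ) = b + 1 - a := Int.toNat_of_nonneg (by linarith)
      have h' : (((b + 1 - a).toNat : ℤ) : ℝ) = ((b + 1 - a : ℤ) : ℝ) := by rw [this]
      push_cast at h'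
      push_cast
      linarith
    have hcV : ((pV G).card : ℝ) = (d : ℝ) - c + 1 := by
      rw [hV, Int.card_Icc]
      have : ((d + 1 - c).toNat : ℤ) = d + 1 - c := Int.toNat_of_nonneg (by linarith)
      have h' : (((d + 1 - c).toNat : ℤ) : ℝ) = ((d + 1 - c : ℤ) : ℝ) := by rw [this]
      push_cast at h'
      push_cast
      linarith
    rw [abs_le] at g1 g2
    have h3η : 3 ≤ η * ps β t := by
      rw [div_le_iff₀ hη] at hpη
      linarith
    have hη'p : 3 * (η' * ps β t) ≤ η * ps β t := by nlinarith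
    -- choose w
    set w : ℕ := ⌈κ / 2 * ps β t⌉₊ with hw
    have hw1 : κ / 2 * ps β t ≤ w := Nat.le_ceil _
    have hw2 : (w : ℝ) ≤ κ * ps β t := by
      have h1 := (Nat.ceil_lt_add_one (by positivity : 0 ≤ κ / 2 * ps β t)).le
      have h2 : 2 ≤ κ * ps β t := by
        rw [div_le_iff₀ hκ] at hpκ
        linarith
      rw [← hw] at h1
      nlinarith
    have hne : G.Nonempty := ⟨pos 0 ω 0, Finset.mem_image_of_mem _ (Finset.mem_range.mpr (Nat.succ_pos n))⟩
    have e1 : |((b : ℝ) - a) - ps β t| ≤ η * ps β t := by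
      rw [abs_le]
      constructor <;> linarith
    have e2 : |((d : ℝ) - c) - ps β t| ≤ η * ps β t := by
      rw [abs_le]
      constructor <;> linarith
    have e3 : ∀ α γ : ℤ, a ≤ α → α + w ≤ b → c ≤ γ → γ + w ≤ d → ∃ x ∈ G, x ∈ boxc α γ w := by
      intro α γ h1 h2 h3 h4
      by_contra hno
      push Not at hno
      exact hmiss w hw1 ⟨a, b, c, d, α, γ, hU, hV, h1, h2, h3, h4, hno⟩
    have hres := hG (ps β t) G a b c d w hpN hne hU hV e1 e2 hw2 e3
    exact absurd hω (not_lt.mpr hres)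

end

end Pool.Agent.H308R3.DM
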