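import Pool.Agent.H308R3.DM.Stmts

set_option autoImplicit false

/-!
# Project DIAMOND: task Bad2
-/

namespace Pool.Agent.H308R3.DM

open Finset Filter Topology
open scoped Classical BigOperators ENNReal

noncomputable section

namespace B2

/-! ### the swapped isoperimetric inequality -/

theorem mem_swap_iff (G : Finset Pt) (x : Pt) : x ∈ G.image Prod.swap ↔ x.swap ∈ G := by
  rw [mem_image]
  constructor
  · rintro ⟨y, hy, rfl⟩
    simpa using hy
  · intro h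
    exact ⟨x.swap, h, Prod.swap_swap x⟩

theorem swap_add (x : Pt) (s : Stp) : (x + dv s).swap = x.swap + dv s.swap := rfl

theorem inn_swap (G : Finset Pt) : inn (G.image Prod.swap) = (inn G).image Prod.swap := by
  ext x
  rw [mem_swap_iff]
  unfold inn
  rw [mem_filter, mem_filter, mem_swap_iff]
  refine and_congr_right fun _ => ?_
  constructor
  · intro h s
    have := h s.swap
    rw [mem_swap_iff, swap_add] at this
    simpa using this
  · intro h s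
    rw [mem_swap_iff, swap_add]
    exact h s.swap

theorem bd_swap (G : Finset Pt) : bd (G.image Prod.swap) = (bd G).image Prod.swap := by
  ext x
  rw [mem_swap_iff]
  unfold bd
  rw [mem_filter, mem_filter, mem_swap_iff]
  refine and_congr_right fun _ => ?_
  constructor
  · rintro ⟨s, h⟩
    rw [mem_swap_iff, swap_add] at h
    exact ⟨s.swap, h⟩
  · rintro ⟨s, h⟩
    refine ⟨s.swap, ?_⟩
    rw [mem_swap_iff, swap_add]
    simpa using h

theorem pU_swap (G : Finset Pt) : pU (G.image Prod.swap) = pV G := by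
  unfold pU pV
  rw [image_image]
  rfl

theorem pV_swap (G : Finset Pt) : pV (G.image Prod.swap) = pU G := by
  unfold pU pV
  rw [image_image]
  rfl

theorem iso_swap (h : TaskIso) (G : Finset Pt) :
    (pV G).card + (pU (inn G)).card ≤ (bd G).card := by
  have h1 := h (G.image Prod.swap)
  rw [pU_swap, inn_swap, pV_swap, bd_swap, card_image_of_injective _ Prod.swap_injective] at h1
  exact h1

theorem pU_inn_le (G : Finset Pt) : (pU (inn G)).card ≤ (pU G).card :=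
  card_le_card (image_subset_image (filter_subset _ _))

theorem pV_inn_le (G : Finset Pt) : (pV (inn G)).card ≤ (pV G).card :=
  card_le_card (image_subset_image (filter_subset _ _))

/-! ### the Poisson average -/

theorem Es_nonneg {t : ℝ} (ht : 0 ≤ t) (f : Finset Pt → ℝ) (hf : ∀ G, 0 ≤ f G) : 0 ≤ Es t f := by
  unfold Es
  refine tsum_nonneg fun n => ?_
  have : 0 ≤ ∑ ω : Fin n → Stp, f (rng 0 ω) := sum_nonneg fun _ _ => hf _
  positivity

theorem hasSum_poisson (t r D : ℝ) :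
    HasSum (fun n : ℕ => Real.exp (-t) * t ^ n / n.factorial * (D * r ^ n))
      (D * Real.exp (-(t * (1 - r)))) := by
  have h1 := (NormedSpace.expSeries_div_hasSum_exp (t * r)).mul_left (D * Real.exp (-t))
  rw [← Real.exp_eq_exp_ℝ] at h1
  have h2 : D * Real.exp (-t) * Real.exp (t * r) = D * Real.exp (-(t * (1 - r))) := by
    rw [mul_assoc, ← Real.exp_add]
    congr 2
    ring
  rw [h2] at h1
  refine h1.congr_fun ?_
  intro n
  rw [mul_pow]
  ring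

theorem Es_le {t : ℝ} (ht : 0 ≤ t) (f : Finset Pt → ℝ) (hf : ∀ G, 0 ≤ f G) {D r : ℝ}
    (h : ∀ n : ℕ, (∑ ω : Fin n → Stp, f (rng 0 ω)) / 4 ^ n ≤ D * r ^ n) :
    Es t f ≤ D * Real.exp (-(t * (1 - r))) := by
  have h1 := hasSum_poisson t r D
  have h0 : ∀ n : ℕ, 0 ≤ Real.exp (-t) * t ^ n / n.factorial := fun n => by positivity
  have h2 : ∀ n : ℕ, Real.exp (-t) * t ^ n / n.factorial * ((∑ ω : Fin n → Stp, f (rng 0 ω)) / 4 ^ n)
      ≤ Real.exp (-t) * t ^ n / n.factorial * (D * r ^ n) := fun n =>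
    mul_le_mul_of_nonneg_left (h n) (h0 n)
  have h3 : ∀ n : ℕ, 0 ≤ Real.exp (-t) * t ^ n / n.factorial *
      ((∑ ω : Fin n → Stp, f (rng 0 ω)) / 4 ^ n) := fun n =>
    mul_nonneg (h0 n) (div_nonneg (sum_nonneg fun _ _ => hf _) (by positivity))
  have h4 : Summable fun n : ℕ => Real.exp (-t) * t ^ n / n.factorial *
      ((∑ ω : Fin n → Stp, f (rng 0 ω)) / 4 ^ n) := Summable.of_nonneg_of_le h3 h2 h1.summable
  unfold Es
  rw [← h1.tsum_eq]
  exact h4.tsum_le_tsum h2 h1.summable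

/-! ### counting -/

/-- the event for fixed integer parameters -/
def Ev (M w0 : ℕ) (L : ℝ) (G : Finset Pt) : Prop :=
  ∃ a b c d α γ : ℤ, pU G = Icc a b ∧ pV G = Icc c d ∧ (M : ℤ) ≤ b - a + 2 ∧ b - a + 2 ≤ 2 * M ∧
    (M : ℤ) ≤ d - c + 2 ∧ d - c + 2 ≤ 2 * M ∧ ((b - a : ℤ) : ℝ) + 4 ≤ L ∧
    ((d - c : ℤ) : ℝ) + 4 ≤ L ∧ a ≤ α ∧ α + w0 ≤ b ∧ c ≤ γ ∧ γ + w0 ≤ d ∧
    ∀ x ∈ G, x ∉ boxc α γ w0

/-- the sites allowed for a choice of the parameters -/
def HH (w0 : ℕ) (a b c d α γ : ℤ) : Finset Pt :=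
  ((Icc a b) ×ˢ (Icc c d)).filter fun x => (x.1 - x.2) % 2 = 0 ∧ x ∉ boxc α γ w0

theorem cos_sq_le {L : ℝ} {A : ℕ} (h : ((A : ℝ) + 2) ≤ L) :
    Real.cos (Real.pi / (A + 2)) ^ 2 ≤ 1 - Real.sin (Real.pi / L) ^ 2 := by
  have hA : (0 : ℝ) ≤ A := Nat.cast_nonneg A
  have hL : 0 < L := by linarith
  have h1 : Real.pi / L ≤ Real.pi / (A + 2) := by
    apply div_le_div_of_nonneg_left Real.pi_pos.le (by linarith) h
  have h2 : Real.pi / (A + 2) ≤ Real.pi / 2 := by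
    apply div_le_div_of_nonneg_left Real.pi_pos.le (by linarith) (by linarith)
  have h3 : 0 ≤ Real.pi / L := by positivity
  have h4 : Real.cos (Real.pi / (A + 2)) ≤ Real.cos (Real.pi / L) :=
    Real.cos_le_cos_of_nonneg_of_le_pi h3 (by linarith [Real.pi_pos]) h1
  have h5 : 0 ≤ Real.cos (Real.pi / (A + 2)) := by
    apply Real.cos_nonneg_of_mem_Icc
    constructor <;> linarith [Real.pi_pos]
  have h6 := Real.sin_sq_add_cos_sq (Real.pi / L)
  nlinarith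

theorem count_le (hP : TaskPow) (hInt : TaskInt) {κ c' : ℝ} {M0 : ℕ}
    (hform : ∀ (M a b w : ℕ) (u1 v1 α γ : ℤ), M0 ≤ M → M ≤ a → a ≤ 2 * M → M ≤ b → b ≤ 2 * M →
      κ * M ≤ w → u1 < α → α + w < u1 + a → v1 < γ → γ + w < v1 + b →
      0 ≤ (Real.cos (Real.pi / (a + 2)) ^ 2 + Real.cos (Real.pi / (b + 2)) ^ 2) / 2
        - c' / (M : ℝ) ^ 2 ∧
      ∀ (H : Finset Pt), (∀ x ∈ H, x ∈ boxo u1 v1 a b ∧ x ∉ boxc α γ w) →
      ∀ f : Pt → ℝ, (∀ x, x ∉ H → f x = 0) →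
        ∑ x ∈ H, ∑ s : Stp, f x * f (x + dv s) ≤
          4 * ((Real.cos (Real.pi / (a + 2)) ^ 2 + Real.cos (Real.pi / (b + 2)) ^ 2) / 2
            - c' / (M : ℝ) ^ 2) * ∑ x ∈ H, (f x) ^ 2)
    (M w0 : ℕ) (L : ℝ) (hM : M0 ≤ M) (hw : κ * M ≤ w0)
    (hr : 0 ≤ 1 - Real.sin (Real.pi / L) ^ 2 - c' / (M : ℝ) ^ 2) (n : ℕ) :
    (((univ : Finset (Fin n → Stp)).filter (fun ω => Ev M w0 L (rng 0 ω))).card : ℝ) ≤
      4 ^ n * ((4 * M + 1) ^ 7 *
        (1 - Real.sin (Real.pi / L) ^ 2 - c' / (M : ℝ) ^ 2) ^ n) := by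
  set r : ℝ := 1 - Real.sin (Real.pi / L) ^ 2 - c' / (M : ℝ) ^ 2 with hrdef
  set S : Finset ℤ := Icc (-(2 * (M : ℤ))) (2 * M) with hS
  have hScard : (S.card : ℝ) = 4 * M + 1 := by
    rw [hS, Int.card_Icc]
    have : (2 * (M : ℤ) + 1 - -(2 * (M : ℤ))) = ((4 * M + 1 : ℕ) : ℤ) := by push_cast; ring
    rw [this, Int.toNat_natCast]
    push_cast; ring
  let V : Finset (ℤ × ℤ × ℤ × ℤ × ℤ × ℤ) := (S ×ˢ S ×ˢ S ×ˢ S ×ˢ S ×ˢ S).filter fun p =>
    (M : ℤ) ≤ p.2.1 - p.1 + 2 ∧ p.2.1 - p.1 + 2 ≤ 2 * M ∧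
    (M : ℤ) ≤ p.2.2.2.1 - p.2.2.1 + 2 ∧ p.2.2.2.1 - p.2.2.1 + 2 ≤ 2 * M ∧
    ((p.2.1 - p.1 : ℤ) : ℝ) + 4 ≤ L ∧ ((p.2.2.2.1 - p.2.2.1 : ℤ) : ℝ) + 4 ≤ L ∧
    p.1 ≤ p.2.2.2.2.1 ∧ p.2.2.2.2.1 + w0 ≤ p.2.1 ∧
    p.2.2.1 ≤ p.2.2.2.2.2 ∧ p.2.2.2.2.2 + w0 ≤ p.2.2.2.1
  have hsub : ((univ : Finset (Fin n → Stp)).filter (fun ω => Ev M w0 L (rng 0 ω))) ⊆
      V.biUnion fun p => (univ : Finset (Fin n → Stp)).filter
        (fun ω => rng 0 ω ⊆ HH w0 p.1 p.2.1 p.2.2.1 p.2.2.2.1 p.2.2.2.2.1 p.2.2.2.2.2) := by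
    intro ω hω
    rw [mem_filter] at hω
    obtain ⟨a, b, c, d, α, γ, hU, hV, h1, h2, h3, h4, h5, h6, h7, h8, h9, h10, h11⟩ := hω.2
    obtain ⟨⟨a', b', ha', hb', hU'⟩, ⟨c₁, d₁, hc₁, hd₁, hV'⟩, hpar⟩ := hInt n ω
    have h0U : (0 : ℤ) ∈ Icc a b := by
      rw [← hU, hU', mem_Icc]; exact ⟨ha', hb'⟩
    have h0V : (0 : ℤ) ∈ Icc c d := by
      rw [← hV, hV', mem_Icc]; exact ⟨hc₁, hd₁⟩
    rw [mem_Icc] at h0U h0V
    have hw0 : (0 : ℤ) ≤ w0 := Int.natCast_nonneg _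
    rw [mem_biUnion]
    refine ⟨(a, b, c, d, α, γ), ?_, ?_⟩
    · simp only [V, mem_filter, mem_product, hS, mem_Icc]
      refine ⟨⟨⟨?_, ?_⟩, ⟨?_, ?_⟩, ⟨?_, ?_⟩, ⟨?_, ?_⟩, ⟨?_, ?_⟩, ⟨?_, ?_⟩⟩,
        h1, h2, h3, h4, h5, h6, h7, h8, h9, h10⟩ <;> omega
    · rw [mem_filter]
      refine ⟨mem_univ _, ?_⟩
      intro x hx
      unfold HH
      rw [mem_filter, mem_product]
      refine ⟨⟨?_, ?_⟩, hpar x hx, h11 x hx⟩
      · rw [← hU]; exact mem_image_of_mem _ hx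
      · rw [← hV]; exact mem_image_of_mem _ hx
  have heach : ∀ p ∈ V, (((univ : Finset (Fin n → Stp)).filter
        (fun ω => rng 0 ω ⊆ HH w0 p.1 p.2.1 p.2.2.1 p.2.2.2.1 p.2.2.2.2.1 p.2.2.2.2.2)).card : ℝ) ≤
      4 ^ n * (4 * M + 1) * r ^ n := by
    rintro ⟨a, b, c, d, α, γ⟩ hp
    simp only [V, mem_filter, mem_product, hS, mem_Icc] at hp
    obtain ⟨_, h1, h2, h3, h4, h5, h6, h7, h8, h9, h10⟩ := hp
    have hw0 : (0 : ℤ) ≤ w0 := Int.natCast_nonneg _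
    obtain ⟨A, hA⟩ : ∃ A : ℕ, (A : ℤ) = b - a + 2 := ⟨(b - a + 2).toNat, Int.toNat_of_nonneg (by omega)⟩
    obtain ⟨B, hB⟩ : ∃ B : ℕ, (B : ℤ) = d - c + 2 := ⟨(d - c + 2).toNat, Int.toNat_of_nonneg (by omega)⟩
    have hf := hform M A B w0 (a - 1) (c - 1) α γ hM (by omega) (by omega) (by omega) (by omega) hw
      (by omega) (by omega) (by omega) (by omega)
    have hAL : ((A : ℝ) + 2) ≤ L := by
      have : (A : ℝ) = ((b - a : ℤ) : ℝ) + 2 := by exact_mod_cast hA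
      rw [this]; linarith
    have hBL : ((B : ℝ) + 2) ≤ L := by
      have : (B : ℝ) = ((d - c : ℤ) : ℝ) + 2 := by exact_mod_cast hB
      rw [this]; linarith
    have hcA := cos_sq_le hAL
    have hcB := cos_sq_le hBL
    have hHH : ∀ x ∈ HH w0 a b c d α γ, x ∈ boxo (a - 1) (c - 1) A B ∧ x ∉ boxc α γ w0 := by
      intro x hx
      unfold HH at hx
      rw [mem_filter, mem_product, mem_Icc, mem_Icc] at hx
      obtain ⟨⟨hx1, hx2⟩, hx3, hx4⟩ := hx
      refine ⟨?_, hx4⟩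
      unfold boxo
      refine ⟨?_, ?_, ?_, ?_, hx3⟩ <;> omega
    have hpow := hP (HH w0 a b c d α γ) _ hf.1 (hf.2 _ hHH) n 0
    refine hpow.trans ?_
    have hcard : Real.sqrt (HH w0 a b c d α γ).card ≤ 4 * M + 1 := by
      rw [Real.sqrt_le_left (by positivity)]
      have h11 : (HH w0 a b c d α γ).card ≤ (b + 1 - a).toNat * (d + 1 - c).toNat := by
        unfold HH
        refine (card_filter_le _ _).trans ?_
        rw [card_product, Int.card_Icc, Int.card_Icc]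
      have h12 : (b + 1 - a).toNat ≤ 2 * M := by omega
      have h13 : (d + 1 - c).toNat ≤ 2 * M := by omega
      have h14 : (HH w0 a b c d α γ).card ≤ (2 * M) * (2 * M) := h11.trans (Nat.mul_le_mul h12 h13)
      have h15 : ((HH w0 a b c d α γ).card : ℝ) ≤ (2 * M) * (2 * M) := by exact_mod_cast h14
      have hM' : (0 : ℝ) ≤ M := Nat.cast_nonneg M
      nlinarith
    have hrr : (Real.cos (Real.pi / (A + 2)) ^ 2 + Real.cos (Real.pi / (B + 2)) ^ 2) / 2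
        - c' / (M : ℝ) ^ 2 ≤ r := by
      rw [hrdef]; linarith
    have h16 := pow_le_pow_left₀ hf.1 hrr n
    gcongr
    exact pow_nonneg hf.1 n
  have hVcard : (V.card : ℝ) ≤ (4 * M + 1) ^ 6 := by
    have h1 : V.card ≤ (S ×ˢ S ×ˢ S ×ˢ S ×ˢ S ×ˢ S).card := card_filter_le _ _
    have h2 : ((S ×ˢ S ×ˢ S ×ˢ S ×ˢ S ×ˢ S).card : ℝ) = (4 * M + 1) ^ 6 := by
      simp only [card_product]
      push_cast
      rw [hScard]
      ring
    rw [← h2]
    exact_mod_cast h1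
  calc (((univ : Finset (Fin n → Stp)).filter (fun ω => Ev M w0 L (rng 0 ω))).card : ℝ)
      ≤ ((V.biUnion fun p => (univ : Finset (Fin n → Stp)).filter
        (fun ω => rng 0 ω ⊆ HH w0 p.1 p.2.1 p.2.2.1 p.2.2.2.1 p.2.2.2.2.1 p.2.2.2.2.2)).card : ℝ) := by
        exact_mod_cast card_le_card hsub
    _ ≤ ∑ p ∈ V, (((univ : Finset (Fin n → Stp)).filter
        (fun ω => rng 0 ω ⊆ HH w0 p.1 p.2.1 p.2.2.1 p.2.2.2.1 p.2.2.2.2.1 p.2.2.2.2.2)).card : ℝ) := by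
        exact_mod_cast card_biUnion_le
    _ ≤ ∑ _p ∈ V, 4 ^ n * (4 * M + 1) * r ^ n := sum_le_sum heach
    _ = V.card * (4 ^ n * (4 * M + 1) * r ^ n) := by rw [sum_const, nsmul_eq_mul]
    _ ≤ (4 * M + 1) ^ 6 * (4 ^ n * (4 * M + 1) * r ^ n) := by
        have : 0 ≤ r ^ n := pow_nonneg hr n
        gcongr
    _ = _ := by ring

/-! ### the event -/

theorem toNat_card {a b : ℤ} (h : a ≤ b) : ((Icc a b).card : ℝ) = ((b - a : ℤ) : ℝ) + 1 := by
  rw [Int.card_Icc]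
  have h1 : (((b + 1 - a).toNat : ℤ)) = b - a + 1 := by rw [Int.toNat_of_nonneg (by omega)]; ring
  have h2 : (((b + 1 - a).toNat : ℤ) : ℝ) = ((b - a + 1 : ℤ) : ℝ) := by rw [h1]
  rw [Int.cast_natCast] at h2
  rw [h2]; push_cast; ring

theorem side {P η x : ℝ} (hη : 0 < η) (hη8 : η ≤ 1 / 8) (hP6 : 6 ≤ P) (hηP : 3 ≤ η * P) {a b : ℤ}
    (hx : x = ((b - a : ℤ) : ℝ) + 1) (h1 : (1 - η) * P ≤ x) (h2 : x ≤ (1 + 2 * η) * P) :
    ((⌊(1 - η) * P⌋₊ : ℕ) : ℤ) ≤ b - a + 2 ∧ b - a + 2 ≤ 2 * ((⌊(1 - η) * P⌋₊ : ℕ) : ℤ) ∧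
    ((b - a : ℤ) : ℝ) + 4 ≤ (1 + 3 * η) * P := by
  have hnn : 0 ≤ (1 - η) * P := by nlinarith
  have hf1 := Nat.floor_le hnn
  have hf2 := Nat.lt_floor_add_one ((1 - η) * P)
  set M := ⌊(1 - η) * P⌋₊ with hM
  refine ⟨?_, ?_, ?_⟩
  · have : ((M : ℤ) : ℝ) ≤ ((b - a + 2 : ℤ) : ℝ) := by
      rw [Int.cast_natCast]; push_cast; push_cast at hx; linarith
    exact_mod_cast this
  · have : ((b - a + 2 : ℤ) : ℝ) ≤ ((2 * (M : ℤ) : ℤ) : ℝ) := by
      push_cast; push_cast at hx; nlinarith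
    exact_mod_cast this
  · linarith

theorem ev_of (hIso : TaskIso) {P η κ : ℝ} (hη : 0 < η) (hη8 : η ≤ 1 / 8) (hP6 : 6 ≤ P)
    (hηP : 3 ≤ η * P) (G : Finset Pt)
    (g1 : |((pU (inn G)).card : ℝ) - P| ≤ η * P) (g2 : |((pV (inn G)).card : ℝ) - P| ≤ η * P)
    (g3 : ((bd G).card : ℝ) ≤ (pU (inn G)).card + (pV (inn G)).card + η * P)
    {w : ℕ} (hw : κ * P ≤ w) (hG : G ∈ missing w) :
    Ev ⌊(1 - η) * P⌋₊ ⌈κ * P⌉₊ ((1 + 3 * η) * P) G ∧ 2 * (1 - η) * P ≤ (bd G).card := by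
  obtain ⟨a, b, c, d, α, γ, hU, hV, h1, h2, h3, h4, h5⟩ := hG
  have hw0 : (0 : ℤ) ≤ w := Int.natCast_nonneg _
  have i1 : ((pU G).card : ℝ) + (pV (inn G)).card ≤ (bd G).card := by exact_mod_cast hIso G
  have i2 : ((pV G).card : ℝ) + (pU (inn G)).card ≤ (bd G).card := by
    exact_mod_cast iso_swap hIso G
  have i3 : ((pU (inn G)).card : ℝ) ≤ (pU G).card := by exact_mod_cast pU_inn_le G
  have i4 : ((pV (inn G)).card : ℝ) ≤ (pV G).card := by exact_mod_cast pV_inn_le G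
  rw [abs_le] at g1 g2
  have cU : ((pU G).card : ℝ) = ((b - a : ℤ) : ℝ) + 1 := by rw [hU]; exact toNat_card (by omega)
  have cV : ((pV G).card : ℝ) = ((d - c : ℤ) : ℝ) + 1 := by rw [hV]; exact toNat_card (by omega)
  obtain ⟨u1, u2, u3⟩ := side hη hη8 hP6 hηP cU (by linarith [g1.1]) (by linarith [g1.2])
  obtain ⟨v1, v2, v3⟩ := side hη hη8 hP6 hηP cV (by linarith [g2.1]) (by linarith [g2.2])
  have hww : ⌈κ * P⌉₊ ≤ w := Nat.ceil_le.2 hw
  have hww' : ((⌈κ * P⌉₊ : ℕ) : ℤ) ≤ w := by exact_mod_cast hww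
  refine ⟨⟨a, b, c, d, α, γ, hU, hV, u1, u2, v1, v2, u3, v3, h1, by omega, h3, by omega, ?_⟩, ?_⟩
  · intro x hx hxb
    refine h5 x hx ?_
    unfold boxc at hxb ⊢
    obtain ⟨e1, e2, e3, e4⟩ := hxb
    exact ⟨e1, by omega, e3, by omega⟩
  · linarith [g1.1, g2.1]

/-! ### the scale -/

theorem ps_pos {β t : ℝ} (hβ : 0 < β) (ht : 0 < t) : 0 < ps β t := by
  unfold ps; positivity

theorem ps_cube {β t : ℝ} (hβ : 0 < β) (ht : 0 < t) : t = β * ps β t ^ 3 / Real.pi ^ 2 := by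
  have h1 : ps β t ^ 3 = Real.pi ^ 2 * t / β := by
    unfold ps
    rw [← Real.rpow_natCast, ← Real.rpow_mul (by positivity)]
    norm_num
  rw [h1]
  have := Real.pi_pos
  field_simp

theorem ps_tendsto {β : ℝ} (hβ : 0 < β) : Tendsto (ps β) atTop atTop := by
  unfold ps
  refine (tendsto_rpow_atTop (by norm_num : (0 : ℝ) < 1 / 3)).comp ?_
  have h1 : Tendsto (fun t : ℝ => (Real.pi ^ 2 / β) * t) atTop atTop :=
    tendsto_id.const_mul_atTop (by have := Real.pi_pos; positivity)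
  refine h1.congr fun t => ?_
  ring

theorem t_sin {P β η t : ℝ} (hβ : 0 < β) (hη : 0 < η) (hη8 : η ≤ 1 / 8) (hP6 : 6 ≤ P)
    (hηP : 3 ≤ η * P) (ht : t = β * P ^ 3 / Real.pi ^ 2) :
    β * P * (1 - 7 * η) ≤ t * Real.sin (Real.pi / ((1 + 3 * η) * P)) ^ 2 := by
  have hpi := Real.pi_pos
  have hpi4 := Real.pi_le_four
  have hP0 : 0 < P := by linarith
  set x : ℝ := Real.pi / ((1 + 3 * η) * P) with hx
  have hx0 : 0 < x := by rw [hx]; positivity
  have hxP : x * P ≤ 4 := by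
    have : x * P = Real.pi / (1 + 3 * η) := by rw [hx]; field_simp
    rw [this, div_le_iff₀ (by positivity)]
    nlinarith
  have hx2 : x ^ 2 ≤ 3 * η := by
    have h1 : (x * P) ^ 2 ≤ 16 := by nlinarith [mul_pos hx0 hP0]
    have h2 : 18 ≤ η * P * P := by nlinarith
    have h3 : x ^ 2 * P ^ 2 ≤ 3 * η * P ^ 2 := by nlinarith
    exact le_of_mul_le_mul_right h3 (by positivity)
  have hs := Real.sin_gt_sub_cube hx0
  have h6 : 0 ≤ 1 - x ^ 2 / 6 := by linarith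
  have hs1 : x * (1 - x ^ 2 / 6) ≤ Real.sin x := by nlinarith
  have hs0 : 0 ≤ x * (1 - x ^ 2 / 6) := mul_nonneg hx0.le h6
  have hs2 : x ^ 2 * (1 - η) ≤ Real.sin x ^ 2 := by
    have h7 : (x * (1 - x ^ 2 / 6)) ^ 2 ≤ Real.sin x ^ 2 := pow_le_pow_left₀ hs0 hs1 2
    have h8 : 1 - η ≤ (1 - x ^ 2 / 6) ^ 2 := by nlinarith [sq_nonneg (x ^ 2 / 6)]
    have h9 : x ^ 2 * (1 - η) ≤ x ^ 2 * (1 - x ^ 2 / 6) ^ 2 :=
      mul_le_mul_of_nonneg_left h8 (by positivity)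
    nlinarith
  have ht0 : 0 < t := by rw [ht]; positivity
  have htx : t * x ^ 2 = β * P / (1 + 3 * η) ^ 2 := by
    rw [ht, hx]; field_simp
  have h10 : (1 - 6 * η) ≤ 1 / (1 + 3 * η) ^ 2 := by
    rw [le_div_iff₀ (by positivity)]
    nlinarith [mul_pos hη hη, mul_pos hη (mul_pos hη hη)]
  have h11 : β * P * (1 - 6 * η) ≤ t * x ^ 2 := by
    rw [htx, div_eq_mul_one_div]
    exact mul_le_mul_of_nonneg_left h10 (by positivity)
  have h12 : t * x ^ 2 * (1 - η) ≤ t * Real.sin x ^ 2 := by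
    rw [mul_assoc]; exact mul_le_mul_of_nonneg_left hs2 ht0.le
  have h13 : β * P * (1 - 6 * η) * (1 - η) ≤ t * x ^ 2 * (1 - η) :=
    mul_le_mul_of_nonneg_right h11 (by linarith)
  have h14 : β * P * (1 - 7 * η) ≤ β * P * (1 - 6 * η) * (1 - η) := by
    have : β * P * (1 - 6 * η) * (1 - η) = β * P * (1 - 7 * η) + β * P * (6 * η ^ 2) := by ring
    rw [this]
    have : 0 ≤ β * P * (6 * η ^ 2) := by positivity
    linarith
  linarith

end B2

open B2 in
theorem taskBad2 : TaskForm → TaskPow → TaskZ → TaskIso → TaskInt → TaskBad2 := by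
  intro hF hPow hZ hIso hInt κ hκ
  obtain ⟨c, hc, M0, hM0, hform⟩ := hF κ hκ
  obtain ⟨C, β1, hC, hβ1, hZ⟩ := hZ
  have hpi := Real.pi_pos
  have hpi4 := Real.pi_le_four
  refine ⟨min (1 / 8) (c / (18 * Real.pi ^ 2)), by positivity, ?_⟩
  intro η hη hηle
  have hη8 : η ≤ 1 / 8 := hηle.trans (min_le_left _ _)
  have hηc : η ≤ c / (18 * Real.pi ^ 2) := hηle.trans (min_le_right _ _)
  refine ⟨max β1 ((C + 1) * (2 * Real.pi ^ 2) / c), by positivity, ?_⟩
  intro β hβ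
  have hββ1 : β1 ≤ β := (le_max_left _ _).trans hβ
  have hβc : (C + 1) * (2 * Real.pi ^ 2) / c ≤ β := (le_max_right _ _).trans hβ
  have hβ0 : 0 < β := lt_of_lt_of_le hβ1 hββ1
  have hpsT := ps_tendsto hβ0
  have hlim : Tendsto (fun t => (4 * ps β t + 1) ^ 7 * Real.exp (-(ps β t))) atTop (𝓝 0) := by
    have h1 : Tendsto (fun x : ℝ => (5 : ℝ) ^ 7 * (x ^ 7 * Real.exp (-x))) atTop (𝓝 0) := by
      have := (Real.tendsto_pow_mul_exp_neg_atTop_nhds_zero 7).const_mul ((5 : ℝ) ^ 7)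
      simpa using this
    have h2 : Tendsto (fun x : ℝ => (4 * x + 1) ^ 7 * Real.exp (-x)) atTop (𝓝 0) := by
      refine squeeze_zero' ?_ ?_ h1
      · filter_upwards [eventually_ge_atTop 1] with x hx
        positivity
      · filter_upwards [eventually_ge_atTop 1] with x hx
        rw [← mul_assoc, ← mul_pow]
        have : (4 * x + 1) ^ 7 ≤ (5 * x) ^ 7 := pow_le_pow_left₀ (by positivity) (by linarith) 7
        exact mul_le_mul_of_nonneg_right this (Real.exp_pos _).le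
    exact h2.comp hpsT
  refine squeeze_zero' ?_ ?_ hlim
  · filter_upwards [eventually_gt_atTop 0] with t ht
    unfold mu
    refine div_nonneg (Es_nonneg ht.le _ fun G => ?_) (Es_nonneg ht.le _ fun G => ?_)
    · split_ifs
      · exact (Real.exp_pos _).le
      · exact le_rfl
    · exact (Real.exp_pos _).le
  · filter_upwards [eventually_gt_atTop 0, hZ β hββ1, hpsT.eventually_ge_atTop 6,
      hpsT.eventually_ge_atTop (3 / η), hpsT.eventually_ge_atTop (2 * M0),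
      hpsT.eventually_ge_atTop (8 * c + 1)] with t ht hZt hP6 hP3 hPM hPc
    set P := ps β t with hPdef
    have hP0 : 0 < P := by linarith
    have htP : t = β * P ^ 3 / Real.pi ^ 2 := ps_cube hβ0 ht
    have hηP : 3 ≤ η * P := by
      rw [div_le_iff₀ hη] at hP3; linarith
    have hnn : 0 ≤ (1 - η) * P := by nlinarith
    have hf1 := Nat.floor_le hnn
    have hf2 := Nat.lt_floor_add_one ((1 - η) * P)
    set M := ⌊(1 - η) * P⌋₊ with hM
    have hMP : (M : ℝ) ≤ P := by nlinarith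
    have hM2 : P / 2 ≤ M := by nlinarith
    have hM0' : (0 : ℝ) < M := by linarith
    have hMM0 : M0 ≤ M := by
      rw [hM]
      apply Nat.le_floor
      nlinarith
    have hκM : κ * M ≤ (⌈κ * P⌉₊ : ℕ) :=
      (mul_le_mul_of_nonneg_left hMP hκ.le).trans (Nat.le_ceil _)
    set L := (1 + 3 * η) * P with hL
    have hLP : P ≤ L := by rw [hL]; nlinarith
    have hL0 : 0 < L := by linarith
    have hsin : Real.sin (Real.pi / L) ^ 2 ≤ 1 / 2 := by
      have h1 : Real.sin (Real.pi / L) ≤ Real.pi / L := Real.sin_le (by positivity)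
      have h2 : Real.pi / L ≤ 4 / 6 := by
        rw [div_le_div_iff₀ hL0 (by norm_num)]; nlinarith
      have h3 : 0 ≤ Real.sin (Real.pi / L) := by
        apply Real.sin_nonneg_of_nonneg_of_le_pi (by positivity)
        linarith [Real.pi_gt_three]
      nlinarith
    have hcM : c / (M : ℝ) ^ 2 ≤ 1 / 2 := by
      rw [div_le_div_iff₀ (by positivity) (by norm_num)]
      nlinarith
    have hr : 0 ≤ 1 - Real.sin (Real.pi / L) ^ 2 - c / (M : ℝ) ^ 2 := by linarith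
    set r : ℝ := 1 - Real.sin (Real.pi / L) ^ 2 - c / (M : ℝ) ^ 2 with hrdef
    set E1 : ℝ := Real.exp (-β * (2 * (1 - η) * P)) with hE1
    have hE1p : 0 < E1 := Real.exp_pos _
    have hcount := count_le hPow hInt hform M ⌈κ * P⌉₊ L hMM0 hκM hr
    obtain ⟨A, hAdef⟩ : ∃ A : Set (Finset Pt),
        A = {G | G ∈ good1 η β t ∧ ∃ w : ℕ, κ * P ≤ w ∧ G ∈ missing w} := ⟨_, rfl⟩
    have hnum : Es t (fun G => if G ∈ A then wt β G else 0) ≤
        (E1 * (4 * M + 1) ^ 7) * Real.exp (-(t * (1 - r))) := by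
      refine Es_le ht.le _ (fun G => ?_) (fun n => ?_)
      · split_ifs
        · exact (Real.exp_pos _).le
        · exact le_rfl
      · rw [div_le_iff₀ (by positivity)]
        have h1 : ∑ ω : Fin n → Stp, (if rng 0 ω ∈ A then wt β (rng 0 ω) else 0) ≤
            ∑ ω : Fin n → Stp, if Ev M ⌈κ * P⌉₊ L (rng 0 ω) then E1 else 0 := by
          refine sum_le_sum fun ω _ => ?_
          by_cases hA : rng 0 ω ∈ A
          · rw [if_pos hA]
            rw [hAdef] at hA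
            obtain ⟨⟨g1, g2, g3⟩, w, hw, hG⟩ := hA
            obtain ⟨e1, e2⟩ := ev_of hIso hη hη8 hP6 hηP (rng 0 ω) g1 g2 g3 hw hG
            rw [if_pos e1]
            unfold wt
            rw [hE1]
            refine Real.exp_le_exp.2 ?_
            exact mul_le_mul_of_nonpos_left e2 (by linarith)
          · rw [if_neg hA]
            split_ifs
            · exact hE1p.le
            · exact le_rfl
        have h2 : ∑ ω : Fin n → Stp, (if Ev M ⌈κ * P⌉₊ L (rng 0 ω) then E1 else 0) =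
            (((univ : Finset (Fin n → Stp)).filter
              (fun ω => Ev M ⌈κ * P⌉₊ L (rng 0 ω))).card : ℝ) * E1 := by
          rw [← sum_filter, sum_const, nsmul_eq_mul]
        refine h1.trans ?_
        rw [h2]
        have h3 := mul_le_mul_of_nonneg_right (hcount n) hE1p.le
        refine h3.trans (le_of_eq ?_)
        ring
    have hE : E1 * Real.exp (-(t * (1 - r))) * Real.exp ((3 * β + C) * P) ≤ Real.exp (-P) := by
      rw [hE1, ← Real.exp_add, ← Real.exp_add]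
      refine Real.exp_le_exp.2 ?_
      have h1 := t_sin hβ0 hη hη8 hP6 hηP htP
      have h2 : c * β * P / Real.pi ^ 2 ≤ t * (c / (M : ℝ) ^ 2) := by
        have h3 : (M : ℝ) ^ 2 ≤ P ^ 2 := pow_le_pow_left₀ hM0'.le hMP 2
        have h4 : c / P ^ 2 ≤ c / (M : ℝ) ^ 2 := div_le_div_of_nonneg_left hc.le (by positivity) h3
        have h5 : t * (c / P ^ 2) = c * β * P / Real.pi ^ 2 := by
          rw [htP]; field_simp
        rw [← h5]
        exact mul_le_mul_of_nonneg_left h4 ht.le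
      have h6 : t * (1 - r) = t * Real.sin (Real.pi / L) ^ 2 + t * (c / (M : ℝ) ^ 2) := by
        rw [hrdef]; ring
      rw [h6]
      have h7 : 9 * η * (β * P) ≤ c * β * P / (2 * Real.pi ^ 2) := by
        rw [le_div_iff₀ (by positivity)] at hηc ⊢
        nlinarith [mul_pos hβ0 hP0]
      have h8 : (C + 1) * P ≤ c * β * P / (2 * Real.pi ^ 2) := by
        rw [div_le_iff₀ hc] at hβc
        rw [le_div_iff₀ (by positivity)]
        nlinarith
      have h9 : c * β * P / Real.pi ^ 2 = 2 * (c * β * P / (2 * Real.pi ^ 2)) := by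
        field_simp
      linarith
    have hden : 0 < Real.exp (-(3 * β + C) * P) := Real.exp_pos _
    have hZpos : 0 < Es t (wt β) := lt_of_lt_of_le hden hZt
    rw [← hAdef]
    unfold mu
    rw [div_le_iff₀ hZpos]
    have h1 : (E1 * (4 * M + 1) ^ 7) * Real.exp (-(t * (1 - r))) ≤
        (4 * P + 1) ^ 7 * Real.exp (-P) * Real.exp (-(3 * β + C) * P) := by
      have h2 : ((4 : ℝ) * M + 1) ^ 7 ≤ (4 * P + 1) ^ 7 :=
        pow_le_pow_left₀ (by positivity) (by linarith) 7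
      have h3 : E1 * Real.exp (-(t * (1 - r))) ≤ Real.exp (-P) * Real.exp (-(3 * β + C) * P) := by
        have h4 := mul_le_mul_of_nonneg_right hE hden.le
        rw [mul_assoc, ← Real.exp_add ((3 * β + C) * P)] at h4
        have h5 : (3 * β + C) * P + -(3 * β + C) * P = 0 := by ring
        rw [h5, Real.exp_zero, mul_one] at h4
        exact h4
      calc (E1 * (4 * M + 1) ^ 7) * Real.exp (-(t * (1 - r)))
          = (4 * M + 1) ^ 7 * (E1 * Real.exp (-(t * (1 - r)))) := by ring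
        _ ≤ (4 * P + 1) ^ 7 * (Real.exp (-P) * Real.exp (-(3 * β + C) * P)) :=
            mul_le_mul h2 h3 (by positivity) (by positivity)
        _ = _ := by ring
    refine hnum.trans (h1.trans ?_)
    exact mul_le_mul_of_nonneg_left hZt (by positivity)

end

end Pool.Agent.H308R3.DM
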