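import Pool.Agent.H308R3.DM.Stmts

set_option autoImplicit false

/-! # Project DIAMOND, task BdCard -/

namespace Pool.Agent.H308R3.DM

open Finset

namespace BdCard

theorem mem_sq (r : ℕ) (x : Pt) : x ∈ sq 0 r ↔
    (-(r : ℤ) ≤ x.1 ∧ x.1 ≤ r) ∧ (-(r : ℤ) ≤ x.2 ∧ x.2 ≤ r) ∧ (x.1 - x.2) % 2 = 0 := by
  unfold sq
  rw [mem_filter, mem_product, mem_Icc, mem_Icc]
  simp only [Prod.fst_zero, Prod.snd_zero, zero_sub, zero_add]
  tauto

def sA (r : ℕ) : Finset Pt := (range r).image fun i : ℕ => ((r : ℤ), -(r : ℤ) + 2 * (i : ℤ))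
def sB (r : ℕ) : Finset Pt := (range r).image fun i : ℕ => ((r : ℤ) - 2 * (i : ℤ), (r : ℤ))
def sC (r : ℕ) : Finset Pt := (range r).image fun i : ℕ => (-(r : ℤ), (r : ℤ) - 2 * (i : ℤ))
def sD (r : ℕ) : Finset Pt := (range r).image fun i : ℕ => (-(r : ℤ) + 2 * (i : ℤ), -(r : ℤ))

theorem mem_sA (r : ℕ) (x : Pt) : x ∈ sA r ↔
    x.1 = r ∧ -(r : ℤ) ≤ x.2 ∧ x.2 < r ∧ (x.1 - x.2) % 2 = 0 := by
  unfold sA
  rw [mem_image]
  constructor
  · rintro ⟨i, hi, rfl⟩
    rw [mem_range] at hi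
    dsimp only
    omega
  · rintro ⟨h1, h2, h3, h4⟩
    refine ⟨((x.2 + r) / 2).toNat, ?_, ?_⟩
    · rw [mem_range]; omega
    · ext <;> dsimp only <;> omega

theorem mem_sB (r : ℕ) (x : Pt) : x ∈ sB r ↔
    x.2 = r ∧ -(r : ℤ) < x.1 ∧ x.1 ≤ r ∧ (x.1 - x.2) % 2 = 0 := by
  unfold sB
  rw [mem_image]
  constructor
  · rintro ⟨i, hi, rfl⟩
    rw [mem_range] at hi
    dsimp only
    omega
  · rintro ⟨h1, h2, h3, h4⟩
    refine ⟨((r - x.1) / 2).toNat, ?_, ?_⟩
    · rw [mem_range]; omega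
    · ext <;> dsimp only <;> omega

theorem mem_sC (r : ℕ) (x : Pt) : x ∈ sC r ↔
    x.1 = -(r : ℤ) ∧ -(r : ℤ) < x.2 ∧ x.2 ≤ r ∧ (x.1 - x.2) % 2 = 0 := by
  unfold sC
  rw [mem_image]
  constructor
  · rintro ⟨i, hi, rfl⟩
    rw [mem_range] at hi
    dsimp only
    omega
  · rintro ⟨h1, h2, h3, h4⟩
    refine ⟨((r - x.2) / 2).toNat, ?_, ?_⟩
    · rw [mem_range]; omega
    · ext <;> dsimp only <;> omega

theorem mem_sD (r : ℕ) (x : Pt) : x ∈ sD r ↔
    x.2 = -(r : ℤ) ∧ -(r : ℤ) ≤ x.1 ∧ x.1 < r ∧ (x.1 - x.2) % 2 = 0 := by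
  unfold sD
  rw [mem_image]
  constructor
  · rintro ⟨i, hi, rfl⟩
    rw [mem_range] at hi
    dsimp only
    omega
  · rintro ⟨h1, h2, h3, h4⟩
    refine ⟨((x.1 + r) / 2).toNat, ?_, ?_⟩
    · rw [mem_range]; omega
    · ext <;> dsimp only <;> omega

theorem card_sA (r : ℕ) : (sA r).card = r := by
  unfold sA
  rw [card_image_of_injective, card_range]
  intro i j h
  simp only [Prod.mk.injEq] at h
  omega

theorem card_sB (r : ℕ) : (sB r).card = r := by
  unfold sB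
  rw [card_image_of_injective, card_range]
  intro i j h
  simp only [Prod.mk.injEq] at h
  omega

theorem card_sC (r : ℕ) : (sC r).card = r := by
  unfold sC
  rw [card_image_of_injective, card_range]
  intro i j h
  simp only [Prod.mk.injEq] at h
  omega

theorem card_sD (r : ℕ) : (sD r).card = r := by
  unfold sD
  rw [card_image_of_injective, card_range]
  intro i j h
  simp only [Prod.mk.injEq] at h
  omega

/-- the boundary of the diamond: the points of the lattice square with a coordinate `± r` -/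
theorem mem_bd_sq (r : ℕ) (x : Pt) : x ∈ bd (sq 0 r) ↔
    x ∈ sq 0 r ∧ (x.1 = r ∨ x.1 = -(r : ℤ) ∨ x.2 = r ∨ x.2 = -(r : ℤ)) := by
  unfold bd
  rw [mem_filter]
  constructor
  · rintro ⟨hx, ⟨s1, s2⟩, hs⟩
    refine ⟨hx, ?_⟩
    rw [mem_sq] at hx hs
    by_contra hcon
    apply hs
    cases s1 <;> cases s2 <;>
      simp only [dv, sg, Prod.fst_add, Prod.snd_add, if_true, Bool.false_eq_true, if_false] <;>
      omega
  · rintro ⟨hx, h⟩
    refine ⟨hx, ?_⟩
    rcases h with h | h | h | h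
    · refine ⟨(true, true), ?_⟩
      rw [mem_sq]
      simp only [dv, sg, Prod.fst_add, Prod.snd_add, if_true]
      omega
    · refine ⟨(false, false), ?_⟩
      rw [mem_sq]
      simp only [dv, sg, Prod.fst_add, Prod.snd_add, Bool.false_eq_true, if_false]
      omega
    · refine ⟨(true, true), ?_⟩
      rw [mem_sq]
      simp only [dv, sg, Prod.fst_add, Prod.snd_add, if_true]
      omega
    · refine ⟨(false, false), ?_⟩
      rw [mem_sq]
      simp only [dv, sg, Prod.fst_add, Prod.snd_add, Bool.false_eq_true, if_false]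
      omega

theorem bd_eq (r : ℕ) (hr : 1 ≤ r) : bd (sq 0 r) = (sA r ∪ sB r) ∪ (sC r ∪ sD r) := by
  ext x
  rw [mem_bd_sq, mem_sq, mem_union, mem_union, mem_union, mem_sA, mem_sB, mem_sC, mem_sD]
  omega

end BdCard

theorem bdCard : TaskBdCard := by
  intro r hr
  have dAB : Disjoint (BdCard.sA r) (BdCard.sB r) := by
    rw [disjoint_left]
    intro x h1 h2
    rw [BdCard.mem_sA] at h1
    rw [BdCard.mem_sB] at h2
    omega
  have dCD : Disjoint (BdCard.sC r) (BdCard.sD r) := by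
    rw [disjoint_left]
    intro x h1 h2
    rw [BdCard.mem_sC] at h1
    rw [BdCard.mem_sD] at h2
    omega
  have d : Disjoint (BdCard.sA r ∪ BdCard.sB r) (BdCard.sC r ∪ BdCard.sD r) := by
    rw [disjoint_left]
    intro x h1 h2
    rw [mem_union, BdCard.mem_sA, BdCard.mem_sB] at h1
    rw [mem_union, BdCard.mem_sC, BdCard.mem_sD] at h2
    omega
  rw [BdCard.bd_eq r hr, card_union_of_disjoint d, card_union_of_disjoint dAB,
    card_union_of_disjoint dCD, BdCard.card_sA, BdCard.card_sB, BdCard.card_sC, BdCard.card_sD]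
  omega

end Pool.Agent.H308R3.DM
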