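import Pool.Agent.H308R3.DM.Stmts

set_option autoImplicit false

namespace Pool.Agent.H308R3.DM

open Finset Filter Topology
open scoped Classical BigOperators ENNReal

noncomputable section

namespace BoxAux

theorem ex_mono {F G : Pt → Finset Pt → ℝ} (h : ∀ y S, F y S ≤ G y S) (n : ℕ) (x : Pt)
    (S : Finset Pt) : ex n x S F ≤ ex n x S G := by
  induction n generalizing x S with
  | zero => exact h x S
  | succ n ih =>
    simp only [ex]
    have : ∑ s : Stp, ex n (x + dv s) (insert (x + dv s) S) F ≤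
        ∑ s : Stp, ex n (x + dv s) (insert (x + dv s) S) G :=
      Finset.sum_le_sum fun s _ => ih _ _
    linarith

theorem ex_congr {F G : Pt → Finset Pt → ℝ} (h : ∀ y S, F y S = G y S) (n : ℕ) (x : Pt)
    (S : Finset Pt) : ex n x S F = ex n x S G := by
  have : F = G := by
    funext y S
    exact h y S
  rw [this]

theorem ex_zero_fun (n : ℕ) (x : Pt) (S : Finset Pt) : ex n x S (fun _ _ => 0) = 0 := by
  induction n generalizing x S with
  | zero => rfl
  | succ n ih =>
    simp only [ex, ih]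
    simp

theorem ex_nonneg {F : Pt → Finset Pt → ℝ} (h : ∀ y S, 0 ≤ F y S) (n : ℕ) (x : Pt)
    (S : Finset Pt) : 0 ≤ ex n x S F := by
  rw [← ex_zero_fun n x S]
  exact ex_mono h n x S

theorem ex_add (F G : Pt → Finset Pt → ℝ) (n : ℕ) (x : Pt) (S : Finset Pt) :
    ex n x S (fun y S' => F y S' + G y S') = ex n x S F + ex n x S G := by
  induction n generalizing x S with
  | zero => rfl
  | succ n ih =>
    simp only [ex, ih]
    rw [Finset.sum_add_distrib]
    ring

theorem ex_mul_const (F : Pt → Finset Pt → ℝ) (c : ℝ) (n : ℕ) (x : Pt) (S : Finset Pt) :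
    ex n x S (fun y S' => F y S' * c) = ex n x S F * c := by
  induction n generalizing x S with
  | zero => rfl
  | succ n ih =>
    simp only [ex, ih]
    rw [← Finset.sum_mul]
    ring

theorem ex_sum {ι : Type} (s : Finset ι) (F : ι → Pt → Finset Pt → ℝ) (n : ℕ) (x : Pt)
    (S : Finset Pt) :
    ex n x S (fun y S' => ∑ i ∈ s, F i y S') = ∑ i ∈ s, ex n x S (F i) := by
  induction s using Finset.induction_on with
  | empty =>
    simp only [Finset.sum_empty]
    exact ex_zero_fun n x S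
  | insert a s ha ih =>
    rw [Finset.sum_insert ha, ← ih, ← ex_add]
    apply ex_congr
    intro y S'
    rw [Finset.sum_insert ha]

theorem ex_markov (F : Pt → Finset Pt → ℝ) (n k : ℕ) (x : Pt) (S : Finset Pt) :
    ex (n + k) x S F = ex n x S (fun y S' => ex k y S' F) := by
  induction n generalizing x S with
  | zero => simp only [Nat.zero_add, ex]
  | succ n ih =>
    have e : n + 1 + k = (n + k) + 1 := by ring
    rw [e]
    simp only [ex, ih]

theorem ex_union (F : Pt → Finset Pt → ℝ) (A : Finset Pt) (n : ℕ) (x : Pt) (S : Finset Pt) :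
    ex n x (A ∪ S) F = ex n x S (fun y S' => F y (A ∪ S')) := by
  induction n generalizing x S with
  | zero => rfl
  | succ n ih =>
    simp only [ex]
    congr 1
    refine Finset.sum_congr rfl fun s _ => ?_
    rw [← ih, Finset.union_insert]

theorem ex_translate (F : Pt → Finset Pt → ℝ) (a : Pt) (n : ℕ) (x : Pt) (S : Finset Pt) :
    ex n (x + a) (S.image (fun z => z + a)) F =
      ex n x S (fun y S' => F (y + a) (S'.image (fun z => z + a))) := by
  induction n generalizing x S with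
  | zero => rfl
  | succ n ih =>
    simp only [ex]
    congr 1
    refine Finset.sum_congr rfl fun s _ => ?_
    rw [← ih, Finset.image_insert]
    have e : x + a + dv s = x + dv s + a := by
      rw [add_right_comm]
    rw [e]

/-- indicator of `S ⊆ A` -/
def ind (A S : Finset Pt) : ℝ := if S ⊆ A then 1 else 0

theorem ind_nonneg (A S : Finset Pt) : 0 ≤ ind A S := by
  unfold ind
  split_ifs <;> norm_num

theorem ind_union (A S S' : Finset Pt) : ind A (S ∪ S') = ind A S * ind A S' := by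
  unfold ind
  by_cases h1 : S ⊆ A <;> by_cases h2 : S' ⊆ A <;> simp [Finset.union_subset_iff, h1, h2]

/-- block kernel -/
def Q (A : Finset Pt) (T : ℕ) (x w : Pt) : ℝ :=
  ex T x ∅ (fun y' S' => if y' = w ∧ S' ⊆ A then 1 else 0)

theorem Q_nonneg (A : Finset Pt) (T : ℕ) (x w : Pt) : 0 ≤ Q A T x w :=
  ex_nonneg (fun y S => by split_ifs <;> norm_num) _ _ _

/-- blocks with the intermediate endpoints in `I`, final endpoint `y` -/
def V (T : ℕ) (I : Finset Pt) (y : Pt) : ℕ → Pt → Finset Pt → (Finset Pt → ℝ) → ℝ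
  | 0, x, S, f => ex T x S (fun y' S' => if y' = y then f S' else 0)
  | N + 1, x, S, f => ex T x S (fun y' S' => if y' ∈ I then V T I y N y' S' f else 0)

theorem V_mono (T : ℕ) (I : Finset Pt) (y : Pt) {f g : Finset Pt → ℝ} (h : ∀ S, f S ≤ g S)
    (N : ℕ) (x : Pt) (S : Finset Pt) : V T I y N x S f ≤ V T I y N x S g := by
  induction N generalizing x S with
  | zero =>
    simp only [V]
    refine ex_mono (fun y' S' => ?_) _ _ _
    split_ifs
    · exact h _
    · exact le_refl _
  | succ N ih =>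
    simp only [V]
    refine ex_mono (fun y' S' => ?_) _ _ _
    split_ifs
    · exact ih _ _
    · exact le_refl _

theorem V_add (T : ℕ) (I : Finset Pt) (y : Pt) (f g : Finset Pt → ℝ)
    (N : ℕ) (x : Pt) (S : Finset Pt) :
    V T I y N x S (fun S' => f S' + g S') = V T I y N x S f + V T I y N x S g := by
  induction N generalizing x S with
  | zero =>
    simp only [V]
    rw [← ex_add]
    refine ex_congr (fun y' S' => ?_) _ _ _
    split_ifs
    · rfl
    · simp
  | succ N ih =>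
    simp only [V]
    rw [← ex_add]
    refine ex_congr (fun y' S' => ?_) _ _ _
    split_ifs
    · exact ih _ _
    · simp

theorem V_zero_fun (T : ℕ) (I : Finset Pt) (y : Pt) (N : ℕ) (x : Pt) (S : Finset Pt) :
    V T I y N x S (fun _ => 0) = 0 := by
  have := V_add T I y (fun _ => 0) (fun _ => 0) N x S
  simp only [add_zero] at this
  linarith

theorem V_sum {ι : Type} (T : ℕ) (I : Finset Pt) (y : Pt) (s : Finset ι)
    (f : ι → Finset Pt → ℝ) (N : ℕ) (x : Pt) (S : Finset Pt) :
    V T I y N x S (fun S' => ∑ i ∈ s, f i S') = ∑ i ∈ s, V T I y N x S (f i) := by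
  induction s using Finset.induction_on with
  | empty =>
    simp only [Finset.sum_empty]
    exact V_zero_fun T I y N x S
  | insert a s ha ih =>
    rw [Finset.sum_insert ha, ← ih, ← V_add]
    congr 1
    funext S'
    rw [Finset.sum_insert ha]

theorem V_nonneg (T : ℕ) (I : Finset Pt) (y : Pt) {f : Finset Pt → ℝ} (h : ∀ S, 0 ≤ f S)
    (N : ℕ) (x : Pt) (S : Finset Pt) : 0 ≤ V T I y N x S f := by
  rw [← V_zero_fun T I y N x S]
  exact V_mono T I y h N x S

theorem V_le_ex (T : ℕ) (I : Finset Pt) (y : Pt) {f : Finset Pt → ℝ} (h : ∀ S, 0 ≤ f S)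
    (N : ℕ) (x : Pt) (S : Finset Pt) :
    V T I y N x S f ≤ ex ((N + 1) * T) x S (fun y' S' => if y' = y then f S' else 0) := by
  induction N generalizing x S with
  | zero =>
    simp only [V, Nat.zero_add, Nat.one_mul]
    exact le_refl _
  | succ N ih =>
    have e : (N + 1 + 1) * T = T + (N + 1) * T := by ring
    rw [e, ex_markov]
    simp only [V]
    refine ex_mono (fun y' S' => ?_) _ _ _
    split_ifs
    · exact ih _ _
    · refine ex_nonneg (fun y S => ?_) _ _ _
      split_ifs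
      · exact h _
      · exact le_refl _

theorem V_ind (T : ℕ) (I : Finset Pt) (y : Pt) (A : Finset Pt)
    (N : ℕ) (x : Pt) (S : Finset Pt) :
    V T I y N x S (ind A) = ind A S * V T I y N x ∅ (ind A) := by
  induction N generalizing x S with
  | zero =>
    simp only [V]
    have h1 := ex_union (fun y' S' => if y' = y then ind A S' else 0) S T x ∅
    rw [Finset.union_empty] at h1
    rw [h1, mul_comm, ← ex_mul_const]
    refine ex_congr (fun y' S' => ?_) _ _ _
    split_ifs
    · rw [ind_union, mul_comm]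
    · simp
  | succ N ih =>
    simp only [V]
    have h1 := ex_union (fun y' S' => if y' ∈ I then V T I y N y' S' (ind A) else 0) S T x ∅
    rw [Finset.union_empty] at h1
    rw [h1, mul_comm, ← ex_mul_const]
    refine ex_congr (fun y' S' => ?_) _ _ _
    split_ifs
    · rw [ih y' (S ∪ S'), ih y' S', ind_union]
      ring
    · simp

theorem V_zero_eq (T : ℕ) (I : Finset Pt) (y : Pt) (A : Finset Pt) (x : Pt) :
    V T I y 0 x ∅ (ind A) = Q A T x y := by
  simp only [V, Q]
  refine ex_congr (fun y' S' => ?_) _ _ _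
  unfold ind
  by_cases h1 : y' = y <;> by_cases h2 : S' ⊆ A <;> simp [h1, h2]

theorem V_succ_eq (T : ℕ) (I : Finset Pt) (y : Pt) (A : Finset Pt) (N : ℕ) (x : Pt) :
    V T I y (N + 1) x ∅ (ind A) = ∑ w ∈ I, Q A T x w * V T I y N w ∅ (ind A) := by
  simp only [V, Q]
  have h : ∀ w ∈ I, ex T x ∅ (fun y' S' => if y' = w ∧ S' ⊆ A then (1 : ℝ) else 0) *
      V T I y N w ∅ (ind A) = ex T x ∅ (fun y' S' => (if y' = w ∧ S' ⊆ A then (1 : ℝ) else 0) *
        V T I y N w ∅ (ind A)) := fun w _ => (ex_mul_const _ _ _ _ _).symm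
  rw [Finset.sum_congr rfl h, ← ex_sum]
  refine ex_congr (fun y' S' => ?_) _ _ _
  rw [V_ind]
  by_cases h1 : y' ∈ I
  · rw [if_pos h1, Finset.sum_eq_single_of_mem y' h1]
    · unfold ind
      by_cases h2 : S' ⊆ A <;> simp [h2]
    · intro w _ hw
      have h3 : ¬ (y' = w ∧ S' ⊆ A) := fun hh => hw hh.1.symm
      rw [if_neg h3, zero_mul]
  · rw [if_neg h1]
    symm
    apply Finset.sum_eq_zero
    intro w hw
    have h3 : ¬ (y' = w ∧ S' ⊆ A) := fun hh => h1 (hh.1 ▸ hw)
    rw [if_neg h3, zero_mul]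

theorem V_lower {T : ℕ} {I H : Finset Pt} {p : ℝ} (hp : 0 ≤ p)
    (hQ : ∀ x ∈ I, ∀ y ∈ I, p ≤ Q H T x y) (N : ℕ) {x y : Pt} (hx : x ∈ I) (hy : y ∈ I) :
    p ^ (N + 1) ≤ V T I y N x ∅ (ind H) := by
  induction N with
  | zero =>
    rw [V_zero_eq, Nat.zero_add, pow_one]
    exact hQ x hx y hy
  | succ N ih =>
    rw [V_succ_eq]
    have h1 : Q H T x x * V T I y N x ∅ (ind H) ≤
        ∑ w ∈ I, Q H T x w * V T I y N w ∅ (ind H) :=
      Finset.single_le_sum (f := fun w => Q H T x w * V T I y N w ∅ (ind H))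
        (fun w _ => mul_nonneg (Q_nonneg _ _ _ _) (V_nonneg _ _ _ (ind_nonneg H) _ _ _)) hx
    refine le_trans ?_ h1
    rw [pow_succ, mul_comm]
    exact mul_le_mul (hQ x hx x hx) ih (by positivity) (Q_nonneg _ _ _ _)

theorem V_erase {T : ℕ} {I H : Finset Pt} {δ : ℝ} (hδ : δ ≤ 1) (z : Pt)
    (hQ : ∀ x ∈ I, ∀ y ∈ I, Q (H.erase z) T x y ≤ (1 - δ) * Q H T x y)
    (N : ℕ) {x y : Pt} (hx : x ∈ I) (hy : y ∈ I) :
    V T I y N x ∅ (ind (H.erase z)) ≤ (1 - δ) ^ (N + 1) * V T I y N x ∅ (ind H) := by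
  induction N generalizing x with
  | zero =>
    rw [V_zero_eq, V_zero_eq, Nat.zero_add, pow_one]
    exact hQ x hx y hy
  | succ N ih =>
    rw [V_succ_eq, V_succ_eq, Finset.mul_sum]
    refine Finset.sum_le_sum fun w hw => ?_
    have h1 := hQ x hx w hw
    have h2 := ih hw
    have h3 : 0 ≤ (1 - δ) * Q H T x w := mul_nonneg (by linarith) (Q_nonneg _ _ _ _)
    calc Q (H.erase z) T x w * V T I y N w ∅ (ind (H.erase z)) ≤
          ((1 - δ) * Q H T x w) * ((1 - δ) ^ (N + 1) * V T I y N w ∅ (ind H)) :=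
          mul_le_mul h1 h2 (V_nonneg _ _ _ (ind_nonneg _) _ _ _) h3
      _ = _ := by ring

/-- the abstract covering lemma -/
theorem cover {T : ℕ} {I H D : Finset Pt} {δ p : ℝ} (hδ : δ ≤ 1) (hp : 0 ≤ p)
    (hQ1 : ∀ x ∈ I, ∀ y ∈ I, p ≤ Q H T x y)
    (hQ2 : ∀ z ∈ D, ∀ x ∈ I, ∀ y ∈ I, Q (H.erase z) T x y ≤ (1 - δ) * Q H T x y)
    (N : ℕ) (hN : (D.card : ℝ) * (1 - δ) ^ (N + 1) ≤ 1 / 2)
    {x y : Pt} (hx : x ∈ I) (hy : y ∈ I) :
    p ^ (N + 1) / 2 ≤ ex ((N + 1) * T) x ∅
      (fun y' S' => if y' = y ∧ D ⊆ S' ∧ S' ⊆ H then 1 else 0) := by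
  set M := V T I y N x ∅ (ind H) with hM
  have hM1 : p ^ (N + 1) ≤ M := V_lower hp hQ1 N hx hy
  have hM0 : 0 ≤ M := V_nonneg _ _ _ (ind_nonneg _) _ _ _
  set g : Finset Pt → ℝ := fun S' => if D ⊆ S' ∧ S' ⊆ H then 1 else 0 with hg
  have hg0 : ∀ S', 0 ≤ g S' := by
    intro S'
    simp only [hg]
    split_ifs <;> norm_num
  have h1 : ∀ S', ind H S' ≤ g S' + ∑ z ∈ D, ind (H.erase z) S' := by
    intro S'
    have hs : 0 ≤ ∑ z ∈ D, ind (H.erase z) S' := Finset.sum_nonneg fun z _ => ind_nonneg _ _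
    by_cases hH : S' ⊆ H
    · by_cases hD : D ⊆ S'
      · have : g S' = 1 := by
          simp only [hg]
          rw [if_pos ⟨hD, hH⟩]
        rw [this]
        unfold ind at hs ⊢
        rw [if_pos hH]
        linarith
      · rw [Finset.not_subset] at hD
        obtain ⟨z, hz, hzS⟩ := hD
        have h2 : ind (H.erase z) S' ≤ ∑ z ∈ D, ind (H.erase z) S' :=
          Finset.single_le_sum (f := fun z => ind (H.erase z) S')
            (fun z _ => ind_nonneg _ _) hz
        have h3 : ind (H.erase z) S' = 1 := by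
          unfold ind
          rw [if_pos]
          rw [Finset.subset_erase]
          exact ⟨hH, hzS⟩
        have h4 : ind H S' = 1 := by
          unfold ind
          rw [if_pos hH]
        have := hg0 S'
        rw [h4]
        linarith
    · have h4 : ind H S' = 0 := by
        unfold ind
        rw [if_neg hH]
      rw [h4]
      have := hg0 S'
      linarith
  have h2 := V_mono T I y h1 N x ∅
  rw [V_add, V_sum] at h2
  have h3 : ∑ z ∈ D, V T I y N x ∅ (ind (H.erase z)) ≤ M / 2 := by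
    calc ∑ z ∈ D, V T I y N x ∅ (ind (H.erase z)) ≤ ∑ _z ∈ D, (1 - δ) ^ (N + 1) * M :=
          Finset.sum_le_sum fun z hz => V_erase hδ z (hQ2 z hz) N hx hy
      _ = (D.card : ℝ) * (1 - δ) ^ (N + 1) * M := by
          rw [Finset.sum_const, nsmul_eq_mul]
          ring
      _ ≤ 1 / 2 * M := mul_le_mul_of_nonneg_right hN hM0
      _ = M / 2 := by ring
  have h4 := V_le_ex T I y hg0 N x ∅
  have h5 : ex ((N + 1) * T) x ∅ (fun y' S' => if y' = y then g S' else 0) =
      ex ((N + 1) * T) x ∅ (fun y' S' => if y' = y ∧ D ⊆ S' ∧ S' ⊆ H then 1 else 0) := by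
    refine ex_congr (fun y' S' => ?_) _ _ _
    simp only [hg]
    by_cases h1 : y' = y <;> simp [h1]
  rw [h5] at h4
  have h6 : M ≤ V T I y N x ∅ g + M / 2 := by
    refine h2.trans ?_
    have : V T I y N x ∅ (fun S' => g S') = V T I y N x ∅ g := rfl
    linarith
  linarith

/-- from the empty set to `Reach` -/
theorem reach_of {H D : Finset Pt} {x y : Pt} {w : ℝ} {n : ℕ}
    (h : w ≤ ex n x ∅ (fun y' S' => if y' = y ∧ D ⊆ S' ∧ S' ⊆ H then 1 else 0)) :
    Reach H D x y w n := by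
  intro S
  refine h.trans ?_
  have h1 := ex_union (fun y' S' => if y' = y ∧ D ⊆ S' ∧ S' ⊆ S ∪ H then (1 : ℝ) else 0) S n x ∅
  rw [Finset.union_empty] at h1
  rw [h1]
  refine ex_mono (fun y' S' => ?_) _ _ _
  by_cases hc : y' = y ∧ D ⊆ S' ∧ S' ⊆ H
  · rw [if_pos hc, if_pos]
    refine ⟨hc.1, hc.2.1.trans Finset.subset_union_right, ?_⟩
    exact Finset.union_subset_union_right hc.2.2
  · rw [if_neg hc]
    split_ifs <;> norm_num

/-- prepend one step -/
theorem reach_step {H D : Finset Pt} {x y : Pt} {w : ℝ} {n : ℕ} (s : Stp) (hs : x + dv s ∈ H)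
    (h : Reach H D (x + dv s) y w n) : Reach H D x y (w / 4) (n + 1) := by
  intro S
  simp only [ex]
  have h1 := h (insert (x + dv s) S)
  have e : insert (x + dv s) S ∪ H = S ∪ H := by
    rw [Finset.insert_union, Finset.insert_eq_of_mem]
    exact Finset.mem_union_right _ hs
  rw [e] at h1
  have h2 := Finset.single_le_sum (s := (Finset.univ : Finset Stp)) (f := fun s : Stp =>
    ex n (x + dv s) (insert (x + dv s) S)
      (fun y' S' => if y' = y ∧ D ⊆ S' ∧ S' ⊆ S ∪ H then (1 : ℝ) else 0))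
    (fun s _ => ex_nonneg (fun y S => by split_ifs <;> norm_num) _ _ _) (Finset.mem_univ s)
  have h3 := h1.trans h2
  linarith

theorem mem_sq (c x : Pt) (m : ℕ) : x ∈ sq c m ↔
    (c.1 - m ≤ x.1 ∧ x.1 ≤ c.1 + m) ∧ (c.2 - m ≤ x.2 ∧ x.2 ≤ c.2 + m) ∧ (x.1 - x.2) % 2 = 0 := by
  unfold sq
  rw [Finset.mem_filter, Finset.mem_product, Finset.mem_Icc, Finset.mem_Icc]
  tauto

theorem mem_Bx (A : ℕ) (x : Pt) : x ∈ Bx A ↔
    (1 ≤ x.1 ∧ x.1 ≤ A) ∧ (1 ≤ x.2 ∧ x.2 ≤ A) ∧ (x.1 - x.2) % 2 = 0 := by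
  unfold Bx
  rw [Finset.mem_filter, Finset.mem_product, Finset.mem_Icc, Finset.mem_Icc]
  tauto

theorem card_sq_le (c : Pt) (m : ℕ) : ((sq c m).card : ℝ) ≤ (2 * m + 1) ^ 2 := by
  have h1 : (sq c m).card ≤ (2 * m + 1) ^ 2 := by
    unfold sq
    refine (Finset.card_filter_le _ _).trans ?_
    rw [Finset.card_product, Int.card_Icc, Int.card_Icc]
    have e1 : (c.1 + (m : ℤ) + 1 - (c.1 - m)).toNat = 2 * m + 1 := by omega
    have e2 : (c.2 + (m : ℤ) + 1 - (c.2 - m)).toNat = 2 * m + 1 := by omega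
    rw [e1, e2, sq_eq]
  exact_mod_cast h1
where sq_eq {a : ℕ} : a * a = a ^ 2 := by ring

/-- transport of the block kernels by translation -/
theorem Q_translate {c : Pt} (hc : (c.1 - c.2) % 2 = 0) (m T : ℕ) (x y : Pt) :
    Q (sq c (4 * m)) T x y =
      ex T (x + ((4 * m + 1 : ℤ) - c.1, (4 * m + 1 : ℤ) - c.2)) ∅
        (fun y' S' => if y' = y + ((4 * m + 1 : ℤ) - c.1, (4 * m + 1 : ℤ) - c.2) ∧
          S' ⊆ Bx (8 * m + 1) then 1 else 0) := by
  set a : Pt := ((4 * m + 1 : ℤ) - c.1, (4 * m + 1 : ℤ) - c.2) with ha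
  have h1 := ex_translate (fun y' S' => if y' = y + a ∧ S' ⊆ Bx (8 * m + 1) then (1 : ℝ) else 0)
    a T x ∅
  rw [Finset.image_empty] at h1
  rw [h1]
  unfold Q
  refine ex_congr (fun y' S' => ?_) _ _ _
  congr 1
  rw [eq_iff_iff]
  have e1 : y' + a = y + a ↔ y' = y := add_left_inj a
  rw [e1]
  apply and_congr_right
  intro _
  rw [Finset.image_subset_iff]
  constructor
  · intro h z hz
    have := h hz
    rw [mem_sq] at this
    rw [mem_Bx]
    simp only [ha, Prod.fst_add, Prod.snd_add]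
    push_cast at this ⊢
    omega
  · intro h z hz
    have := h z hz
    rw [mem_Bx] at this
    rw [mem_sq]
    simp only [ha, Prod.fst_add, Prod.snd_add] at this
    push_cast at this ⊢
    omega

theorem Q_translate_erase {c : Pt} (hc : (c.1 - c.2) % 2 = 0) (m T : ℕ) (x y z : Pt) :
    Q ((sq c (4 * m)).erase z) T x y =
      ex T (x + ((4 * m + 1 : ℤ) - c.1, (4 * m + 1 : ℤ) - c.2)) ∅
        (fun y' S' => if y' = y + ((4 * m + 1 : ℤ) - c.1, (4 * m + 1 : ℤ) - c.2) ∧
          S' ⊆ Bx (8 * m + 1) ∧ z + ((4 * m + 1 : ℤ) - c.1, (4 * m + 1 : ℤ) - c.2) ∉ S'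
            then 1 else 0) := by
  set a : Pt := ((4 * m + 1 : ℤ) - c.1, (4 * m + 1 : ℤ) - c.2) with ha
  have h1 := ex_translate (fun y' S' => if y' = y + a ∧ S' ⊆ Bx (8 * m + 1) ∧ z + a ∉ S'
    then (1 : ℝ) else 0) a T x ∅
  rw [Finset.image_empty] at h1
  rw [h1]
  unfold Q
  refine ex_congr (fun y' S' => ?_) _ _ _
  congr 1
  rw [eq_iff_iff]
  have e1 : y' + a = y + a ↔ y' = y := add_left_inj a
  rw [e1]
  apply and_congr_right
  intro _
  rw [Finset.image_subset_iff, Finset.subset_erase]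
  apply and_congr
  · constructor
    · intro h z hz
      have := h hz
      rw [mem_sq] at this
      rw [mem_Bx]
      simp only [ha, Prod.fst_add, Prod.snd_add]
      push_cast at this ⊢
      omega
    · intro h z hz
      have := h z hz
      rw [mem_Bx] at this
      rw [mem_sq]
      simp only [ha, Prod.fst_add, Prod.snd_add] at this
      push_cast at this ⊢
      omega
  · rw [not_iff_not, Finset.mem_image]
    constructor
    · intro hz
      exact ⟨z, hz, rfl⟩
    · rintro ⟨w, hw, hwz⟩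
      have : w = z := by simpa using hwz
      rw [← this]
      exact hw


/-- one step towards the centre -/
theorem step_in {c x : Pt} {m : ℕ} (hm : 1 ≤ m) (hx : x ∈ sq c (3 * m)) :
    ∃ s : Stp, x + dv s ∈ sq c (3 * m) ∧ (x.1 + (dv s).1 - x.1) % 2 = 1 := by
  rw [mem_sq] at hx
  refine ⟨(decide (x.1 ≤ c.1), decide (x.2 ≤ c.2)), ?_, ?_⟩
  · rw [mem_sq]
    simp only [dv, sg, Prod.fst_add, Prod.snd_add, decide_eq_true_eq]
    push_cast at hx ⊢
    split_ifs <;> omega
  · simp only [dv, sg, decide_eq_true_eq]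
    split_ifs <;> omega

end BoxAux

open BoxAux in
theorem taskBox : TaskHit → TaskBox := by
  rintro ⟨C, η, hC, hη, hη1, hHit⟩
  refine ⟨17 * (C * (5 / η + 1)) + 3, by positivity, ?_⟩
  intro m hm c x₀ y hc hx₀ hy
  obtain ⟨T, hT, hTT⟩ := hHit m hm
  have hmR : (1 : ℝ) ≤ m := by exact_mod_cast hm
  have hm0 : (0 : ℝ) < m := by linarith
  have hlog0 : 0 ≤ Real.log m := Real.log_nonneg hmR
  set l : ℝ := 1 + Real.log m with hl
  have hl1 : 1 ≤ l := by linarith
  have hl0 : 0 < l := by linarith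
  set H := sq c (4 * m) with hH
  set D := sq c (3 * m) with hD
  set δ : ℝ := η / l with hδ
  have hδ0 : 0 < δ := by positivity
  have hδ1 : δ ≤ 1 := by
    rw [hδ, div_le_one hl0]
    linarith
  set p : ℝ := Real.exp (-C * l) with hp
  have hp0 : 0 < p := Real.exp_pos _
  have hp1 : p ≤ 1 := by
    rw [hp, Real.exp_le_one_iff]
    have : 0 < C * l := by positivity
    linarith
  set N' : ℕ := ⌈5 * l ^ 2 / η⌉₊ with hN'
  have hN'1 : 5 * l ^ 2 / η ≤ N' := Nat.le_ceil _
  have hN'2 : (N' : ℝ) ≤ (5 / η + 1) * l ^ 2 := by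
    have h1 : (N' : ℝ) < 5 * l ^ 2 / η + 1 := Nat.ceil_lt_add_one (by positivity)
    have h2 : (1 : ℝ) ≤ l ^ 2 := one_le_pow₀ hl1
    have h3 : (5 / η + 1) * l ^ 2 = 5 * l ^ 2 / η + l ^ 2 := by ring
    rw [h3]
    linarith
  have hN'0 : 1 ≤ N' := by
    rw [hN', Nat.one_le_ceil_iff]
    positivity
  obtain ⟨N, hN⟩ : ∃ N, N' = N + 1 := ⟨N' - 1, by omega⟩
  -- the union bound
  have hcount : (D.card : ℝ) * (1 - δ) ^ (N + 1) ≤ 1 / 2 := by
    have h1 : (1 - δ) ^ (N + 1) ≤ Real.exp (-(5 * l)) := by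
      have h2 : 1 - δ ≤ Real.exp (-δ) := by
        have := Real.add_one_le_exp (-δ)
        linarith
      calc (1 - δ) ^ (N + 1) ≤ (Real.exp (-δ)) ^ (N + 1) :=
            pow_le_pow_left₀ (by linarith) h2 _
        _ = Real.exp (-(δ * N')) := by
            rw [← Real.exp_nat_mul, hN]
            congr 1
            push_cast
            ring
        _ ≤ Real.exp (-(5 * l)) := by
            apply Real.exp_le_exp.mpr
            have h3 : δ * (5 * l ^ 2 / η) ≤ δ * N' := mul_le_mul_of_nonneg_left hN'1 hδ0.le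
            have h4 : δ * (5 * l ^ 2 / η) = 5 * l := by
              rw [hδ]
              field_simp
            linarith
    have h5 : (D.card : ℝ) ≤ Real.exp (2 + 2 * l) := by
      have h6 := card_sq_le c (3 * m)
      have h7 : (2 * ((3 * m : ℕ) : ℝ) + 1) ≤ 7 * m := by
        push_cast
        linarith
      have h8 : (7 : ℝ) * m ≤ Real.exp (1 + l) := by
        have h9 : Real.exp (1 + l) = Real.exp 1 * Real.exp 1 * m := by
          rw [hl, Real.exp_add, Real.exp_add, Real.exp_log hm0]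
          ring
        rw [h9]
        have h10 : (2.7182818283 : ℝ) < Real.exp 1 := Real.exp_one_gt_d9
        have h11 : (7 : ℝ) ≤ Real.exp 1 * Real.exp 1 := by nlinarith
        exact mul_le_mul_of_nonneg_right h11 hm0.le
      have h12 : ((2 * ((3 * m : ℕ) : ℝ) + 1)) ^ 2 ≤ (Real.exp (1 + l)) ^ 2 :=
        pow_le_pow_left₀ (by positivity) (h7.trans h8) 2
      refine h6.trans (h12.trans (le_of_eq ?_))
      rw [← Real.exp_nat_mul]
      congr 1
      push_cast
      ring
    calc (D.card : ℝ) * (1 - δ) ^ (N + 1) ≤ Real.exp (2 + 2 * l) * Real.exp (-(5 * l)) :=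
          mul_le_mul h5 h1 (pow_nonneg (by linarith) _) (Real.exp_pos _).le
      _ = Real.exp (2 - 3 * l) := by
          rw [← Real.exp_add]
          congr 1
          ring
      _ ≤ Real.exp (-1) := Real.exp_le_exp.mpr (by linarith)
      _ ≤ 1 / 2 := by
          rw [Real.exp_neg, one_div]
          apply inv_anti₀ (by norm_num)
          have h10 : (2.7182818283 : ℝ) < Real.exp 1 := Real.exp_one_gt_d9
          linarith
  -- the main case: same parity
  have hmain : ∀ x ∈ D, (x.1 - y.1) % 2 = 0 → Reach H D x y (p ^ (N + 1) / 2) ((N + 1) * T) := by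
    intro x hx hxy
    apply reach_of
    set I : Finset Pt := D.filter (fun w => (w.1 - y.1) % 2 = 0) with hI
    have hxI : x ∈ I := by
      rw [hI, Finset.mem_filter]
      exact ⟨hx, hxy⟩
    have hyI : y ∈ I := by
      rw [hI, Finset.mem_filter]
      exact ⟨hy, by simp⟩
    have hshift : ∀ w ∈ D, w + ((4 * m + 1 : ℤ) - c.1, (4 * m + 1 : ℤ) - c.2) ∈
        sq (4 * m + 1, 4 * m + 1) (3 * m) := by
      intro w hw
      rw [hD, mem_sq] at hw
      rw [mem_sq]
      simp only [Prod.fst_add, Prod.snd_add]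
      push_cast at hw ⊢
      omega
    apply cover hδ1 hp0.le (I := I) _ _ N hcount hxI hyI
    · intro u hu v hv
      rw [hI, Finset.mem_filter] at hu hv
      rw [hH, Q_translate hc]
      have h1 := (hTT _ _ _ (hshift u hu.1) (hshift v hv.1) (hshift u hu.1) (by
        simp only [Prod.fst_add]
        omega)).1
      exact h1
    · intro z hz u hu v hv
      rw [hI, Finset.mem_filter] at hu hv
      rw [hH, Q_translate hc, Q_translate_erase hc]
      have h1 := (hTT _ _ _ (hshift u hu.1) (hshift v hv.1) (hshift z hz) (by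
        simp only [Prod.fst_add]
        omega)).2
      exact h1
  -- numerical bounds
  have hl3 : l ^ 3 ≤ 17 * m := by
    have h1 := Real.pow_div_factorial_le_exp l hl0.le 3
    have h2 : Real.exp l = Real.exp 1 * m := by
      rw [hl, Real.exp_add, Real.exp_log hm0]
    have h3 : Real.exp 1 < 2.7182818286 := Real.exp_one_lt_d9
    rw [h2] at h1
    have h4 : ((3 : ℕ).factorial : ℝ) = 6 := by norm_num [Nat.factorial]
    rw [h4] at h1
    nlinarith
  have hl3' : 1 ≤ l ^ 3 := one_le_pow₀ hl1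
  have hpN : Real.exp (-(C * (5 / η + 1)) * l ^ 3) ≤ p ^ (N + 1) := by
    rw [hp, ← Real.exp_nat_mul, ← hN]
    apply Real.exp_le_exp.mpr
    have h1 : (N' : ℝ) * (C * l) ≤ (5 / η + 1) * l ^ 2 * (C * l) :=
      mul_le_mul_of_nonneg_right hN'2 (by positivity)
    have h2 : (5 / η + 1) * l ^ 2 * (C * l) = C * (5 / η + 1) * l ^ 3 := by ring
    linarith
  have htime : (((N + 1) * T : ℕ) : ℝ) ≤ C * (5 / η + 1) * 17 * m ^ 3 := by
    rw [← hN]
    push_cast
    calc (N' : ℝ) * T ≤ ((5 / η + 1) * l ^ 2) * (C * m ^ 2 * l) :=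
          mul_le_mul hN'2 hT (by positivity) (by positivity)
      _ = C * (5 / η + 1) * m ^ 2 * l ^ 3 := by ring
      _ ≤ C * (5 / η + 1) * m ^ 2 * (17 * m) := mul_le_mul_of_nonneg_left hl3 (by positivity)
      _ = C * (5 / η + 1) * 17 * m ^ 3 := by ring
  have hm3 : (1 : ℝ) ≤ (m : ℝ) ^ 3 := one_le_pow₀ hmR
  have hE : (0 : ℝ) < C * (5 / η + 1) := by positivity
  have hfinal : Real.exp (-(17 * (C * (5 / η + 1)) + 3) * l ^ 3) ≤ p ^ (N + 1) / 2 / 4 := by
    have h1 : Real.exp (-3) ≤ 1 / 8 := by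
      rw [Real.exp_neg, one_div]
      apply inv_anti₀ (by norm_num)
      have h2 : Real.exp 3 = Real.exp 1 * Real.exp 1 * Real.exp 1 := by
        rw [← Real.exp_add, ← Real.exp_add]
        norm_num
      have h10 : (2 : ℝ) ≤ Real.exp 1 := by
        have : (2.7182818283 : ℝ) < Real.exp 1 := Real.exp_one_gt_d9
        linarith
      rw [h2]
      have h11 : (4 : ℝ) ≤ Real.exp 1 * Real.exp 1 := by nlinarith
      nlinarith
    have h2 : -(17 * (C * (5 / η + 1)) + 3) * l ^ 3 ≤ -(C * (5 / η + 1)) * l ^ 3 + (-3) := by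
      nlinarith
    calc Real.exp (-(17 * (C * (5 / η + 1)) + 3) * l ^ 3) ≤
          Real.exp (-(C * (5 / η + 1)) * l ^ 3 + (-3)) := Real.exp_le_exp.mpr h2
      _ = Real.exp (-(C * (5 / η + 1)) * l ^ 3) * Real.exp (-3) := Real.exp_add _ _
      _ ≤ p ^ (N + 1) * (1 / 8) := mul_le_mul hpN h1 (Real.exp_pos _).le (by positivity)
      _ = p ^ (N + 1) / 2 / 4 := by ring
  have hweak : ∀ {x : Pt} {w w' : ℝ} {n : ℕ}, w' ≤ w → Reach H D x y w n → Reach H D x y w' n :=
    fun hw h S => hw.trans (h S)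
  by_cases hpar : (x₀.1 - y.1) % 2 = 0
  · refine ⟨(N + 1) * T, ?_, ?_⟩
    · refine htime.trans ?_
      nlinarith
    · refine hweak ?_ (hmain x₀ hx₀ hpar)
      refine hfinal.trans ?_
      have : 0 < p ^ (N + 1) := by positivity
      linarith
  · obtain ⟨s, hs1, hs2⟩ := step_in hm hx₀
    refine ⟨(N + 1) * T + 1, ?_, ?_⟩
    · push_cast at htime ⊢
      nlinarith
    · refine hweak hfinal ?_
      apply reach_step s
      · rw [hH, mem_sq]
        rw [mem_sq] at hs1
        push_cast at hs1 ⊢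
        omega
      · apply hmain _ hs1
        simp only [Prod.fst_add]
        omega

end

end Pool.Agent.H308R3.DM
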