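import Pool.Agent.H308R3.DM.Stmts

set_option autoImplicit false

namespace Pool.Agent.H308R3.DM

namespace Cover245

open Finset Filter Topology
open scoped Classical BigOperators

lemma ex_mono (n : ℕ) : ∀ (x : Pt) (S : Finset Pt) (F G : Pt → Finset Pt → ℝ),
    (∀ y T, S ⊆ T → F y T ≤ G y T) → ex n x S F ≤ ex n x S G := by
  induction n with
  | zero => intro x S F G h; exact h x S (Finset.Subset.refl S)
  | succ n ih =>
    intro x S F G h
    simp only [ex]
    apply div_le_div_of_nonneg_right _ (by norm_num)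
    apply Finset.sum_le_sum
    intro s _
    exact ih _ _ _ _ fun y T hT => h y T ((Finset.subset_insert _ _).trans hT)

lemma ex_const_mul (n : ℕ) : ∀ (x : Pt) (S : Finset Pt) (F : Pt → Finset Pt → ℝ) (c : ℝ),
    ex n x S (fun y T => c * F y T) = c * ex n x S F := by
  induction n with
  | zero => intro x S F c; rfl
  | succ n ih =>
    intro x S F c
    simp only [ex, ih]
    rw [← Finset.mul_sum, mul_div_assoc]

lemma ex_add (n m : ℕ) : ∀ (x : Pt) (S : Finset Pt) (F : Pt → Finset Pt → ℝ),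
    ex (n + m) x S F = ex n x S (fun y T => ex m y T F) := by
  induction n with
  | zero => intro x S F; rw [Nat.zero_add]; rfl
  | succ n ih =>
    intro x S F
    rw [Nat.add_right_comm]
    simp only [ex, ih]

lemma Reach.mono {H D H' D' : Finset Pt} {x y : Pt} {w w' : ℝ} {n : ℕ} (h : Reach H D x y w n)
    (hH : H ⊆ H') (hD : D' ⊆ D) (hw : w' ≤ w) : Reach H' D' x y w' n := by
  intro S
  refine (hw.trans (h S)).trans ?_
  apply ex_mono
  intro y' T _
  by_cases hc : y' = y ∧ D ⊆ T ∧ T ⊆ S ∪ H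
  · rw [if_pos hc, if_pos ⟨hc.1, hD.trans hc.2.1, hc.2.2.trans (Finset.union_subset_union_right hH)⟩]
  · rw [if_neg hc]
    split_ifs <;> norm_num

lemma Reach.comp {H D D' : Finset Pt} {x y z : Pt} {w w' : ℝ} {n m : ℕ} (h : Reach H D x y w n)
    (h' : Reach H D' y z w' m) (hw' : 0 ≤ w') : Reach H (D ∪ D') x z (w' * w) (n + m) := by
  intro S
  rw [ex_add]
  calc w' * w ≤ w' * ex n x S (fun y' S' => if y' = y ∧ D ⊆ S' ∧ S' ⊆ S ∪ H then 1 else 0) :=
        mul_le_mul_of_nonneg_left (h S) hw'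
    _ = ex n x S (fun y' S' => w' * if y' = y ∧ D ⊆ S' ∧ S' ⊆ S ∪ H then 1 else 0) :=
        (ex_const_mul n x S _ w').symm
    _ ≤ _ := by
        apply ex_mono
        intro y' T _
        by_cases hc : y' = y ∧ D ⊆ T ∧ T ⊆ S ∪ H
        · rw [if_pos hc, mul_one]
          obtain ⟨rfl, h1, h2⟩ := hc
          refine (h' T).trans ?_
          apply ex_mono
          intro z' U hU
          by_cases hc' : z' = z ∧ D' ⊆ U ∧ U ⊆ T ∪ H
          · rw [if_pos hc', if_pos]
            refine ⟨hc'.1, Finset.union_subset (h1.trans hU) hc'.2.1, ?_⟩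
            refine hc'.2.2.trans (Finset.union_subset h2 Finset.subset_union_right)
          · rw [if_neg hc']
            split_ifs <;> norm_num
        · rw [if_neg hc, mul_zero]
          have h0 : ex m y' T (fun _ _ => (0 : ℝ) * 0) ≤ ex m y' T (fun y'' S' =>
              if y'' = z ∧ D ∪ D' ⊆ S' ∧ S' ⊆ S ∪ H then 1 else 0) := by
            apply ex_mono
            intro _ _ _
            split_ifs <;> norm_num
          rw [ex_const_mul m y' T (fun _ _ => (0 : ℝ)) 0, zero_mul] at h0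
          exact h0

lemma Reach.zero (H : Finset Pt) (x : Pt) : Reach H ∅ x x 1 0 := by
  intro S
  simp [ex]

lemma Reach.step {H : Finset Pt} (x : Pt) (s : Stp) (h : x + dv s ∈ H) :
    Reach H {x + dv s} x (x + dv s) (1 / 4) 1 := by
  intro S
  simp only [ex]
  apply div_le_div_of_nonneg_right _ (by norm_num)
  let f : Stp → ℝ := fun s' => if x + dv s' = x + dv s ∧
      {x + dv s} ⊆ insert (x + dv s') S ∧ insert (x + dv s') S ⊆ S ∪ H then (1 : ℝ) else 0
  have h1 : f s = 1 := by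
    simp only [f]
    rw [if_pos]
    refine ⟨trivial, ?_, ?_⟩
    · rw [Finset.singleton_subset_iff]
      exact Finset.mem_insert_self _ _
    · apply Finset.insert_subset
      · exact Finset.mem_union_right _ h
      · exact Finset.subset_union_left
  have h2 : f s ≤ ∑ s' : Stp, f s' := by
    apply Finset.single_le_sum (f := f) _ (Finset.mem_univ s)
    intro s' _
    simp only [f]
    split_ifs <;> norm_num
  rw [h1] at h2
  exact h2

lemma Reach.diag {H : Finset Pt} (x : Pt) (s : Stp) (k : ℕ)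
    (h : ∀ j : ℕ, 1 ≤ j → j ≤ k → (x.1 + j * sg s.1, x.2 + j * sg s.2) ∈ H) :
    Reach H ∅ x (x.1 + k * sg s.1, x.2 + k * sg s.2) ((1 / 4) ^ k) k := by
  induction k with
  | zero =>
    have e : ((x.1 + (0 : ℕ) * sg s.1, x.2 + (0 : ℕ) * sg s.2) : Pt) = x := by
      simp
    rw [e, pow_zero]
    exact Reach.zero H x
  | succ k ih =>
    have h1 := ih fun j hj hk => h j hj (by omega)
    have e : ((x.1 + (k : ℕ) * sg s.1, x.2 + (k : ℕ) * sg s.2) : Pt) + dv s =
        (x.1 + (k + 1 : ℕ) * sg s.1, x.2 + (k + 1 : ℕ) * sg s.2) := by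
      simp only [dv, Prod.mk_add_mk]
      push_cast
      rw [add_mul, add_mul, one_mul, one_mul, add_assoc, add_assoc]
    have h2 : ((x.1 + (k : ℕ) * sg s.1, x.2 + (k : ℕ) * sg s.2) : Pt) + dv s ∈ H := by
      rw [e]
      exact h (k + 1) (by omega) le_rfl
    have h3 := Reach.comp h1 (Reach.step _ s h2) (by norm_num)
    rw [e] at h3
    refine Reach.mono h3 (Finset.Subset.refl _) (Finset.empty_subset _) ?_
    rw [pow_succ]
    linarith

lemma mem_sq0 {r : ℕ} {x : Pt} : x ∈ sq 0 r ↔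
    (-(r : ℤ) ≤ x.1 ∧ x.1 ≤ r) ∧ (-(r : ℤ) ≤ x.2 ∧ x.2 ≤ r) ∧ (x.1 - x.2) % 2 = 0 := by
  simp only [sq, Finset.mem_filter, Finset.mem_product, Finset.mem_Icc, Prod.fst_zero,
    Prod.snd_zero, zero_add, zero_sub]
  tauto

lemma sq0_mono {r r' : ℕ} (h : r ≤ r') : sq 0 r ⊆ sq 0 r' := by
  intro x hx
  rw [mem_sq0] at *
  omega

/-- small radii: boundary walks -/
lemma small (h0 : TaskRing0) (r : ℕ) : 1 ≤ r →
    Reach (sq 0 r) (sq 0 r) 0 0 ((1 / 4) ^ (5 * r * (r + 1) + 2)) (5 * r * (r + 1) + 2) := by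
  intro hr
  induction r, hr using Nat.le_induction with
  | base =>
    -- boundary walk, then two steps
    have h1 := h0 1 le_rfl
    have hz : (0 : Pt) + dv (true, true) ∈ sq 0 1 := by
      rw [mem_sq0]; simp [dv, sg]
    have h2 := Reach.step (H := sq 0 1) (0 : Pt) (true, true) hz
    have hz' : ((0 : Pt) + dv (true, true)) + dv (false, false) ∈ sq 0 1 := by
      rw [mem_sq0]; simp [dv, sg]
    have h3 := Reach.step (H := sq 0 1) ((0 : Pt) + dv (true, true)) (false, false) hz'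
    have e : ((0 : Pt) + dv (true, true)) + dv (false, false) = 0 := by
      simp [dv, sg]
    rw [e] at h3
    have h4 := Reach.comp (Reach.comp h1 h2 (by norm_num)) h3 (by norm_num)
    refine Reach.mono h4 (Finset.Subset.refl _) ?_ ?_
    · intro x hx
      rw [mem_sq0] at hx
      simp only [Finset.mem_union, Finset.mem_singleton]
      by_cases hx0 : x = 0
      · right; exact hx0
      · left; left
        simp only [ringS, Finset.mem_filter]
        refine ⟨mem_sq0.2 hx, ?_⟩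
        obtain ⟨u, v⟩ := x
        simp only at hx ⊢
        have : u ≠ 0 ∨ v ≠ 0 := by
          by_contra hcon
          push Not at hcon
          exact hx0 (Prod.ext hcon.1 hcon.2)
        have hm : max |u| |v| = 1 := by
          rcases abs_cases u with ⟨a1, a2⟩ | ⟨a1, a2⟩ <;> rcases abs_cases v with ⟨b1, b2⟩ | ⟨b1, b2⟩ <;>
            rw [a1, b1] <;> omega
        rw [hm]
        norm_num
    · norm_num
  | succ r hr ih =>
    have h1 := h0 (r + 1) (by omega)
    have h2 := Reach.mono ih (sq0_mono (Nat.le_succ r)) (Finset.Subset.refl _) le_rfl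
    have h3 := Reach.comp h1 h2 (by positivity)
    have hn : 10 * (r + 1) + (5 * r * (r + 1) + 2) = 5 * (r + 1) * (r + 1 + 1) + 2 := by ring
    rw [hn, ← pow_add, add_comm (5 * r * (r + 1) + 2), hn] at h3
    refine Reach.mono h3 (Finset.Subset.refl _) ?_ le_rfl
    intro x hx
    simp only [Finset.mem_union]
    by_cases hx' : x ∈ sq 0 r
    · right; exact hx'
    · left
      simp only [ringS, Finset.mem_filter]
      refine ⟨hx, ?_⟩
      rw [mem_sq0] at hx hx'
      obtain ⟨u, v⟩ := x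
      simp only at hx hx' ⊢
      push_cast at hx ⊢
      have hm : max |u| |v| = r + 1 := by
        rcases abs_cases u with ⟨a1, a2⟩ | ⟨a1, a2⟩ <;> rcases abs_cases v with ⟨b1, b2⟩ | ⟨b1, b2⟩ <;>
          rw [a1, b1] <;> omega
      rw [hm]
      norm_num

/-- corner points -/
def P (r m : ℕ) : Pt := (-((r : ℤ) - 4 * m), (r : ℤ) - 4 * m)

lemma log_pow_le (k : ℕ) : Real.log ((2 ^ k : ℕ) : ℝ) ≤ k := by
  push_cast
  rw [Real.log_pow]
  have h1 : Real.log 2 ≤ 1 := by
    have := Real.log_le_sub_one_of_pos (x := 2) (by norm_num)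
    linarith
  have h2 : (0 : ℝ) ≤ k := Nat.cast_nonneg k
  nlinarith

lemma weight_le (C : ℝ) (hC : 0 < C) (r k : ℕ) :
    Real.exp (-(C * r * ((1 + (k : ℝ)) ^ 3 / 2 ^ k))) ≤
      Real.exp (-C * (r / (2 ^ k : ℕ)) * (1 + Real.log ((2 ^ k : ℕ) : ℝ)) ^ 3) := by
  apply Real.exp_le_exp.2
  have h1 := log_pow_le k
  have h2 : 0 ≤ Real.log ((2 ^ k : ℕ) : ℝ) := Real.log_natCast_nonneg _
  have h3 : (1 + Real.log ((2 ^ k : ℕ) : ℝ)) ^ 3 ≤ (1 + (k : ℝ)) ^ 3 := by
    apply pow_le_pow_left₀ (by linarith)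
    linarith
  have h4 : (0 : ℝ) ≤ C * (r / (2 ^ k : ℕ)) := by positivity
  have h5 := mul_le_mul_of_nonneg_left h3 h4
  have h6 : C * r * ((1 + (k : ℝ)) ^ 3 / 2 ^ k) = C * (r / (2 ^ k : ℕ)) * (1 + (k : ℝ)) ^ 3 := by
    push_cast
    ring
  rw [h6]
  linarith

lemma rings (C : ℝ) (hC : 0 < C)
    (hR : ∀ (r m : ℕ), 1 ≤ m → 4 * m ≤ r → ∃ n : ℕ, (n : ℝ) ≤ C * r * (m : ℝ) ^ 2 ∧
      Reach (sq 0 r) (ringS r m (7 * m)) (-(r - 4 * m), r - 4 * m) (-(r - 4 * m), r - 4 * m)
        (Real.exp (-C * (r / m) * (1 + Real.log m) ^ 3)) n) (r k : ℕ) : 4 * 2 ^ k ≤ r →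
    ∃ n : ℕ, (n : ℝ) ≤ C * r * ∑ j ∈ range (k + 1), (4 : ℝ) ^ j + 4 * 2 ^ k ∧
      Reach (sq 0 r) (ringS r 1 (7 * 2 ^ k)) (P r 1) (P r (2 ^ k))
        (Real.exp (-(C * r * ∑ j ∈ range (k + 1), (1 + (j : ℝ)) ^ 3 / 2 ^ j)) *
          (1 / 4) ^ (4 * 2 ^ k)) n := by
  induction k with
  | zero =>
    intro hr
    obtain ⟨n, hn, h⟩ := hR r 1 le_rfl (by simpa using hr)
    refine ⟨n, ?_, ?_⟩
    · simp at hn ⊢
      linarith
    · have h1 := weight_le C hC r 0
      have e : Real.exp (-C * (r / (2 ^ 0 : ℕ)) * (1 + Real.log ((2 ^ 0 : ℕ) : ℝ)) ^ 3) =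
          Real.exp (-C * (r / (1 : ℕ)) * (1 + Real.log ((1 : ℕ) : ℝ)) ^ 3) := by
        rw [pow_zero]
      rw [e] at h1
      have h2 := Reach.mono h (Finset.Subset.refl _) (Finset.Subset.refl _) h1
      refine Reach.mono h2 (Finset.Subset.refl _) ?_ ?_
      · exact Finset.Subset.refl _
      · rw [zero_add, Finset.sum_range_one]
        have h3 : 0 ≤ Real.exp (-(C * r * ((1 + ((0 : ℕ) : ℝ)) ^ 3 / 2 ^ 0))) := (Real.exp_pos _).le
        calc _ ≤ Real.exp (-(C * r * ((1 + ((0 : ℕ) : ℝ)) ^ 3 / 2 ^ 0))) * 1 := by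
              apply mul_le_mul_of_nonneg_left _ h3
              norm_num
          _ = _ := mul_one _
  | succ k ih =>
    intro hr
    have hk : 4 * 2 ^ k + 4 * 2 ^ k ≤ r := by
      have : 4 * 2 ^ (k + 1) = 4 * 2 ^ k + 4 * 2 ^ k := by ring
      omega
    have hp2 : 1 ≤ 2 ^ k := Nat.one_le_two_pow
    obtain ⟨n, hn, h⟩ := ih (by omega)
    obtain ⟨n', hn', h'⟩ := hR r (2 ^ (k + 1)) Nat.one_le_two_pow hr
    have hd := Reach.diag (H := sq 0 r) (P r (2 ^ k)) (true, false) (4 * 2 ^ k) (by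
      intro j hj hj'
      rw [mem_sq0]
      simp only [P, sg]
      zify at hk hj hj'
      push_cast
      refine ⟨⟨?_, ?_⟩, ⟨?_, ?_⟩, ?_⟩
      · linarith
      · linarith
      · linarith
      · linarith
      · omega)
    have e : (((P r (2 ^ k)).1 + (4 * 2 ^ k : ℕ) * sg (true, false).1,
        (P r (2 ^ k)).2 + (4 * 2 ^ k : ℕ) * sg (true, false).2) : Pt) = P r (2 ^ (k + 1)) := by
      simp only [P, sg, if_true, Bool.false_eq_true, if_false]
      push_cast
      apply Prod.ext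
      · simp only
        ring
      · simp only
        ring
    rw [e] at hd
    have h2 := Reach.comp h hd (by positivity)
    have h3 := Reach.comp h2 h' (Real.exp_pos _).le
    refine ⟨n + 4 * 2 ^ k + n', ?_, ?_⟩
    · push_cast at hn' ⊢
      rw [Finset.sum_range_succ]
      have e4 : ((2 : ℝ) ^ (k + 1)) ^ 2 = 4 ^ (k + 1) := by
        rw [← pow_mul, mul_comm, pow_mul]; norm_num
      rw [e4] at hn'
      have e5 : (4 : ℝ) * 2 ^ (k + 1) = 4 * 2 ^ k + 4 * 2 ^ k := by ring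
      rw [e5, mul_add]
      linarith
    · refine Reach.mono h3 (Finset.Subset.refl _) ?_ ?_
      · intro x hx
        simp only [ringS, Finset.mem_filter, Finset.mem_union] at hx ⊢
        obtain ⟨hx1, hx2, hx3⟩ := hx
        by_cases hc : (r : ℤ) - max |x.1| |x.2| ≤ ((7 * 2 ^ k : ℕ) : ℤ)
        · left; left
          exact ⟨hx1, hx2, hc⟩
        · right
          refine ⟨hx1, ?_, hx3⟩
          push_cast at hc ⊢
          have : (2 : ℤ) ^ (k + 1) = 2 ^ k + 2 ^ k := by ring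
          have h1 : (0 : ℤ) < 2 ^ k := by positivity
          rw [this]
          linarith
      · have h4 := weight_le C hC r (k + 1)
        have h5 : Real.exp (-(C * r * ∑ j ∈ range (k + 1 + 1), (1 + (j : ℝ)) ^ 3 / 2 ^ j)) =
            Real.exp (-(C * r * ((1 + ((k + 1 : ℕ) : ℝ)) ^ 3 / 2 ^ (k + 1)))) *
              Real.exp (-(C * r * ∑ j ∈ range (k + 1), (1 + (j : ℝ)) ^ 3 / 2 ^ j)) := by
          rw [Finset.sum_range_succ, ← Real.exp_add]
          congr 1
          ring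
        have h6 : ((1 : ℝ) / 4) ^ (4 * 2 ^ (k + 1)) = (1 / 4) ^ (4 * 2 ^ k) * (1 / 4) ^ (4 * 2 ^ k) := by
          rw [← pow_add]
          congr 1
          ring
        rw [h5, h6]
        have h7 : 0 ≤ Real.exp (-(C * r * ∑ j ∈ range (k + 1), (1 + (j : ℝ)) ^ 3 / 2 ^ j)) *
            ((1 / 4) ^ (4 * 2 ^ k) * (1 / 4) ^ (4 * 2 ^ k)) := by positivity
        have h8 := mul_le_mul_of_nonneg_right h4 h7
        calc _ = Real.exp (-(C * r * ((1 + ((k + 1 : ℕ) : ℝ)) ^ 3 / 2 ^ (k + 1)))) *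
              (Real.exp (-(C * r * ∑ j ∈ range (k + 1), (1 + (j : ℝ)) ^ 3 / 2 ^ j)) *
                ((1 / 4) ^ (4 * 2 ^ k) * (1 / 4) ^ (4 * 2 ^ k))) := by ring
          _ ≤ _ := h8
          _ = _ := by ring

lemma sum_cube (k : ℕ) : ∑ j ∈ range (k + 1), (1 + (j : ℝ)) ^ 3 / 2 ^ j =
    52 - ((k : ℝ) ^ 3 + 9 * k ^ 2 + 33 * k + 51) / 2 ^ k := by
  induction k with
  | zero => norm_num
  | succ k ih =>
    rw [Finset.sum_range_succ, ih]
    push_cast
    field_simp
    ring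

lemma sum_cube_le (k : ℕ) : ∑ j ∈ range (k + 1), (1 + (j : ℝ)) ^ 3 / 2 ^ j ≤ 52 := by
  rw [sum_cube]
  have : 0 ≤ ((k : ℝ) ^ 3 + 9 * k ^ 2 + 33 * k + 51) / 2 ^ k := by positivity
  linarith

lemma sum_four_le (k : ℕ) : ∑ j ∈ range (k + 1), (4 : ℝ) ^ j ≤ 2 * 4 ^ k := by
  induction k with
  | zero => norm_num
  | succ k ih =>
    rw [Finset.sum_range_succ]
    have : (4 : ℝ) ^ (k + 1) = 4 * 4 ^ k := by ring
    have h : (0 : ℝ) < 4 ^ k := by positivity
    rw [this]
    linarith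

lemma log_cube (m r : ℕ) (hm : 1 ≤ m) (hmr : m ≤ r) :
    (1 + Real.log m) ^ 3 ≤ 64 * (r : ℝ) := by
  have hr1 : (1 : ℝ) ≤ r := by exact_mod_cast hm.trans hmr
  have hm0 : (0 : ℝ) < m := by exact_mod_cast hm
  have h1 : Real.log m ≤ Real.log r := Real.log_le_log hm0 (by exact_mod_cast hmr)
  have h2 : Real.log r ≤ (r : ℝ) ^ (1 / 3 : ℝ) / (1 / 3) :=
    Real.log_le_rpow_div (by linarith) (by norm_num)
  have h3 : (1 : ℝ) ≤ (r : ℝ) ^ (1 / 3 : ℝ) := Real.one_le_rpow hr1 (by norm_num)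
  have h4 : 1 + Real.log m ≤ 4 * (r : ℝ) ^ (1 / 3 : ℝ) := by
    have : (r : ℝ) ^ (1 / 3 : ℝ) / (1 / 3) = 3 * (r : ℝ) ^ (1 / 3 : ℝ) := by ring
    rw [this] at h2
    linarith
  have h5 : 0 ≤ 1 + Real.log m := by
    have := Real.log_natCast_nonneg m
    linarith
  calc (1 + Real.log m) ^ 3 ≤ (4 * (r : ℝ) ^ (1 / 3 : ℝ)) ^ 3 := pow_le_pow_left₀ h5 h4 3
    _ = 64 * (r : ℝ) := by
      rw [mul_pow, ← Real.rpow_natCast, ← Real.rpow_natCast, ← Real.rpow_mul (by linarith)]
      norm_num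

lemma quarter_pow (n : ℕ) : Real.exp (-(2 * n)) ≤ ((1 : ℝ) / 4) ^ n := by
  have h1 : Real.exp (-2) ≤ 1 / 4 := by
    have h2 : (4 : ℝ) ≤ Real.exp 2 := by
      have h3 := Real.add_one_le_exp (1 : ℝ)
      have h4 : Real.exp 2 = Real.exp 1 * Real.exp 1 := by rw [← Real.exp_add]; norm_num
      rw [h4]
      nlinarith
    rw [Real.exp_neg, inv_eq_one_div]
    exact one_div_le_one_div_of_le (by norm_num) h2
  have h2 : Real.exp (-(2 * n)) = Real.exp (-2) ^ n := by
    rw [← Real.exp_nat_mul]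
    congr 1
    ring
  rw [h2]
  exact pow_le_pow_left₀ (Real.exp_pos _).le h1 n

lemma cover_set (r K : ℕ) (hr : 4 ≤ r) (hK : r < 8 * 2 ^ K) :
    sq 0 r ⊆ ringS r 0 0 ∪ ringS r 1 (7 * 2 ^ K) ∪ sq 0 (3 * (r / 4)) := by
  intro x hx
  simp only [Finset.mem_union]
  by_cases h0 : (r : ℤ) - max |x.1| |x.2| ≤ 0
  · left; left
    simp only [ringS, Finset.mem_filter]
    refine ⟨hx, ?_, by simpa using h0⟩
    rw [mem_sq0] at hx
    have : max |x.1| |x.2| ≤ r := max_le (abs_le.2 ⟨by linarith [hx.1.1], hx.1.2⟩)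
      (abs_le.2 ⟨by linarith [hx.2.1.1], hx.2.1.2⟩)
    push_cast
    linarith
  · by_cases h1 : (r : ℤ) - max |x.1| |x.2| ≤ ((7 * 2 ^ K : ℕ) : ℤ)
    · left; right
      simp only [ringS, Finset.mem_filter]
      refine ⟨hx, ?_, h1⟩
      push_cast
      omega
    · right
      rw [mem_sq0] at hx ⊢
      have h2 : |x.1| ≤ max |x.1| |x.2| := le_max_left _ _
      have h3 : |x.2| ≤ max |x.1| |x.2| := le_max_right _ _
      set M := max |x.1| |x.2| with hM
      have h4 : M < 3 * ((r / 4 : ℕ) : ℤ) + 1 := by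
        zify at hK hr
        push_cast at h1 ⊢
        set t : ℤ := 2 ^ K with ht
        omega
      have h5 : |x.1| ≤ ((3 * (r / 4) : ℕ) : ℤ) := by push_cast at h4 ⊢; linarith
      have h6 : |x.2| ≤ ((3 * (r / 4) : ℕ) : ℤ) := by push_cast at h4 ⊢; linarith
      exact ⟨abs_le.1 h5, abs_le.1 h6, hx.2.2⟩

end Cover245

open Cover245 Finset in
theorem taskCover : TaskRing0 → TaskRing → TaskBox → TaskCover := by
  intro h0 hRing hBox
  obtain ⟨C₁, hC₁, hR⟩ := hRing
  obtain ⟨C₂, hC₂, hB⟩ := hBox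
  refine ⟨100 + 52 * C₁ + 64 * C₂, by positivity, ?_⟩
  intro r hr1
  have hr1' : (1 : ℝ) ≤ r := by exact_mod_cast hr1
  rcases lt_or_ge r 4 with hr | hr
  · -- small radii
    refine ⟨5 * r * (r + 1) + 2, ?_, ?_⟩
    · have hr3 : (r : ℝ) ≤ 3 := by exact_mod_cast (show r ≤ 3 by omega)
      push_cast
      have h1 : (5 * (r : ℝ) * (r + 1) + 2) ≤ 12 * (r : ℝ) ^ 3 := by
        nlinarith [mul_nonneg (sub_nonneg.2 hr1') (sub_nonneg.2 hr1'),
          mul_nonneg (sub_nonneg.2 hr1') (mul_nonneg (sub_nonneg.2 hr1') (sub_nonneg.2 hr1'))]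
      have h2 : 0 ≤ (r : ℝ) ^ 3 := by positivity
      nlinarith [mul_pos hC₁ (show (0 : ℝ) < 1 by norm_num), mul_nonneg hC₁.le h2,
        mul_nonneg hC₂.le h2]
    · refine Reach.mono (small h0 r hr1) (Finset.Subset.refl _) (Finset.Subset.refl _) ?_
      refine le_trans ?_ (quarter_pow _)
      apply Real.exp_le_exp.2
      have hr3 : (r : ℝ) ≤ 3 := by exact_mod_cast (show r ≤ 3 by omega)
      push_cast
      have h2 : 0 ≤ C₁ * (r : ℝ) := by positivity
      have h3 : 0 ≤ C₂ * (r : ℝ) := by positivity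
      nlinarith
  · -- large radii
    set K := Nat.log 2 (r / 4) with hK
    have hne : r / 4 ≠ 0 := by omega
    have hK1 : 2 ^ K ≤ r / 4 := Nat.pow_log_le_self 2 hne
    have hK2 : r / 4 < 2 ^ (K + 1) := Nat.lt_pow_succ_log_self (by norm_num) _
    have hK3 : 4 * 2 ^ K ≤ r := by omega
    have hK4 : r < 8 * 2 ^ K := by
      have : 2 ^ (K + 1) = 2 * 2 ^ K := by ring
      omega
    have s1 := h0 r hr1
    have s2 := Cover245.Reach.diag (H := sq 0 r) (0 : Pt) (false, true) (r - 4) (by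
      intro j hj hj'
      rw [mem_sq0]
      simp only [sg, Prod.fst_zero, Prod.snd_zero, if_true, Bool.false_eq_true, if_false]
      refine ⟨⟨?_, ?_⟩, ⟨?_, ?_⟩, ?_⟩ <;> omega)
    have e2 : (((0 : Pt).1 + (r - 4 : ℕ) * sg (false, true).1,
        (0 : Pt).2 + (r - 4 : ℕ) * sg (false, true).2) : Pt) = P r 1 := by
      simp only [P, sg, Prod.fst_zero, Prod.snd_zero, if_true, Bool.false_eq_true, if_false]
      apply Prod.ext
      · simp only
        omega
      · simp only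
        omega
    rw [e2] at s2
    obtain ⟨n₃, hn₃, s3⟩ := rings C₁ hC₁ hR r K hK3
    have s4 := Cover245.Reach.diag (H := sq 0 r) (P r (2 ^ K)) (true, false) (r - 4 * 2 ^ K) (by
      intro j hj hj'
      rw [mem_sq0]
      simp only [P, sg, if_true, Bool.false_eq_true, if_false]
      push_cast
      have h1 : (j : ℤ) ≤ (r : ℤ) - 4 * 2 ^ K := by
        have := hj'
        zify [hK3] at this
        exact this
      have h2 : (4 : ℤ) * 2 ^ K ≤ r := by exact_mod_cast hK3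
      have h3 : (0 : ℤ) < 2 ^ K := by positivity
      have h4 : (1 : ℤ) ≤ j := by exact_mod_cast hj
      refine ⟨⟨?_, ?_⟩, ⟨?_, ?_⟩, ?_⟩
      · linarith
      · linarith
      · linarith
      · linarith
      · omega)
    have e4 : (((P r (2 ^ K)).1 + (r - 4 * 2 ^ K : ℕ) * sg (true, false).1,
        (P r (2 ^ K)).2 + (r - 4 * 2 ^ K : ℕ) * sg (true, false).2) : Pt) = 0 := by
      simp only [P, sg, if_true, Bool.false_eq_true, if_false]
      rw [Nat.cast_sub hK3]
      push_cast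
      apply Prod.ext
      · simp only [Prod.fst_zero]
        ring
      · simp only [Prod.snd_zero]
        ring
    rw [e4] at s4
    have hz : (0 : Pt) ∈ sq 0 (3 * (r / 4)) := by
      rw [mem_sq0]
      simp
      omega
    obtain ⟨n₅, hn₅, s5⟩ := hB (r / 4) (by omega) 0 0 0 (by simp) hz hz
    have s5' := Cover245.Reach.mono s5 (sq0_mono (show 4 * (r / 4) ≤ r by omega))
      (Finset.Subset.refl _) le_rfl
    have t1 := Cover245.Reach.comp s1 s2 (by positivity)
    have t2 := Cover245.Reach.comp t1 s3 (by positivity)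
    have t3 := Cover245.Reach.comp t2 s4 (by positivity)
    have t4 := Cover245.Reach.comp t3 s5' (Real.exp_pos _).le
    refine ⟨_, ?_, Cover245.Reach.mono t4 (Finset.Subset.refl _) ?_ ?_⟩
    · -- time
      have a1 : ∑ j ∈ range (K + 1), (4 : ℝ) ^ j ≤ (r : ℝ) ^ 2 := by
        refine (sum_four_le K).trans ?_
        have b1 : (4 : ℝ) * 2 ^ K ≤ r := by exact_mod_cast hK3
        have b2 : (4 : ℝ) ^ K = (2 ^ K) ^ 2 := by
          rw [← pow_mul, mul_comm, pow_mul]; norm_num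
        have b3 : (0 : ℝ) < 2 ^ K := by positivity
        rw [b2]
        nlinarith
      have a2 : ((r / 4 : ℕ) : ℝ) ^ 3 ≤ (r : ℝ) ^ 3 := by
        apply pow_le_pow_left₀ (by positivity)
        exact_mod_cast Nat.div_le_self r 4
      have a3 : C₁ * r * ∑ j ∈ range (K + 1), (4 : ℝ) ^ j ≤ C₁ * (r : ℝ) ^ 3 := by
        calc C₁ * r * ∑ j ∈ range (K + 1), (4 : ℝ) ^ j ≤ C₁ * r * (r : ℝ) ^ 2 :=
              mul_le_mul_of_nonneg_left a1 (by positivity)
          _ = C₁ * (r : ℝ) ^ 3 := by ring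
      have a4 : C₂ * ((r / 4 : ℕ) : ℝ) ^ 3 ≤ C₂ * (r : ℝ) ^ 3 :=
        mul_le_mul_of_nonneg_left a2 hC₂.le
      have a5 : ((r - 4 : ℕ) : ℝ) ≤ r := by exact_mod_cast Nat.sub_le r 4
      have a6 : ((r - 4 * 2 ^ K : ℕ) : ℝ) = r - 4 * 2 ^ K := by
        rw [Nat.cast_sub hK3]; push_cast; ring
      have a7 : (r : ℝ) ≤ (r : ℝ) ^ 3 := le_self_pow₀ hr1' (by norm_num)
      have a8 : (0 : ℝ) ≤ (r : ℝ) ^ 3 := by positivity
      rw [Nat.cast_add, Nat.cast_add, Nat.cast_add, Nat.cast_add, a6]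
      push_cast
      nlinarith [mul_nonneg hC₁.le a8, mul_nonneg hC₂.le a8]
    · -- covering
      intro x hx
      have := cover_set r K hr hK4 hx
      simp only [Finset.mem_union] at this ⊢
      tauto
    · -- weight
      have b1 := quarter_pow (10 * r)
      have b2 := quarter_pow (r - 4)
      have b3 := quarter_pow (4 * 2 ^ K)
      have b4 := quarter_pow (r - 4 * 2 ^ K)
      have b5 : Real.exp (-(52 * C₁ * r)) ≤
          Real.exp (-(C₁ * r * ∑ j ∈ range (K + 1), (1 + (j : ℝ)) ^ 3 / 2 ^ j)) := by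
        apply Real.exp_le_exp.2
        have := mul_le_mul_of_nonneg_left (sum_cube_le K) (show 0 ≤ C₁ * (r : ℝ) by positivity)
        linarith
      have b6 : Real.exp (-(64 * C₂ * r)) ≤
          Real.exp (-C₂ * (1 + Real.log ((r / 4 : ℕ) : ℝ)) ^ 3) := by
        apply Real.exp_le_exp.2
        have := mul_le_mul_of_nonneg_left (log_cube (r / 4) r (by omega) (Nat.div_le_self r 4))
          hC₂.le
        linarith
      have key : Real.exp (-(100 + 52 * C₁ + 64 * C₂) * r) ≤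
          Real.exp (-(64 * C₂ * r)) * (Real.exp (-(2 * ((r - 4 * 2 ^ K : ℕ) : ℝ))) *
            ((Real.exp (-(52 * C₁ * r)) * Real.exp (-(2 * ((4 * 2 ^ K : ℕ) : ℝ)))) *
              (Real.exp (-(2 * ((r - 4 : ℕ) : ℝ))) * Real.exp (-(2 * ((10 * r : ℕ) : ℝ)))))) := by
        rw [← Real.exp_add, ← Real.exp_add, ← Real.exp_add, ← Real.exp_add, ← Real.exp_add]
        apply Real.exp_le_exp.2
        have a5 : ((r - 4 : ℕ) : ℝ) ≤ r := by exact_mod_cast Nat.sub_le r 4
        have a6 : ((r - 4 * 2 ^ K : ℕ) : ℝ) = r - 4 * 2 ^ K := by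
          rw [Nat.cast_sub hK3]; push_cast; ring
        rw [a6]
        push_cast
        nlinarith
      refine key.trans ?_
      gcongr


end Pool.Agent.H308R3.DM
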