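import Pool.Agent.H308R3.DM.PreFinal
import Pool.Agent.H811R3.DM.Bad1

set_option autoImplicit false

/-! # Assembly of the parts of the project -/

namespace Pool.Agent.H308R3.DM.Final

open Filter Topology
open scoped ENNReal
open Pool.Agent.H308R3.DM Pool.Agent.H308R3.DM.Orig

theorem bad1 : TaskBad1 := Pool.Agent.H811R3.DM.taskBad1 ub z iso int

theorem final :
    (∀ S : ℝ → Set ℂ, (∀ᶠ β in atTop, IsLimitingShape β (S β)) →
      Tendsto (fun β => dHaus (S β) diamond) atTop (𝓝 0)) ∧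
    (∀ ε : ℝ≥0∞, 0 < ε → ∃ β0 : ℝ, 0 < β0 ∧ ∀ β : ℝ, β0 ≤ β →
      Tendsto (fun t => gibbs β t {G | ε < dHaus (rescaled G) diamond}) atTop (𝓝 0)) :=
  final_of bad1

end Pool.Agent.H308R3.DM.Final
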