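import Mathlib
import Pool.Agent.H308R3.DM.Stmts

set_option autoImplicit false

/-! # Task INT of the project DIAMOND (by helper861) -/

namespace Pool.Agent.H308R3.DM

open Finset

noncomputable section

namespace IntT

lemma pos_zero {n : ℕ} (x : Pt) (ω : Fin n → Stp) : pos x ω 0 = x := by
  simp [pos]

lemma pos_succ_of_lt {n : ℕ} (x : Pt) (ω : Fin n → Stp) (k : ℕ) (hk : k < n) :
    pos x ω (k + 1) = pos x ω k + dv (ω ⟨k, hk⟩) := by
  classical
  unfold pos
  rw [add_assoc]
  congr 1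
  have h1 : ∀ i : Fin n, (if (i : ℕ) < k + 1 then dv (ω i) else 0) =
      (if (i : ℕ) < k then dv (ω i) else 0) + (if i = ⟨k, hk⟩ then dv (ω i) else 0) := by
    intro i
    by_cases h : (i : ℕ) < k
    · have h2 : i ≠ ⟨k, hk⟩ := by
        intro h3
        rw [h3] at h
        exact lt_irrefl _ h
      rw [if_pos h, if_pos (by omega), if_neg h2, add_zero]
    · by_cases h2 : i = ⟨k, hk⟩
      · rw [if_neg h, if_pos h2, if_pos (by rw [h2]; exact Nat.lt_succ_self k), zero_add]
      · have h3 : ¬ (i : ℕ) < k + 1 := by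
          intro h4
          apply h2
          apply Fin.ext
          show (i : ℕ) = k
          omega
        rw [if_neg h, if_neg h2, if_neg h3, add_zero]
  rw [Finset.sum_congr rfl fun i _ => h1 i, Finset.sum_add_distrib]
  congr 1
  rw [Finset.sum_ite_eq']
  simp

lemma pos_succ_of_le {n : ℕ} (x : Pt) (ω : Fin n → Stp) (k : ℕ) (hk : n ≤ k) :
    pos x ω (k + 1) = pos x ω k := by
  unfold pos
  congr 1
  refine Finset.sum_congr rfl fun i _ => ?_
  rw [if_pos (by omega), if_pos (by omega)]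

lemma sg_cases (b : Bool) : sg b = 1 ∨ sg b = -1 := by
  cases b <;> simp [sg]

lemma step {n : ℕ} (x : Pt) (ω : Fin n → Stp) (k : ℕ) :
    |(pos x ω (k + 1)).1 - (pos x ω k).1| ≤ 1 ∧ |(pos x ω (k + 1)).2 - (pos x ω k).2| ≤ 1 ∧
      ((pos x ω k).1 - (pos x ω k).2) % 2 = ((pos x ω (k + 1)).1 - (pos x ω (k + 1)).2) % 2 := by
  rcases lt_or_ge k n with hk | hk
  · rw [pos_succ_of_lt x ω k hk]
    simp only [dv, Prod.fst_add, Prod.snd_add]
    rcases sg_cases (ω ⟨k, hk⟩).1 with h1 | h1 <;> rcases sg_cases (ω ⟨k, hk⟩).2 with h2 | h2 <;>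
      rw [h1, h2] <;> refine ⟨?_, ?_, ?_⟩ <;> first | (rw [abs_le]; constructor <;> omega) | omega
  · rw [pos_succ_of_le x ω k hk]
    simp

lemma interval (f : ℕ → ℤ) (hf : ∀ k, |f (k + 1) - f k| ≤ 1) (n : ℕ) :
    ∃ a b : ℤ, a ≤ f 0 ∧ f 0 ≤ b ∧ a ≤ f n ∧ f n ≤ b ∧ (range (n + 1)).image f = Icc a b := by
  induction n with
  | zero => exact ⟨f 0, f 0, le_rfl, le_rfl, le_rfl, le_rfl, by simp⟩
  | succ n ih =>
    obtain ⟨a, b, h1, h2, h3, h4, h5⟩ := ih
    have h6 := abs_le.1 (hf n)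
    have h7 : (range (n + 1 + 1)).image f = insert (f (n + 1)) (Icc a b) := by
      rw [Finset.range_add_one, Finset.image_insert, h5]
    refine ⟨min a (f (n + 1)), max b (f (n + 1)), by omega, by omega, by omega, by omega, ?_⟩
    rw [h7]
    ext z
    simp only [mem_insert, mem_Icc]
    constructor
    · rintro (h | h) <;> constructor <;> omega
    · rintro ⟨h8, h9⟩
      by_cases hz : z = f (n + 1)
      · exact Or.inl hz
      · right
        constructor <;> omega

end IntT

theorem taskInt : TaskInt := by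
  intro n ω
  refine ⟨?_, ?_, ?_⟩
  · obtain ⟨a, b, h1, h2, -, -, h5⟩ := IntT.interval (fun k => (pos 0 ω k).1)
      (fun k => (IntT.step 0 ω k).1) n
    simp only [IntT.pos_zero] at h1 h2
    refine ⟨a, b, h1, h2, ?_⟩
    rw [← h5, pU, rng, Finset.image_image]
    rfl
  · obtain ⟨a, b, h1, h2, -, -, h5⟩ := IntT.interval (fun k => (pos 0 ω k).2)
      (fun k => (IntT.step 0 ω k).2.1) n
    simp only [IntT.pos_zero] at h1 h2
    refine ⟨a, b, h1, h2, ?_⟩
    rw [← h5, pV, rng, Finset.image_image]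
    rfl
  · intro x hx
    rw [rng, Finset.mem_image] at hx
    obtain ⟨k, -, rfl⟩ := hx
    induction k with
    | zero => simp [IntT.pos_zero]
    | succ k ih => rw [← (IntT.step 0 ω k).2.2]; exact ih

end

end Pool.Agent.H308R3.DM
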