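import Pool.Agent.H308R3.DM.Stmts

set_option autoImplicit false

namespace Pool.Agent.H308R3.DM.LBF169

open Pool.Agent.H308R3.DM
open Finset Filter Topology
open scoped Classical BigOperators ENNReal

/-- monotonicity, only supersets of the starting set matter -/
lemma ex_mono_sup (n : ℕ) : ∀ (x : Pt) (S : Finset Pt) (F G : Pt → Finset Pt → ℝ),
    (∀ y T, S ⊆ T → F y T ≤ G y T) → ex n x S F ≤ ex n x S G := by
  induction n with
  | zero =>
    intro x S F G h
    simpa [ex] using h x S (Finset.Subset.refl S)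
  | succ n ih =>
    intro x S F G h
    simp only [ex]
    have : ∑ s : Stp, ex n (x + dv s) (insert (x + dv s) S) F ≤
        ∑ s : Stp, ex n (x + dv s) (insert (x + dv s) S) G := by
      refine Finset.sum_le_sum fun s _ => ih _ _ _ _ fun y T hT => h y T ?_
      exact (Finset.subset_insert _ _).trans hT
    linarith

lemma ex_zero_fun (n : ℕ) : ∀ (x : Pt) (S : Finset Pt), ex n x S (fun _ _ => (0 : ℝ)) = 0 := by
  induction n with
  | zero => intro x S; simp [ex]
  | succ n ih => intro x S; simp [ex, ih]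

lemma ex_nonneg (n : ℕ) (x : Pt) (S : Finset Pt) (F : Pt → Finset Pt → ℝ)
    (h : ∀ y T, 0 ≤ F y T) : 0 ≤ ex n x S F := by
  have := ex_mono_sup n x S (fun _ _ => 0) F (fun y T _ => h y T)
  rwa [ex_zero_fun] at this

lemma ex_mul (n : ℕ) (c : ℝ) : ∀ (x : Pt) (S : Finset Pt) (F : Pt → Finset Pt → ℝ),
    ex n x S (fun y T => F y T * c) = ex n x S F * c := by
  induction n with
  | zero => intro x S F; simp [ex]
  | succ n ih =>
    intro x S F
    simp only [ex, ih, ← Finset.sum_mul]
    ring

/-- Markov property -/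
lemma ex_add (a b : ℕ) : ∀ (x : Pt) (S : Finset Pt) (F : Pt → Finset Pt → ℝ),
    ex (a + b) x S F = ex a x S (fun y T => ex b y T F) := by
  induction a with
  | zero => intro x S F; simp [ex]
  | succ a ih =>
    intro x S F
    rw [show a + 1 + b = (a + b) + 1 by ring]
    simp only [ex, ih]

lemma zero_mem_sq (r : ℕ) : (0 : Pt) ∈ sq 0 r := by
  simp [sq]

theorem taskLBF : TaskCover → TaskStay → TaskExSum → TaskLBF := by
  rintro ⟨C, hC, hcov⟩ hstay hsum
  refine ⟨C, hC, fun r hr n hn => ?_⟩
  obtain ⟨n0, hn0, hreach⟩ := hcov r hr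
  have hle : n0 ≤ n := by exact_mod_cast hn0.trans hn
  obtain ⟨m, rfl⟩ := Nat.exists_eq_add_of_le hle
  set c : ℝ := Real.cos (Real.pi / (2 * (r + 1))) ^ 2 with hc
  have hc0 : 0 ≤ c := sq_nonneg _
  have hc1 : c ≤ 1 := Real.cos_sq_le_one _
  have key : Real.exp (-C * r) * c ^ m ≤
      ex (n0 + m) 0 {0} (fun _ T => if T = sq 0 r then (1 : ℝ) else 0) := by
    rw [ex_add]
    calc Real.exp (-C * r) * c ^ m
        ≤ ex n0 0 {0} (fun y' S' => if y' = 0 ∧ sq 0 r ⊆ S' ∧ S' ⊆ {0} ∪ sq 0 r then 1 else 0)
            * c ^ m := by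
          have := hreach {0}
          gcongr
      _ = ex n0 0 {0} (fun y' S' =>
            (if y' = 0 ∧ sq 0 r ⊆ S' ∧ S' ⊆ {0} ∪ sq 0 r then (1 : ℝ) else 0) * c ^ m) :=
          (ex_mul _ _ _ _ _).symm
      _ ≤ _ := by
          refine ex_mono_sup _ _ _ _ _ fun y T _ => ?_
          split_ifs with h
          · obtain ⟨rfl, h1, h2⟩ := h
            have hT : T = sq 0 r := by
              refine Finset.Subset.antisymm (h2.trans ?_) h1
              refine Finset.union_subset ?_ (Finset.Subset.refl _)
              simpa using zero_mem_sq r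
            subst hT
            rw [one_mul]
            refine (hstay r m (sq 0 r)).trans (ex_mono_sup _ _ _ _ _ fun y T hT => ?_)
            split_ifs with h3 h4 h5
            · exact le_refl _
            · exact absurd (Finset.Subset.antisymm (by simpa using h3) hT) h4
            · exact zero_le_one
            · exact le_refl _
          · rw [zero_mul]
            refine ex_nonneg _ _ _ _ fun y T => ?_
            split_ifs <;> norm_num
  have hpow : c ^ (n0 + m) ≤ c ^ m := pow_le_pow_of_le_one hc0 hc1 (Nat.le_add_left _ _)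
  have h1 : Real.exp (-C * r) * c ^ (n0 + m) ≤ Real.exp (-C * r) * c ^ m := by gcongr
  refine h1.trans (key.trans (le_of_eq ?_))
  rw [hsum (n0 + m) 0]
  congr 1
  rw [Finset.card_filter]
  push_cast
  refine Finset.sum_congr rfl fun ω _ => ?_
  split_ifs <;> rfl

end Pool.Agent.H308R3.DM.LBF169
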