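import Pool.Agent.H308R3.DM.Asm

set_option autoImplicit false

/-! # Original coordinates: definitions of the model and transfer to rotated coordinates -/

namespace Pool.Agent.H308R3.DM.Orig

open Finset Filter Topology
open scoped Classical BigOperators ENNReal

noncomputable section

/-- the four unit vectors, indexed by `Bool × Bool` -/
def step : Bool × Bool → ℤ × ℤ
  | (true, true) => (1, 0)
  | (true, false) => (0, 1)
  | (false, true) => (0, -1)
  | (false, false) => (-1, 0)

/-- position after `k` jumps -/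
def position {n : ℕ} (ω : Fin n → Bool × Bool) (k : ℕ) : ℤ × ℤ :=
  ∑ i : Fin n, if (i : ℕ) < k then step (ω i) else 0

/-- the set of sites visited by the walk with jumps `ω`, started at the origin -/
def visited {n : ℕ} (ω : Fin n → Bool × Bool) : Finset (ℤ × ℤ) :=
  (Finset.range (n + 1)).image (position ω)

def Adj (x y : ℤ × ℤ) : Prop := |x.1 - y.1| + |x.2 - y.2| = 1

/-- inner vertex boundary -/
def innerBoundary (G : Finset (ℤ × ℤ)) : Finset (ℤ × ℤ) :=
  G.filter fun x => ∃ y, Adj x y ∧ y ∉ G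

/-- `𝔼 f(R_t)` -/
def expect (t : ℝ) (f : Finset (ℤ × ℤ) → ℝ) : ℝ :=
  ∑' n : ℕ, Real.exp (-t) * t ^ n / n.factorial *
    ((∑ ω : Fin n → Bool × Bool, f (visited ω)) / 4 ^ n)

/-- `μ_t (R_t ∈ A)` -/
def gibbs (β t : ℝ) (A : Set (Finset (ℤ × ℤ))) : ℝ :=
  expect t (fun G => if G ∈ A then Real.exp (-β * (innerBoundary G).card) else 0) /
    expect t (fun G => Real.exp (-β * (innerBoundary G).card))

def toC (x : ℤ × ℤ) : ℂ := ⟨x.1, x.2⟩

/-- `R / diam R` as a subset of the plane -/
def rescaled (G : Finset (ℤ × ℤ)) : Set ℂ :=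
  (fun z : ℂ => z / (Metric.diam (toC '' (G : Set (ℤ × ℤ))) : ℂ)) '' (toC '' (G : Set (ℤ × ℤ)))

/-- `inf_z d_Haus (A, z + B)` -/
def dHaus (A B : Set ℂ) : ℝ≥0∞ := ⨅ z : ℂ, Metric.hausdorffEDist A ((fun x => z + x) '' B)

/-- `S` is a limiting shape for `β` -/
def IsLimitingShape (β : ℝ) (S : Set ℂ) : Prop :=
  ∀ ε : ℝ≥0∞, 0 < ε → Tendsto (fun t => gibbs β t {G | ε < dHaus (rescaled G) S}) atTop (𝓝 0)

/-- the diamond of unit diameter -/
def diamond : Set ℂ := {z | |z.re| + |z.im| ≤ 1 / 2}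

/-! ## transfer -/

def rot (x : ℤ × ℤ) : Pt := (x.1 + x.2, x.1 - x.2)

theorem rot_inj : Function.Injective rot := by
  rintro ⟨a, b⟩ ⟨c, d⟩ h
  simp only [rot, Prod.mk.injEq] at h
  obtain ⟨h1, h2⟩ := h
  ext <;> simp only <;> omega

theorem rot_add (x y : ℤ × ℤ) : rot (x + y) = rot x + rot y := by
  simp only [rot, Prod.fst_add, Prod.snd_add]
  ext <;> simp only [Prod.fst_add, Prod.snd_add] <;> ring

def rotHom : (ℤ × ℤ) →+ Pt := AddMonoidHom.mk' rot rot_add

theorem rot_step (s : Bool × Bool) : rot (step s) = dv s := by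
  rcases s with ⟨a, b⟩
  cases a <;> cases b <;> simp [rot, step, dv, sg]

theorem rot_position {n : ℕ} (ω : Fin n → Bool × Bool) (k : ℕ) :
    rot (position ω k) = pos 0 ω k := by
  have h : rotHom (position ω k) = pos 0 ω k := by
    unfold position pos
    rw [map_sum, zero_add]
    refine Finset.sum_congr rfl fun i _ => ?_
    split_ifs
    · exact rot_step _
    · exact map_zero rotHom
  exact h

theorem image_visited {n : ℕ} (ω : Fin n → Bool × Bool) : (visited ω).image rot = rng 0 ω := by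
  unfold visited rng
  rw [Finset.image_image]
  refine Finset.image_congr fun k _ => ?_
  exact rot_position ω k

theorem adj_iff (x y : ℤ × ℤ) : Adj x y ↔ ∃ s : Bool × Bool, y = x + step s := by
  rcases x with ⟨a, b⟩
  rcases y with ⟨c, d⟩
  constructor
  · intro h
    simp only [Adj] at h
    have h1 : |a - c| = 0 ∧ |b - d| = 1 ∨ |a - c| = 1 ∧ |b - d| = 0 := by
      have := abs_nonneg (a - c)
      have := abs_nonneg (b - d)
      omega
    rcases h1 with ⟨h1, h2⟩ | ⟨h1, h2⟩
    · have h3 : a = c := by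
        have := abs_eq_zero.mp h1
        omega
      rcases (abs_eq (by norm_num : (0 : ℤ) ≤ 1)).mp h2 with h4 | h4
      · exact ⟨(false, true), by simp [step]; omega⟩
      · exact ⟨(true, false), by simp [step]; omega⟩
    · have h3 : b = d := by
        have := abs_eq_zero.mp h2
        omega
      rcases (abs_eq (by norm_num : (0 : ℤ) ≤ 1)).mp h1 with h4 | h4
      · exact ⟨(false, false), by simp [step]; omega⟩
      · exact ⟨(true, true), by simp [step]; omega⟩
  · rintro ⟨⟨u, v⟩, h⟩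
    cases u <;> cases v <;> simp [step] at h <;> obtain ⟨rfl, rfl⟩ := h <;> simp [Adj]

theorem mem_image_rot (G : Finset (ℤ × ℤ)) (x : ℤ × ℤ) : rot x ∈ G.image rot ↔ x ∈ G := by
  constructor
  · intro h
    obtain ⟨y, hy, hxy⟩ := Finset.mem_image.mp h
    rwa [← rot_inj hxy]
  · exact fun h => Finset.mem_image_of_mem rot h

theorem card_boundary (G : Finset (ℤ × ℤ)) : (innerBoundary G).card = (bd (G.image rot)).card := by
  rw [← Finset.card_image_of_injective (innerBoundary G) rot_inj]
  congr 1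
  ext x
  constructor
  · intro h
    obtain ⟨y, hy, rfl⟩ := Finset.mem_image.mp h
    simp only [innerBoundary, Finset.mem_filter] at hy
    obtain ⟨h1, z, h2, h3⟩ := hy
    obtain ⟨s, rfl⟩ := (adj_iff y z).mp h2
    simp only [bd, Finset.mem_filter]
    refine ⟨(mem_image_rot G y).mpr h1, s, ?_⟩
    rw [← rot_step, ← rot_add, mem_image_rot]
    exact h3
  · intro h
    simp only [bd, Finset.mem_filter] at h
    obtain ⟨h1, s, h2⟩ := h
    obtain ⟨y, hy, rfl⟩ := Finset.mem_image.mp h1
    refine Finset.mem_image_of_mem rot ?_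
    simp only [innerBoundary, Finset.mem_filter]
    rw [← rot_step, ← rot_add, mem_image_rot] at h2
    exact ⟨hy, y + step s, (adj_iff _ _).mpr ⟨s, rfl⟩, h2⟩

theorem emb_rot (x : ℤ × ℤ) : emb (rot x) = toC x := by
  unfold emb rot toC
  apply Complex.ext <;> simp only <;> push_cast <;> ring

theorem image_emb (G : Finset (ℤ × ℤ)) :
    emb '' ((G.image rot : Finset Pt) : Set Pt) = toC '' (G : Set (ℤ × ℤ)) := by
  rw [Finset.coe_image, Set.image_image]
  exact Set.image_congr fun x _ => emb_rot x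

theorem shape_rot (G : Finset (ℤ × ℤ)) : shape (G.image rot) = rescaled G := by
  unfold shape rescaled
  rw [image_emb]

theorem expect_eq (t : ℝ) (f : Finset (ℤ × ℤ) → ℝ) (g : Finset Pt → ℝ)
    (h : ∀ G, f G = g (G.image rot)) : expect t f = Es t g := by
  unfold expect Es
  refine tsum_congr fun n => ?_
  congr 2
  refine Finset.sum_congr rfl fun ω _ => ?_
  rw [h, image_visited]

theorem gibbs_eq (β t : ℝ) (A : Set (Finset (ℤ × ℤ))) (B : Set (Finset Pt))
    (h : ∀ G, G ∈ A ↔ G.image rot ∈ B) : gibbs β t A = mu β t B := by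
  unfold gibbs mu
  congr 1
  · refine expect_eq t _ _ fun G => ?_
    simp only [h G, wt, card_boundary]
  · refine expect_eq t _ _ fun G => ?_
    simp only [wt, card_boundary]

/-! ## the distance up to translation -/

theorem dHaus_comm (A B : Set ℂ) : dHaus A B ≤ dHaus B A := by
  unfold dHaus
  refine le_iInf fun z => ?_
  refine (iInf_le _ (-z)).trans (le_of_eq ?_)
  have h : Metric.hausdorffEDist A ((fun x => -z + x) '' B) =
      Metric.hausdorffEDist ((fun x => z + x) '' A) ((fun x => z + x) '' ((fun x => -z + x) '' B)) :=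
    (Metric.hausdorffEDist_image (isometry_add_left z)).symm
  rw [h, Set.image_image]
  simp only [add_neg_cancel_left, Set.image_id']
  exact Metric.hausdorffEDist_comm

theorem dHaus_triangle (A B C : Set ℂ) : dHaus A C ≤ dHaus A B + dHaus B C := by
  unfold dHaus
  rw [ENNReal.iInf_add]
  refine le_iInf fun z1 => ?_
  rw [ENNReal.add_iInf]
  refine le_iInf fun z2 => ?_
  refine (iInf_le _ (z1 + z2)).trans ?_
  refine Metric.hausdorffEDist_triangle (t := (fun x => z1 + x) '' B) |>.trans ?_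
  refine add_le_add le_rfl (le_of_eq ?_)
  have h : (fun x => z1 + z2 + x) '' C = (fun x => z1 + x) '' ((fun x => z2 + x) '' C) := by
    rw [Set.image_image]
    simp only [add_assoc]
  rw [h]
  exact Metric.hausdorffEDist_image (isometry_add_left z1)

theorem dHaus_symm (A B : Set ℂ) : dHaus A B = dHaus B A :=
  le_antisymm (dHaus_comm A B) (dHaus_comm B A)

/-! ## final form -/

theorem hd_eq (A B : Set ℂ) : hd A B = dHaus A B := rfl

theorem gibbs_shape (β t : ℝ) (ε : ℝ≥0∞) :
    gibbs β t {G | ε < dHaus (rescaled G) diamond} = mu β t {G | ε < hd (shape G) Dmd} := by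
  refine gibbs_eq β t _ _ fun G => ?_
  simp only [Set.mem_ofPred_eq, shape_rot]
  exact Iff.rfl

/-- concentration of the rescaled range around the diamond -/
theorem conc (hIso : TaskIso) (hInt : TaskInt) (hBad1 : TaskBad1) (hBad2 : TaskBad2)
    (hGeo : TaskGeo) (ε : ℝ≥0∞) (hε : 0 < ε) : ∃ β0 : ℝ, 0 < β0 ∧ ∀ β : ℝ, β0 ≤ β →
      Tendsto (fun t => gibbs β t {G | ε < dHaus (rescaled G) diamond}) atTop (𝓝 0) := by
  rcases eq_or_ne ε ⊤ with rfl | htop
  · refine ⟨1, one_pos, fun β _ => ?_⟩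
    have h : (fun t => gibbs β t {G | (⊤ : ℝ≥0∞) < dHaus (rescaled G) diamond}) = fun _ => 0 := by
      ext t
      have h1 : {G : Finset (ℤ × ℤ) | (⊤ : ℝ≥0∞) < dHaus (rescaled G) diamond} = ∅ := by
        ext G
        simp
      rw [h1]
      unfold gibbs expect
      simp
    rw [h]
    exact tendsto_const_nhds
  · have h1 : 0 < ε.toReal := ENNReal.toReal_pos hε.ne' htop
    obtain ⟨β0, h2, h3⟩ := main_rot hIso hInt hBad1 hBad2 hGeo ε.toReal h1
    refine ⟨β0, h2, fun β hβ => ?_⟩
    have h4 := h3 β hβ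
    rw [ENNReal.ofReal_toReal htop] at h4
    simpa only [gibbs_shape] using h4

theorem shape_close (hIso : TaskIso) (hInt : TaskInt) (hBad1 : TaskBad1) (hBad2 : TaskBad2)
    (hGeo : TaskGeo) (ε : ℝ≥0∞) (hε : 0 < ε) : ∃ β0 : ℝ, 0 < β0 ∧ ∀ β : ℝ, β0 ≤ β →
      ∀ S : Set ℂ, IsLimitingShape β S → dHaus S diamond ≤ ε := by
  obtain ⟨β0, hβ0, h⟩ := conc hIso hInt hBad1 hBad2 hGeo (ε / 2) (ENNReal.half_pos hε.ne')
  refine ⟨β0, hβ0, fun β hβ S hS => ?_⟩
  have h1 := (h β hβ).add (hS (ε / 2) (ENNReal.half_pos hε.ne'))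
  rw [add_zero] at h1
  have hβ' : 0 < β := hβ0.trans_le hβ
  by_contra hcon
  push Not at hcon
  have h2 : ∀ᶠ t in atTop, (1 : ℝ) ≤ gibbs β t {G | ε / 2 < dHaus (rescaled G) diamond} +
      gibbs β t {G | ε / 2 < dHaus (rescaled G) S} := by
    filter_upwards [eventually_ge_atTop 0] with t ht
    have e1 : gibbs β t {G | ε / 2 < dHaus (rescaled G) diamond} =
        mu β t {G | ε / 2 < dHaus (shape G) diamond} := by
      refine gibbs_eq β t _ _ fun G => ?_
      simp only [Set.mem_ofPred_eq, shape_rot]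
    have e2 : gibbs β t {G | ε / 2 < dHaus (rescaled G) S} =
        mu β t {G | ε / 2 < dHaus (shape G) S} := by
      refine gibbs_eq β t _ _ fun G => ?_
      simp only [Set.mem_ofPred_eq, shape_rot]
    rw [e1, e2, ← mu_univ hβ'.le ht]
    refine mu_le_add hβ'.le ht fun n ω _ => ?_
    by_contra h3
    push Not at h3
    obtain ⟨h4, h5⟩ := h3
    simp only [Set.mem_ofPred_eq, not_lt] at h4 h5
    have h6 := dHaus_triangle S (shape (rng 0 ω)) diamond
    rw [dHaus_symm S (shape (rng 0 ω))] at h6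
    have h7 : dHaus S diamond ≤ ε := by
      refine h6.trans ((add_le_add h5 h4).trans (le_of_eq ?_))
      exact ENNReal.add_halves ε
    exact absurd h7 (not_le.mpr hcon)
  have h3 := ge_of_tendsto h1 h2
  linarith

/-- `S(β)` converges to the diamond as `β → ∞` -/
theorem tendsto_shape (hIso : TaskIso) (hInt : TaskInt) (hBad1 : TaskBad1) (hBad2 : TaskBad2)
    (hGeo : TaskGeo) (S : ℝ → Set ℂ) (hS : ∀ᶠ β in atTop, IsLimitingShape β (S β)) :
    Tendsto (fun β => dHaus (S β) diamond) atTop (𝓝 0) := by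
  rw [ENNReal.tendsto_nhds_zero]
  intro ε hε
  obtain ⟨β0, -, h⟩ := shape_close hIso hInt hBad1 hBad2 hGeo ε hε
  filter_upwards [hS, eventually_ge_atTop β0] with β h1 h2
  exact h β h2 (S β) h1

end

end Pool.Agent.H308R3.DM.Orig
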