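import Pool.Agent.H308R3.DM.Stmts

/-! # Task RET: return probabilities -/

set_option autoImplicit false

namespace Pool.Agent.H308R3.DM

theorem ret_nonneg (A n : ℕ) : ∀ x y : ℤ, 0 ≤ q A n x y := by
  induction n with
  | zero => intro x y; unfold q; split_ifs <;> norm_num
  | succ n ih =>
    intro x y
    unfold q
    split_ifs
    · have h1 := ih (x - 1) y
      have h2 := ih (x + 1) y
      positivity
    · exact le_refl _

theorem ret_odd (A n : ℕ) : ∀ x y : ℤ, (x + y + n) % 2 = 1 → q A n x y = 0 := by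
  induction n with
  | zero =>
    intro x y h
    unfold q
    rw [if_neg]
    rintro ⟨rfl, -⟩
    simp at h
    omega
  | succ n ih =>
    intro x y h
    push_cast at h
    unfold q
    rw [ih (x - 1) y (by omega), ih (x + 1) y (by omega)]
    simp

theorem ret_far (A n : ℕ) : ∀ x y : ℤ, x - y < -(n : ℤ) → q A n x y = 0 := by
  induction n with
  | zero =>
    intro x y h
    unfold q
    rw [if_neg]
    rintro ⟨rfl, -⟩
    simp at h
  | succ n ih =>
    intro x y h
    push_cast at h
    unfold q
    rw [ih (x - 1) y (by omega), ih (x + 1) y (by omega)]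
    simp

theorem ret_le (A n : ℕ) : ∀ (x y : ℤ) (k : ℕ), x - y = 2 * (k : ℤ) - n →
    q A n x y ≤ (n.choose k : ℝ) / 2 ^ n := by
  induction n with
  | zero =>
    intro x y k h
    unfold q
    split_ifs with hc
    · have hk : k = 0 := by
        have := hc.1
        push_cast at h
        omega
      subst hk
      simp
    · positivity
  | succ n ih =>
    intro x y k h
    push_cast at h
    unfold q
    split_ifs with hc
    · have h2 := ih (x + 1) y k (by omega)
      rcases k with _ | k
      · have h1 := ret_far A n (x - 1) y (by push_cast at h; omega)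
        rw [h1]
        simp only [Nat.choose_zero_right, Nat.cast_one] at h2 ⊢
        rw [pow_succ]
        have : (1 : ℝ) / (2 ^ n * 2) = (1 / 2 ^ n) / 2 := by rw [div_div]
        rw [this]
        linarith
      · have h1 := ih (x - 1) y k (by push_cast at h; omega)
        rw [Nat.choose_succ_succ, pow_succ]
        push_cast
        have : ((n.choose k : ℝ) + (n.choose (k + 1) : ℝ)) / (2 ^ n * 2) =
            ((n.choose k : ℝ) / 2 ^ n + (n.choose (k + 1) : ℝ) / 2 ^ n) / 2 := by
          rw [← div_div]; ring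
        rw [this]
        linarith
    · positivity

theorem ret_central (j : ℕ) : (((2 * j).choose j : ℝ) / 2 ^ (2 * j)) ^ 2 * (2 * j + 1) ≤ 1 := by
  induction j with
  | zero => simp
  | succ j ih =>
    have h1 : ((j : ℝ) + 1) * ((2 * (j + 1)).choose (j + 1) : ℝ) =
        2 * (2 * j + 1) * ((2 * j).choose j : ℝ) := by
      have := Nat.succ_mul_centralBinom_succ j
      unfold Nat.centralBinom at this
      exact_mod_cast this
    have h2 : ((2 * (j + 1)).choose (j + 1) : ℝ) / 2 ^ (2 * (j + 1)) =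
        ((2 * j).choose j : ℝ) / 2 ^ (2 * j) * ((2 * j + 1) / (2 * (j + 1))) := by
      have e : (2 : ℝ) ^ (2 * (j + 1)) = 2 ^ (2 * j) * 4 := by
        rw [mul_add, pow_add]; norm_num
      rw [e]
      have hj : (0 : ℝ) < (j : ℝ) + 1 := by positivity
      have hp : (0 : ℝ) < (2 : ℝ) ^ (2 * j) := by positivity
      rw [div_mul_div_comm, div_eq_div_iff (by positivity) (by positivity)]
      linear_combination (2 * (2 : ℝ) ^ (2 * j)) * h1
    rw [h2]
    set a : ℝ := ((2 * j).choose j : ℝ) / 2 ^ (2 * j) with ha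
    have h3 : ((2 * (j : ℝ) + 1) / (2 * (j + 1))) ^ 2 * (2 * ((j + 1 : ℕ) : ℝ) + 1) ≤ 2 * j + 1 := by
      rw [div_pow, div_mul_eq_mul_div, div_le_iff₀ (by positivity)]
      push_cast
      nlinarith [sq_nonneg ((j : ℝ)), (Nat.cast_nonneg j : (0 : ℝ) ≤ j)]
    calc (a * ((2 * (j : ℝ) + 1) / (2 * (j + 1)))) ^ 2 * (2 * ((j + 1 : ℕ) : ℝ) + 1)
        = a ^ 2 * (((2 * (j : ℝ) + 1) / (2 * (j + 1))) ^ 2 * (2 * ((j + 1 : ℕ) : ℝ) + 1)) := by ring
      _ ≤ a ^ 2 * (2 * j + 1) := mul_le_mul_of_nonneg_left h3 (sq_nonneg _)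
      _ ≤ 1 := ih

/-- RET. Return probabilities. -/
theorem taskRet : TaskRet := by
  intro A i x
  refine ⟨ret_nonneg A i x x, ?_⟩
  rcases Nat.even_or_odd i with ⟨j, hj⟩ | ⟨j, hj⟩
  · have hj' : i = 2 * j := by omega
    subst hj'
    have h1 := ret_le A (2 * j) x x j (by push_cast; ring)
    refine h1.trans ?_
    have h2 := ret_central j
    have hpos : (0 : ℝ) < 2 * j + 1 := by positivity
    rw [le_div_iff₀ (by positivity)]
    have h3 : ((2 * j).choose j : ℝ) / 2 ^ (2 * j) * Real.sqrt (((2 * j : ℕ) : ℝ) + 1) =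
        Real.sqrt ((((2 * j).choose j : ℝ) / 2 ^ (2 * j)) ^ 2 * (2 * j + 1)) := by
      rw [Real.sqrt_mul (sq_nonneg _), Real.sqrt_sq (by positivity)]
      push_cast
      rfl
    rw [h3]
    exact Real.sqrt_le_one.mpr h2
  · have h1 := ret_odd A i x x (by subst hj; push_cast; omega)
    rw [h1]
    positivity

end Pool.Agent.H308R3.DM
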