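import Pool.Agent.H308R3.DM.Stmts

set_option autoImplicit false

/-! # TaskThin (helper192) -/

namespace Pool.Agent.H308R3.DM

open Finset Filter Topology
open scoped Classical BigOperators ENNReal

noncomputable section

namespace Thin192

theorem pos_snoc {n : ℕ} (x : Pt) (ω : Fin n → Stp) (s : Stp) (k : ℕ) (hk : k ≤ n) :
    pos x (Fin.snoc ω s : Fin (n+1) → Stp) k = pos x ω k := by
  unfold pos
  rw [Fin.sum_univ_castSucc]
  simp [Fin.snoc_castSucc, not_lt.mpr hk]

theorem pos_succ {n : ℕ} (x : Pt) (ω : Fin n → Stp) (i : Fin n) :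
    pos x ω (i+1) = pos x ω i + dv (ω i) := by
  unfold pos
  rw [add_assoc]
  congr 1
  have key : ∀ j : Fin n, (if (j:ℕ) < (i:ℕ)+1 then dv (ω j) else 0)
      = (if (j:ℕ) < i then dv (ω j) else 0) + (if j = i then dv (ω i) else 0) := by
    intro j
    by_cases h : j = i
    · subst h; simp
    · have h1 : (j:ℕ) ≠ i := fun h' => h (Fin.ext h')
      by_cases h2 : (j:ℕ) < i
      · simp [h, h2, Nat.lt_succ_of_lt h2]
      · have h3 : ¬ (j:ℕ) < i+1 := by omega
        rw [if_neg h3, if_neg h2, if_neg h]; simp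
  rw [Finset.sum_congr rfl (fun j _ => key j), Finset.sum_add_distrib]
  simp

/-- weight of a step -/
def wf (thin : Pt → Prop) (d : Pt → Stp) (x : Pt) (s : Stp) : ℝ :=
  if thin x then (if s = d x then 0 else 4/3) else 1

theorem wf_nonneg (thin : Pt → Prop) (d : Pt → Stp) (x : Pt) (s : Stp) : 0 ≤ wf thin d x s := by
  unfold wf; split_ifs <;> norm_num

theorem wf_sum (thin : Pt → Prop) (d : Pt → Stp) (x : Pt) : ∑ s : Stp, wf thin d x s = 4 := by
  unfold wf
  by_cases h : thin x
  · simp only [h, if_true]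
    have h1 : ∀ s : Stp, (if s = d x then (0:ℝ) else 4/3) = 4/3 - (if s = d x then 4/3 else 0) := by
      intro s; split_ifs <;> norm_num
    rw [Finset.sum_congr rfl (fun s _ => h1 s), Finset.sum_sub_distrib]
    simp [Fintype.card_prod]
    norm_num
  · simp only [h, if_false]
    simp [Fintype.card_prod]

theorem wf_prod (thin : Pt → Prop) (d : Pt → Stp) (x : Pt) : ∀ (n : ℕ),
    ∑ ω : Fin n → Stp, ∏ i : Fin n, wf thin d (pos x ω i) (ω i) = 4 ^ n
  | 0 => by simp
  | n+1 => by
    rw [← (Fin.snocEquiv (fun _ => Stp)).sum_comp, Fintype.sum_prod_type_right]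
    have h1 : ∀ (ω : Fin n → Stp) (s : Stp),
        (∏ i : Fin (n+1), wf thin d (pos x ((Fin.snocEquiv (fun _ => Stp)) (s, ω)) i)
          ((Fin.snocEquiv (fun _ => Stp)) (s, ω) i))
        = (∏ i : Fin n, wf thin d (pos x ω i) (ω i)) * wf thin d (pos x ω n) s := by
      intro ω s
      have e : (Fin.snocEquiv (fun _ : Fin (n+1) => Stp)) (s, ω) = (Fin.snoc ω s : Fin (n+1) → Stp) := rfl
      rw [e, Fin.prod_univ_castSucc]
      congr 1
      · refine Finset.prod_congr rfl (fun i _ => ?_)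
        rw [Fin.snoc_castSucc]
        congr 1
        exact pos_snoc x ω s _ (le_of_lt i.2)
      · rw [Fin.snoc_last]
        congr 1
        exact pos_snoc x ω s _ le_rfl
    have h2 : ∀ ω : Fin n → Stp, ∑ s : Stp,
        (∏ i : Fin (n+1), wf thin d (pos x ((Fin.snocEquiv (fun _ => Stp)) (s, ω)) i)
          ((Fin.snocEquiv (fun _ => Stp)) (s, ω) i))
        = (∏ i : Fin n, wf thin d (pos x ω i) (ω i)) * 4 := by
      intro ω
      rw [Finset.sum_congr rfl (fun s _ => h1 ω s), ← Finset.mul_sum, wf_sum]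
    rw [Finset.sum_congr rfl (fun ω _ => h2 ω), ← Finset.sum_mul, wf_prod thin d x n]
    ring

/-- extension of a field on `L` -/
def ext (L : Finset Pt) (d : L → Stp) (x : Pt) : Stp := if h : x ∈ L then d ⟨x, h⟩ else (true, true)

theorem count_fields (L V : Finset Pt) (hV : V ⊆ L) (m : Pt → Stp) (b : ℕ) (hb : V.card ≤ b) :
    (4:ℝ) ^ L.card ≤ 4 ^ b *
      (((univ : Finset (L → Stp)).filter (fun d => ∀ x ∈ V, ext L d x = m x)).card : ℝ) := by
  set t : L → Finset Stp := fun x => if (x : Pt) ∈ V then {m x} else univ with ht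
  have h1 : (univ : Finset (L → Stp)).filter (fun d => ∀ x ∈ V, ext L d x = m x)
      = Fintype.piFinset t := by
    ext d
    simp only [Finset.mem_filter, Finset.mem_univ, true_and, Fintype.mem_piFinset, ht]
    constructor
    · intro h x
      by_cases hx : (x : Pt) ∈ V
      · have := h x hx
        simp only [hx, if_true, Finset.mem_singleton]
        simpa [ext] using this
      · simp [hx]
    · intro h x hx
      have := h ⟨x, hV hx⟩
      simp only [hx, if_true, Finset.mem_singleton] at this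
      simpa [ext, hV hx] using this
  rw [h1, Fintype.card_piFinset]
  have h2 : (∏ x : L, (t x).card) * (∏ x : L, (if (x : Pt) ∈ V then 4 else 1)) = 4 ^ L.card := by
    rw [← Finset.prod_mul_distrib]
    have : ∀ x : L, (t x).card * (if (x : Pt) ∈ V then 4 else 1) = 4 := by
      intro x
      by_cases hx : (x : Pt) ∈ V
      · simp [ht, hx]
      · simp [ht, hx, Fintype.card_prod]
    rw [Finset.prod_congr rfl (fun x _ => this x)]
    simp
  have h3 : (∏ x : L, (if (x : Pt) ∈ V then 4 else 1)) = 4 ^ V.card := by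
    have e1 : (∏ x : L, (if (x : Pt) ∈ V then 4 else 1)) = ∏ x ∈ L, (if x ∈ V then 4 else 1) :=
      Finset.prod_coe_sort L (fun x => if x ∈ V then 4 else 1)
    rw [e1, Finset.prod_ite, Finset.prod_const, Finset.prod_const_one, mul_one]
    congr 2
    ext x
    simp only [Finset.mem_filter]
    exact ⟨fun h => h.2, fun h => ⟨hV h, h⟩⟩
  rw [h3] at h2
  have h4 : (4:ℝ) ^ L.card = ((∏ x : L, (t x).card : ℕ) : ℝ) * 4 ^ V.card := by
    exact_mod_cast h2.symm
  rw [h4, mul_comm]
  have h5 : (4:ℝ) ^ V.card ≤ 4 ^ b := pow_le_pow_right₀ (by norm_num) hb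
  have h6 : (0:ℝ) ≤ ((∏ x : L, (t x).card : ℕ) : ℝ) := Nat.cast_nonneg _
  nlinarith [mul_le_mul_of_nonneg_right h5 h6]

theorem card_fix (n : ℕ) (p : ℕ → Prop) :
    (Finset.filter (fun i : ℕ => p i) (do let a ← (univ : Finset (Fin n)); pure (a : ℕ))).card
      = ((univ : Finset (Fin n)).filter (fun i : Fin n => p (i : ℕ))).card := by
  have h : (do let a ← (univ : Finset (Fin n)); pure (a : ℕ) : Finset ℕ)
      = (univ : Finset (Fin n)).image (fun a : Fin n => (a : ℕ)) := by
    ext x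
    simp [Finset.bind_def, Finset.pure_def]
    constructor
    · intro hx; exact ⟨⟨x, hx⟩, rfl⟩
    · rintro ⟨a, rfl⟩; exact a.2
  rw [h, Finset.filter_image, Finset.card_image_of_injective _ Fin.val_injective]

end Thin192

open Thin192 in
theorem taskThin : TaskThin := by
  intro n b k thin
  set W := (univ : Finset (Fin n → Stp)).filter (fun ω =>
      (∀ x ∈ rng 0 ω, thin x → x ∈ bd (rng 0 ω)) ∧ (bd (rng 0 ω)).card ≤ b ∧
      k ≤ ((univ : Finset (Fin n)).filter (fun i => thin (pos 0 ω i))).card) with hW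
  set L : Finset Pt := (univ : Finset (Fin n → Stp)).biUnion (fun ω => rng 0 ω) with hL
  have hrL : ∀ ω : Fin n → Stp, rng 0 ω ⊆ L := by
    intro ω
    exact Finset.subset_biUnion_of_mem (fun ω => rng 0 ω) (Finset.mem_univ ω)
  -- total mass
  have htot : ∑ ω : Fin n → Stp, ∑ d : L → Stp, ∏ i : Fin n, wf thin (ext L d) (pos 0 ω i) (ω i)
      = 4 ^ L.card * 4 ^ n := by
    rw [Finset.sum_comm]
    rw [Finset.sum_congr rfl (fun d _ => wf_prod thin (ext L d) 0 n)]
    simp [Fintype.card_prod]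
  -- lower bound
  have hlow : ∀ ω ∈ W, (4:ℝ) ^ L.card * (4/3) ^ k ≤
      4 ^ b * ∑ d : L → Stp, ∏ i : Fin n, wf thin (ext L d) (pos 0 ω i) (ω i) := by
    intro ω hω
    rw [hW, Finset.mem_filter] at hω
    obtain ⟨-, hbd, hcard, hk⟩ := hω
    -- missing directions
    have hm : ∀ x : Pt, ∃ s : Stp, x ∈ bd (rng 0 ω) → x + dv s ∉ rng 0 ω := by
      intro x
      by_cases hx : x ∈ bd (rng 0 ω)
      · have := (Finset.mem_filter.mp hx).2
        obtain ⟨s, hs⟩ := this
        exact ⟨s, fun _ => hs⟩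
      · exact ⟨(true, true), fun h => absurd h hx⟩
    choose m hm using hm
    set V : Finset Pt := (rng 0 ω).filter thin with hV
    have hVb : V ⊆ bd (rng 0 ω) := by
      intro x hx
      rw [hV, Finset.mem_filter] at hx
      exact hbd x hx.1 hx.2
    have hVL : V ⊆ L := fun x hx => hrL ω (Finset.mem_filter.mp hx).1
    have hVc : V.card ≤ b := (Finset.card_le_card hVb).trans hcard
    have hcf := count_fields L V hVL m b hVc
    set D := (univ : Finset (L → Stp)).filter (fun d => ∀ x ∈ V, ext L d x = m x) with hD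
    have hgood : ∀ d ∈ D, (4/3 : ℝ) ^ k ≤ ∏ i : Fin n, wf thin (ext L d) (pos 0 ω i) (ω i) := by
      intro d hd
      rw [hD, Finset.mem_filter] at hd
      have hd := hd.2
      have hmem : ∀ j ≤ n, pos 0 ω j ∈ rng 0 ω := by
        intro j hj
        exact Finset.mem_image.mpr ⟨j, Finset.mem_range.mpr (by omega), rfl⟩
      have hfac : ∀ i : Fin n, wf thin (ext L d) (pos 0 ω i) (ω i)
          = if thin (pos 0 ω i) then 4/3 else 1 := by
        intro i
        unfold wf
        by_cases ht : thin (pos 0 ω i)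
        · rw [if_pos ht, if_pos ht]
          have hiV : pos 0 ω i ∈ V := Finset.mem_filter.mpr ⟨hmem i (le_of_lt i.2), ht⟩
          rw [hd _ hiV, if_neg]
          intro hs
          have h1 := hm _ (hVb hiV)
          rw [← hs, ← pos_succ 0 ω i] at h1
          exact h1 (hmem (i+1) i.2)
        · rw [if_neg ht, if_neg ht]
      rw [Finset.prod_congr rfl (fun i _ => hfac i), Finset.prod_ite, Finset.prod_const,
        Finset.prod_const_one, mul_one]
      have hk' := hk
      rw [card_fix n (fun i => thin (pos 0 ω i))] at hk'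
      exact pow_le_pow_right₀ (by norm_num) hk'
    have h1 : (D.card : ℝ) * (4/3)^k ≤
        ∑ d : L → Stp, ∏ i : Fin n, wf thin (ext L d) (pos 0 ω i) (ω i) := by
      calc (D.card : ℝ) * (4/3)^k = ∑ d ∈ D, (4/3 : ℝ)^k := by
            rw [Finset.sum_const, nsmul_eq_mul]
        _ ≤ ∑ d ∈ D, ∏ i : Fin n, wf thin (ext L d) (pos 0 ω i) (ω i) := Finset.sum_le_sum hgood
        _ ≤ _ := Finset.sum_le_sum_of_subset_of_nonneg (Finset.subset_univ _)
            (fun d _ _ => Finset.prod_nonneg (fun i _ => wf_nonneg _ _ _ _))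
    calc (4:ℝ) ^ L.card * (4/3) ^ k ≤ (4 ^ b * (D.card : ℝ)) * (4/3)^k :=
          mul_le_mul_of_nonneg_right hcf (by positivity)
      _ = 4 ^ b * ((D.card : ℝ) * (4/3)^k) := by ring
      _ ≤ _ := mul_le_mul_of_nonneg_left h1 (by positivity)
  have hsum : (W.card : ℝ) * ((4:ℝ) ^ L.card * (4/3) ^ k) ≤ 4 ^ b * (4 ^ L.card * 4 ^ n) := by
    calc (W.card : ℝ) * ((4:ℝ) ^ L.card * (4/3) ^ k) = ∑ ω ∈ W, ((4:ℝ) ^ L.card * (4/3) ^ k) := by
          rw [Finset.sum_const, nsmul_eq_mul]
      _ ≤ ∑ ω ∈ W, 4 ^ b * ∑ d : L → Stp, ∏ i : Fin n, wf thin (ext L d) (pos 0 ω i) (ω i) :=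
          Finset.sum_le_sum hlow
      _ = 4 ^ b * ∑ ω ∈ W, ∑ d : L → Stp, ∏ i : Fin n, wf thin (ext L d) (pos 0 ω i) (ω i) := by
          rw [Finset.mul_sum]
      _ ≤ 4 ^ b * ∑ ω : Fin n → Stp, ∑ d : L → Stp,
            ∏ i : Fin n, wf thin (ext L d) (pos 0 ω i) (ω i) := by
          refine mul_le_mul_of_nonneg_left ?_ (by positivity)
          exact Finset.sum_le_sum_of_subset_of_nonneg (Finset.subset_univ _)
            (fun ω _ _ => Finset.sum_nonneg (fun d _ => Finset.prod_nonneg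
              (fun i _ => wf_nonneg _ _ _ _)))
      _ = 4 ^ b * (4 ^ L.card * 4 ^ n) := by rw [htot]
  have hk : (4/3 : ℝ)^k * (3/4)^k = 1 := by rw [← mul_pow]; norm_num
  have hpL : (0:ℝ) < 4 ^ L.card := by positivity
  have h34 : (0:ℝ) < (3/4 : ℝ)^k := by positivity
  have h7 : (W.card : ℝ) * 4 ^ L.card ≤ (4 ^ n * 4 ^ b * (3/4)^k) * 4 ^ L.card := by
    have := mul_le_mul_of_nonneg_right hsum h34.le
    calc (W.card : ℝ) * 4 ^ L.card = (W.card : ℝ) * ((4:ℝ) ^ L.card * (4/3) ^ k) * (3/4)^k := by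
          rw [show (W.card : ℝ) * ((4:ℝ) ^ L.card * (4/3) ^ k) * (3/4)^k
            = (W.card : ℝ) * (4:ℝ) ^ L.card * ((4/3) ^ k * (3/4)^k) by ring, hk, mul_one]
      _ ≤ _ := this
      _ = _ := by ring
  exact le_of_mul_le_mul_right h7 hpL

end

end Pool.Agent.H308R3.DM
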