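import Pool.Agent.H308R3.DM.Stmts

set_option autoImplicit false

/-! # Project DIAMOND, task UB -/

namespace Pool.Agent.H308R3.DM

open Finset Filter Topology
open scoped Classical BigOperators ENNReal

noncomputable section

namespace UB603

theorem pos_fst {n : ℕ} (ω : Fin n → Stp) (k : ℕ) :
    (pos 0 ω k).1 = upos (fun i => (ω i).1) k := by
  unfold pos upos
  rw [zero_add, Prod.fst_sum]
  refine Finset.sum_congr rfl fun i _ => ?_
  split_ifs <;> rfl

theorem pos_snd {n : ℕ} (ω : Fin n → Stp) (k : ℕ) :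
    (pos 0 ω k).2 = upos (fun i => (ω i).2) k := by
  unfold pos upos
  rw [zero_add, Prod.snd_sum]
  refine Finset.sum_congr rfl fun i _ => ?_
  split_ifs <;> rfl

theorem pos_mem {n : ℕ} (ω : Fin n → Stp) {k : ℕ} (hk : k ≤ n) : pos 0 ω k ∈ rng 0 ω :=
  Finset.mem_image_of_mem _ (Finset.mem_range.2 (by omega))

/-- number of thin times -/
def nthin {n : ℕ} (thin : Pt → Prop) (ω : Fin n → Stp) : ℕ :=
  ((univ : Finset (Fin n)).filter (fun i => thin (pos 0 ω i))).card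

/-- number of times outside `P` -/
def nout {n : ℕ} (P : Finset ℤ) (σ : Fin n → Bool) : ℕ :=
  ((univ : Finset (Fin n)).filter (fun i => upos σ i ∉ P)).card

theorem nout_fst {n : ℕ} (P : Finset ℤ) (thin : Pt → Prop) (h : ∀ x : Pt, x.1 ∉ P → thin x)
    (ω : Fin n → Stp) : nout P (fun i => (ω i).1) ≤ nthin thin ω := by
  unfold nout nthin
  refine Finset.card_le_card ?_
  intro i hi
  rw [Finset.mem_filter] at hi ⊢
  refine ⟨hi.1, h _ ?_⟩
  rw [pos_fst]
  exact hi.2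

theorem nout_snd {n : ℕ} (Q : Finset ℤ) (thin : Pt → Prop) (h : ∀ x : Pt, x.2 ∉ Q → thin x)
    (ω : Fin n → Stp) : nout Q (fun i => (ω i).2) ≤ nthin thin ω := by
  unfold nout nthin
  refine Finset.card_le_card ?_
  intro i hi
  rw [Finset.mem_filter] at hi ⊢
  refine ⟨hi.1, h _ ?_⟩
  rw [pos_snd]
  exact hi.2

/-- the summand of TaskOneD -/
def fP {n : ℕ} (θ : ℝ) (K : ℕ) (P : Finset ℤ) (σ : Fin n → Bool) : ℝ :=
  if (∀ k ≤ n, |upos σ k| ≤ (K : ℤ)) then
      Real.exp (-θ * (nout P σ : ℝ)) else 0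

theorem fP_nonneg {n : ℕ} (θ : ℝ) (K : ℕ) (P : Finset ℤ) (σ : Fin n → Bool) : 0 ≤ fP θ K P σ := by
  unfold fP
  split_ifs
  · exact (Real.exp_pos _).le
  · exact le_rfl

theorem fP_lower {n : ℕ} {θ : ℝ} (hθ : 0 < θ) (K k : ℕ) (P : Finset ℤ) (σ : Fin n → Bool)
    (h1 : ∀ k ≤ n, |upos σ k| ≤ (K : ℤ))
    (h2 : nout P σ ≤ k) :
    1 ≤ Real.exp (θ * k) * fP θ K P σ := by
  unfold fP
  rw [if_pos h1, ← Real.exp_add]
  apply Real.one_le_exp
  have h3 : (nout P σ : ℝ) ≤ k := by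
    exact_mod_cast h2
  nlinarith

theorem sum_split {n : ℕ} (f g : (Fin n → Bool) → ℝ) :
    ∑ ω : Fin n → Stp, f (fun i => (ω i).1) * g (fun i => (ω i).2) = (∑ σ, f σ) * ∑ σ, g σ := by
  rw [Finset.sum_mul_sum]
  rw [← Fintype.sum_prod_type' (f := fun σ τ => f σ * g τ)]
  exact Fintype.sum_equiv (Equiv.arrowProdEquivProdArrow (Fin n) (fun _ => Bool) (fun _ => Bool)) _ _
    (fun ω => rfl)

end UB603

open UB603

theorem taskUB : TaskThin → TaskOneD → TaskUB := by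
  intro hThin hOne θ hθ
  obtain ⟨C, hC, hbound⟩ := hOne θ hθ
  refine ⟨C, hC, ?_⟩
  intro n b k K P Q hP hQ
  set W : Finset (Fin n → Stp) := (univ : Finset (Fin n → Stp)).filter (fun ω =>
      (∀ x ∈ rng 0 ω, |x.1| ≤ (K : ℤ) ∧ |x.2| ≤ (K : ℤ)) ∧ (bd (rng 0 ω)).card ≤ b ∧
      pU (inn (rng 0 ω)) ⊆ P ∧ pV (inn (rng 0 ω)) ⊆ Q) with hW
  obtain ⟨thin, hthin⟩ : ∃ thin : Pt → Prop, ∀ x, thin x ↔ (x.1 ∉ P ∨ x.2 ∉ Q) :=
    ⟨fun x => x.1 ∉ P ∨ x.2 ∉ Q, fun x => Iff.rfl⟩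
  set W1 : Finset (Fin n → Stp) := (univ : Finset (Fin n → Stp)).filter (fun ω =>
      (∀ x ∈ rng 0 ω, thin x → x ∈ bd (rng 0 ω)) ∧ (bd (rng 0 ω)).card ≤ b ∧
      k ≤ nthin thin ω) with hW1
  set W2 : Finset (Fin n → Stp) := (univ : Finset (Fin n → Stp)).filter (fun ω =>
      (∀ x ∈ rng 0 ω, |x.1| ≤ (K : ℤ) ∧ |x.2| ≤ (K : ℤ)) ∧
      nthin thin ω < k) with hW2
  have hsub : W ⊆ W1 ∪ W2 := by
    intro ω hω
    simp only [hW, Finset.mem_filter, Finset.mem_univ, true_and] at hω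
    obtain ⟨h1, h2, h3, h4⟩ := hω
    rw [Finset.mem_union]
    by_cases hk : k ≤ nthin thin ω
    · left
      simp only [hW1, Finset.mem_filter, Finset.mem_univ, true_and]
      refine ⟨?_, h2, hk⟩
      intro x hx hth
      by_contra hbd
      have hin : x ∈ inn (rng 0 ω) := by
        unfold inn
        rw [Finset.mem_filter]
        refine ⟨hx, fun s => ?_⟩
        by_contra hs
        apply hbd
        unfold bd
        rw [Finset.mem_filter]
        exact ⟨hx, s, hs⟩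
      rcases (hthin x).1 hth with h | h
      · exact h (h3 (Finset.mem_image_of_mem _ hin))
      · exact h (h4 (Finset.mem_image_of_mem _ hin))
    · right
      simp only [hW2, Finset.mem_filter, Finset.mem_univ, true_and]
      exact ⟨h1, not_le.1 hk⟩
  have hc1 : (W1.card : ℝ) ≤ 4 ^ n * 4 ^ b * (3 / 4) ^ k := hThin n b k thin
  have hS1 := hbound n K P hP
  have hS2 := hbound n K Q hQ
  have hc2 : (W2.card : ℝ) ≤ Real.exp (2 * θ * k) *
      ((∑ σ : Fin n → Bool, fP θ K P σ) * ∑ σ : Fin n → Bool, fP θ K Q σ) := by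
    rw [← sum_split, Finset.mul_sum]
    have e1 : (W2.card : ℝ) = ∑ ω ∈ W2, (1 : ℝ) := by simp
    rw [e1]
    refine le_trans (Finset.sum_le_sum (g := fun ω : Fin n → Stp => Real.exp (2 * θ * k) *
      (fP θ K P (fun i => (ω i).1) * fP θ K Q (fun i => (ω i).2))) ?_)
      (Finset.sum_le_univ_sum_of_nonneg ?_)
    · intro ω hω
      simp only [hW2, Finset.mem_filter, Finset.mem_univ, true_and] at hω
      obtain ⟨h1, h2⟩ := hω
      have a1 : nout P (fun i => (ω i).1) ≤ k := (nout_fst P thin (fun x hx => (hthin x).2 (Or.inl hx)) ω).trans h2.le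
      have a2 : nout Q (fun i => (ω i).2) ≤ k := (nout_snd Q thin (fun x hx => (hthin x).2 (Or.inr hx)) ω).trans h2.le
      have b1 : ∀ k ≤ n, |upos (fun i => (ω i).1) k| ≤ (K : ℤ) := by
        intro k hk
        rw [← pos_fst]
        exact (h1 _ (pos_mem ω hk)).1
      have b2 : ∀ k ≤ n, |upos (fun i => (ω i).2) k| ≤ (K : ℤ) := by
        intro k hk
        rw [← pos_snd]
        exact (h1 _ (pos_mem ω hk)).2
      have c1 := fP_lower hθ K k P _ b1 a1
      have c2 := fP_lower hθ K k Q _ b2 a2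
      have e2 : Real.exp (2 * θ * k) = Real.exp (θ * k) * Real.exp (θ * k) := by
        rw [← Real.exp_add]; congr 1; ring
      rw [e2]
      calc (1 : ℝ) = 1 * 1 := by ring
        _ ≤ (Real.exp (θ * k) * fP θ K P (fun i => (ω i).1)) *
            (Real.exp (θ * k) * fP θ K Q (fun i => (ω i).2)) :=
          mul_le_mul c1 c2 zero_le_one (le_trans zero_le_one c1)
        _ = _ := by ring
    · intro ω
      exact mul_nonneg (Real.exp_pos _).le (mul_nonneg (fP_nonneg _ _ _ _) (fP_nonneg _ _ _ _))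
  have hS1' : (∑ σ : Fin n → Bool, fP θ K P σ)
      ≤ 2 ^ n * C ^ (K + 1) * (Real.cos (Real.pi / (P.card + C))) ^ n := hS1
  have hS2' : (∑ σ : Fin n → Bool, fP θ K Q σ)
      ≤ 2 ^ n * C ^ (K + 1) * (Real.cos (Real.pi / (Q.card + C))) ^ n := hS2
  have n1 : 0 ≤ ∑ σ : Fin n → Bool, fP θ K P σ :=
    Finset.sum_nonneg fun σ _ => fP_nonneg _ _ _ _
  have n2 : 0 ≤ ∑ σ : Fin n → Bool, fP θ K Q σ :=
    Finset.sum_nonneg fun σ _ => fP_nonneg _ _ _ _
  have hprod := mul_le_mul hS1' hS2' n2 (le_trans n1 hS1')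
  have hc : (W.card : ℝ) ≤ W1.card + W2.card := by
    have := (Finset.card_le_card hsub).trans (Finset.card_union_le W1 W2)
    exact_mod_cast this
  have h4 : (4 : ℝ) ^ n = 2 ^ n * 2 ^ n := by
    rw [← mul_pow]; norm_num
  calc (W.card : ℝ) ≤ W1.card + W2.card := hc
    _ ≤ 4 ^ n * 4 ^ b * (3 / 4) ^ k + Real.exp (2 * θ * k) *
        ((2 ^ n * C ^ (K + 1) * (Real.cos (Real.pi / (P.card + C))) ^ n) *
          (2 ^ n * C ^ (K + 1) * (Real.cos (Real.pi / (Q.card + C))) ^ n)) :=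
        add_le_add hc1 (hc2.trans (mul_le_mul_of_nonneg_left hprod (Real.exp_pos _).le))
    _ = _ := by
        rw [h4, mul_pow, two_mul (K + 1), pow_add]
        ring

end

end Pool.Agent.H308R3.DM
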