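import Pool.Agent.H308R3.DM.Orig
import Pool.Agent.H123R3.DM.Stay
import Pool.Agent.H214R3.DM.ExSum
import Pool.Agent.H790.DM.Z
import Pool.Agent.H666R3.DM.OneD
import Pool.Agent.H791R3.DM.Mix
import Pool.Agent.H71R3.DM.Ring0
import Pool.Agent.H308R3.DM.Bad2_helper83
import Pool.Agent.H308R3.DM.BdCard_helper689
import Pool.Agent.H308R3.DM.Box_helper722
import Pool.Agent.H308R3.DM.Cover_helper245
import Pool.Agent.H308R3.DM.Int_helper861
import Pool.Agent.H308R3.DM.LBF_helper169
import Pool.Agent.H308R3.DM.Prod_helper757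
import Pool.Agent.H308R3.DM.Ret_helper340
import Pool.Agent.H308R3.DM.Thin_helper192
import Pool.Agent.H308R3.DM.UB_helper603
import Pool.Agent.H260R4.DMForm
import Pool.Agent.H283R3.DMPow
import Pool.Agent.H941R3.DM.Iso
import Pool.Agent.H711R5.DM.Geo
import Pool.Agent.H431R3.DM.Gap
import Pool.Agent.H612K.DM.Ring
import Pool.Agent.H134R3.DM.Hit
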