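import Pool.Agent.H308R3.DM.Pre

set_option autoImplicit false

/-! # Assembly of the parts of the project -/

namespace Pool.Agent.H308R3.DM.Final

open Filter Topology
open scoped ENNReal
open Pool.Agent.H308R3.DM Pool.Agent.H308R3.DM.Orig

theorem hit : TaskHit :=
  Pool.Agent.H134R3.DM.taskHit Pool.Agent.H791R3.DM.taskMix Pool.Agent.H308R3.DM.taskRet
    Pool.Agent.H308R3.DM.taskProd

theorem box : TaskBox := Pool.Agent.H308R3.DM.taskBox hit

theorem ring : TaskRing := Pool.Agent.H308R3.DM.taskRing box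

theorem cover : TaskCover :=
  Pool.Agent.H308R3.DM.taskCover Pool.Agent.H71R3.DM.taskRing0 ring box

theorem lbf : TaskLBF :=
  Pool.Agent.H308R3.DM.LBF169.taskLBF cover Pool.Agent.H123R3.DM.taskStay
    Pool.Agent.H308R3.DM.taskExSum

theorem z : TaskZ := Pool.Agent.H790.DM.taskZ lbf Pool.Agent.H308R3.DM.bdCard

theorem ub : TaskUB := Pool.Agent.H308R3.DM.taskUB Pool.Agent.H308R3.DM.taskThin
  Pool.Agent.H666R3.DM.taskOneD

theorem iso : TaskIso := Pool.Agent.H941R3.DM.taskIso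

theorem int : TaskInt := Pool.Agent.H308R3.DM.taskInt

theorem form : TaskForm := Pool.Agent.H260R4.DMForm.taskForm Pool.Agent.H431R3.DM.taskGap

theorem bad2 : TaskBad2 :=
  Pool.Agent.H308R3.DM.taskBad2 form Pool.Agent.H283R3.DMPow.taskPow z iso int

theorem geo : TaskGeo := Pool.Agent.H308R3.DM.taskGeo

theorem final_of (hBad1 : TaskBad1) :
    (∀ S : ℝ → Set ℂ, (∀ᶠ β in atTop, IsLimitingShape β (S β)) →
      Tendsto (fun β => dHaus (S β) diamond) atTop (𝓝 0)) ∧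
    (∀ ε : ℝ≥0∞, 0 < ε → ∃ β0 : ℝ, 0 < β0 ∧ ∀ β : ℝ, β0 ≤ β →
      Tendsto (fun t => gibbs β t {G | ε < dHaus (rescaled G) diamond}) atTop (𝓝 0)) :=
  ⟨tendsto_shape iso int hBad1 bad2 geo, conc iso int hBad1 bad2 geo⟩

end Pool.Agent.H308R3.DM.Final
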