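import Pool.Agent.H308R3.DM.Stmts

set_option autoImplicit false

namespace Pool.Agent.H308R3.DM

open Finset Filter Topology
open scoped Classical BigOperators ENNReal

noncomputable section

theorem Prod757_mem (A : ℕ) (z : Pt) : z ∈ Bx A ↔
    (1 ≤ z.1 ∧ z.1 ≤ A) ∧ (1 ≤ z.2 ∧ z.2 ≤ A) ∧ (z.1 - z.2) % 2 = 0 := by
  unfold Bx
  rw [Finset.mem_filter, Finset.mem_product, Finset.mem_Icc, Finset.mem_Icc, and_assoc]

theorem Prod757_zero (A : ℕ) (y : Pt) : ∀ (n : ℕ) (x : Pt) (S : Finset Pt), ¬ S ⊆ Bx A →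
    ex n x S (fun y' S' => if y' = y ∧ S' ⊆ Bx A then 1 else 0) = 0 := by
  intro n
  induction n with
  | zero =>
    intro x S hS
    simp only [ex]
    rw [if_neg (fun h => hS h.2)]
  | succ n ih =>
    intro x S hS
    simp only [ex]
    rw [Finset.sum_eq_zero, zero_div]
    intro s _
    exact ih _ _ (fun h => hS ((Finset.subset_insert _ _).trans h))

theorem Prod757_q (A n : ℕ) (x y : ℤ) (h : ¬ (1 ≤ x ∧ x ≤ A)) : q A n x y = 0 := by
  cases n with
  | zero =>
    simp only [q]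
    rw [if_neg (fun h' => h h'.2)]
  | succ n =>
    simp only [q]
    rw [if_neg h]

theorem Prod757_main (A : ℕ) (y : Pt) : ∀ (n : ℕ) (x : Pt) (S : Finset Pt), x ∈ Bx A →
    S ⊆ Bx A → ex n x S (fun y' S' => if y' = y ∧ S' ⊆ Bx A then 1 else 0) =
      q A n x.1 y.1 * q A n x.2 y.2 := by
  intro n
  induction n with
  | zero =>
    intro x S hx hS
    obtain ⟨h1, h2, h3⟩ := (Prod757_mem A x).mp hx
    simp only [ex, q]
    by_cases hxy : x = y
    · subst hxy
      rw [if_pos ⟨rfl, hS⟩, if_pos ⟨rfl, h1⟩, if_pos ⟨rfl, h2⟩, mul_one]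
    · rw [if_neg (fun h => hxy h.1)]
      by_cases h4 : x.1 = y.1
      · have h5 : x.2 ≠ y.2 := fun h => hxy (Prod.ext h4 h)
        rw [if_neg (fun h : x.2 = y.2 ∧ _ => h5 h.1), mul_zero]
      · rw [if_neg (fun h : x.1 = y.1 ∧ _ => h4 h.1), zero_mul]
  | succ n ih =>
    intro x S hx hS
    obtain ⟨h1, h2, h3⟩ := (Prod757_mem A x).mp hx
    have hstep : ∀ s : Stp, ex n (x + dv s) (insert (x + dv s) S)
        (fun y' S' => if y' = y ∧ S' ⊆ Bx A then 1 else 0) =
        q A n (x.1 + sg s.1) y.1 * q A n (x.2 + sg s.2) y.2 := by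
      intro s
      by_cases hs : x + dv s ∈ Bx A
      · exact ih _ _ hs (Finset.insert_subset hs hS)
      · rw [Prod757_zero A y n _ _ (fun h => hs (h (Finset.mem_insert_self _ _)))]
        have hpar : ((x + dv s).1 - (x + dv s).2) % 2 = 0 := by
          obtain ⟨s1, s2⟩ := s
          cases s1 <;> cases s2 <;> simp [dv, sg] <;> omega
        rw [Prod757_mem] at hs
        by_cases h4 : 1 ≤ x.1 + sg s.1 ∧ x.1 + sg s.1 ≤ A
        · have h5 : ¬ (1 ≤ x.2 + sg s.2 ∧ x.2 + sg s.2 ≤ A) := fun h => hs ⟨h4, h, hpar⟩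
          rw [Prod757_q A n _ _ h5, mul_zero]
        · rw [Prod757_q A n _ _ h4, zero_mul]
    simp only [ex, q]
    rw [Finset.sum_congr rfl fun s _ => hstep s, if_pos h1, if_pos h2, Fintype.sum_prod_type,
      Fintype.sum_bool, Fintype.sum_bool, Fintype.sum_bool]
    simp only [sg, if_true, Bool.false_eq_true, if_false]
    have e1 : x.1 + -1 = x.1 - 1 := by ring
    have e2 : x.2 + -1 = x.2 - 1 := by ring
    rw [e1, e2]
    ring

theorem taskProd : TaskProd := by
  intro A n x y hx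
  exact Prod757_main A y n x ∅ hx (Finset.empty_subset _)

end

end Pool.Agent.H308R3.DM
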